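import Pool.Agent.Helper53.Engel.Defs

/-!
# The polynomials governing the core of the plugs
-/

set_option autoImplicit false

open Topology Real
open scoped ContDiff

noncomputable section

namespace Pool.Agent.Helper53.Engel

def uh (ξ τ : ℝ) : ℝ := 3 * ξ ^ 2 + τ ^ 2 - 1 + 6 * ξ * τ
def Wq (ξ τ : ℝ) : ℝ :=
  5 / 2 * (3 * ξ ^ 2 - 1) ^ 2 + τ ^ 4 / 2 + 9 * τ ^ 2 + 3 * ξ ^ 2 * τ ^ 2 +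
    4 * π ^ 2 * rr ^ 2 * ep * (ξ * τ) * (1 - ep * (ξ ^ 2 + τ ^ 2 - 1)) * uh ξ τ ^ 2
def Bq (ξ τ : ℝ) : ℝ :=
  2 * (uh ξ τ * (deriv GG (ξ ^ 2 + τ ^ 2) + ξ * deriv (deriv GG) (ξ ^ 2 + τ ^ 2) * (2 * ξ + 6 * τ)) -
    ξ * deriv GG (ξ ^ 2 + τ ^ 2) * (24 * ξ + 12 * τ)) +
    4 * π ^ 2 * rr ^ 2 * ep ^ 2 * GG (ξ ^ 2 + τ ^ 2) * (3 * ξ ^ 2 + τ ^ 2 - 1) * uh ξ τ ^ 2

end Pool.Agent.Helper53.Engel
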