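import Pool.Agent.Helper53.Engel.Flow

/-!
# Brackets of sections of `ker α`; the core of the plugs
-/

set_option autoImplicit false

open Topology Real Filter
open scoped ContDiff

noncomputable section

namespace Pool.Agent.Helper53.Engel

namespace Geo

variable {g : Geo}

/-- component along `-sin ∂x + cos ∂y` -/
def sg (g : Geo) (p v : V4) : ℝ := -g.S p * v.1 + g.C p * v.2.1

lemma sg_emb (g : Geo) (v2 v3 v1 : V4 → ℝ) (p : V4) : g.sg p (g.emb v2 v3 v1 p) = v1 p := by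
  unfold Geo.sg Geo.emb
  dsimp only
  linear_combination v1 p * g.C_sq_add_S_sq p

lemma fderiv_emb_z {v2 v3 v1 : V4 → ℝ} {p : V4} (hd : DifferentiableAt ℝ (g.emb v2 v3 v1) p)
    (w : V4) : (fderiv ℝ (g.emb v2 v3 v1) p w).2.2.1 = fderiv ℝ v2 p w := by
  have h1 : HasFDerivAt (fun p => prz (g.emb v2 v3 v1 p)) (prz.comp (fderiv ℝ (g.emb v2 v3 v1) p)) p :=
    prz.hasFDerivAt.comp p hd.hasFDerivAt
  have h2 : (fun p => prz (g.emb v2 v3 v1 p)) = v2 := rfl
  rw [h2] at h1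
  rw [h1.fderiv]
  rfl

lemma fderiv_emb_t {v2 v3 v1 : V4 → ℝ} {p : V4} (hd : DifferentiableAt ℝ (g.emb v2 v3 v1) p)
    (w : V4) : (fderiv ℝ (g.emb v2 v3 v1) p w).2.2.2 = fderiv ℝ v3 p w := by
  have h1 : HasFDerivAt (fun p => prt (g.emb v2 v3 v1 p)) (prt.comp (fderiv ℝ (g.emb v2 v3 v1) p)) p :=
    prt.hasFDerivAt.comp p hd.hasFDerivAt
  have h2 : (fun p => prt (g.emb v2 v3 v1 p)) = v3 := rfl
  rw [h2] at h1
  rw [h1.fderiv]
  rfl

lemma sg_fderiv_emb (h : g.Smooth) {v2 v3 v1 : V4 → ℝ} {p : V4}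
    (hd : DifferentiableAt ℝ (g.emb v2 v3 v1) p) (w : V4) :
    g.sg p (fderiv ℝ (g.emb v2 v3 v1) p w) = fderiv ℝ v1 p w -
      om * (dz g.ph p.2.2 * w.2.2.1 + dt g.ph p.2.2 * w.2.2.2) *
        (g.a p.2.2 * v2 p + g.b p * v3 p) := by
  have hS : DifferentiableAt ℝ g.S p := h.S.differentiable (by simp) p
  have hC : DifferentiableAt ℝ g.C p := h.C.differentiable (by simp) p
  have h1 : HasFDerivAt (fun p => prx (g.emb v2 v3 v1 p)) (prx.comp (fderiv ℝ (g.emb v2 v3 v1) p)) p :=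
    prx.hasFDerivAt.comp p hd.hasFDerivAt
  have h2 : HasFDerivAt (fun p => pry (g.emb v2 v3 v1 p)) (pry.comp (fderiv ℝ (g.emb v2 v3 v1) p)) p :=
    pry.hasFDerivAt.comp p hd.hasFDerivAt
  have h3 := (hS.hasFDerivAt.neg.mul h1).add (hC.hasFDerivAt.mul h2)
  have h5 : HasFDerivAt v1 (-g.S p • prx.comp (fderiv ℝ (g.emb v2 v3 v1) p) +
      prx (g.emb v2 v3 v1 p) • -fderiv ℝ g.S p +
      (g.C p • pry.comp (fderiv ℝ (g.emb v2 v3 v1) p) + pry (g.emb v2 v3 v1 p) • fderiv ℝ g.C p)) p := by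
    exact h3.congr_of_eventuallyEq (Eventually.of_forall fun p => (sg_emb g v2 v3 v1 p).symm)
  rw [h5.fderiv]
  simp only [add_apply, smul_apply, ContinuousLinearMap.comp_apply, neg_apply, smul_eq_mul,
    fderiv_S h, fderiv_C h, prx_apply, pry_apply]
  unfold Geo.sg
  have hcs := g.C_sq_add_S_sq p
  simp only [Geo.emb]
  linear_combination (-(om * (dz g.ph p.2.2 * w.2.2.1 + dt g.ph p.2.2 * w.2.2.2) *
        (g.a p.2.2 * v2 p + g.b p * v3 p))) * hcs

/-! ### bilinearity of `dα` -/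

lemma dal_add_right (g : Geo) (p u v w : V4) : g.dal p u (v + w) = g.dal p u v + g.dal p u w := by
  unfold Geo.dal
  rw [map_add, map_add, add_apply]
  ring

lemma dal_smul_right (g : Geo) (p u v : V4) (c : ℝ) : g.dal p u (c • v) = c * g.dal p u v := by
  unfold Geo.dal
  rw [map_smul, map_smul, smul_apply, smul_eq_mul, smul_eq_mul]
  ring

lemma dal_symm (g : Geo) (p u v : V4) : g.dal p u v = -g.dal p v u := by
  unfold Geo.dal
  ring

lemma dal_add_left (g : Geo) (p u v w : V4) : g.dal p (u + v) w = g.dal p u w + g.dal p v w := by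
  rw [dal_symm, dal_add_right, dal_symm g p w u, dal_symm g p w v]
  ring

lemma dal_smul_left (g : Geo) (p u v : V4) (c : ℝ) : g.dal p (c • u) v = c * g.dal p u v := by
  rw [dal_symm, dal_smul_right, dal_symm g p v u]
  ring

lemma dal_self (g : Geo) (p u : V4) : g.dal p u u = 0 := by
  unfold Geo.dal
  ring

/-- `dα(U, [W, V])` -/
def cr (g : Geo) (W U V : V4 → V4) (p : V4) : ℝ :=
  g.dal p (U p) (VectorField.lieBracket ℝ W V p)

lemma lieBracket_comb {W U V : V4 → V4} {c d : V4 → ℝ} {p : V4} (hU : DifferentiableAt ℝ U p)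
    (hV : DifferentiableAt ℝ V p) (hc : DifferentiableAt ℝ c p) (hd : DifferentiableAt ℝ d p) :
    VectorField.lieBracket ℝ W (fun p => c p • U p + d p • V p) p =
      c p • VectorField.lieBracket ℝ W U p + d p • VectorField.lieBracket ℝ W V p +
        ((fderiv ℝ c p (W p)) • U p + (fderiv ℝ d p (W p)) • V p) := by
  have h1 : HasFDerivAt (fun p => c p • U p + d p • V p)
      ((c p • fderiv ℝ U p + (fderiv ℝ c p).smulRight (U p)) +
        (d p • fderiv ℝ V p + (fderiv ℝ d p).smulRight (V p))) p :=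
    (hc.hasFDerivAt.smul hU.hasFDerivAt).add (hd.hasFDerivAt.smul hV.hasFDerivAt)
  unfold VectorField.lieBracket
  rw [h1.fderiv]
  simp only [add_apply, smul_apply, ContinuousLinearMap.smulRight_apply, map_add, map_smul]
  module

/-- expansion of `dα(Y, [W, Y])` for `Y = c U + d V` -/
lemma cr_comb (g : Geo) {W U V : V4 → V4} {c d : V4 → ℝ} {p : V4} (hU : DifferentiableAt ℝ U p)
    (hV : DifferentiableAt ℝ V p) (hc : DifferentiableAt ℝ c p) (hd : DifferentiableAt ℝ d p) :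
    g.cr W (fun p => c p • U p + d p • V p) (fun p => c p • U p + d p • V p) p =
      c p ^ 2 * g.cr W U U p + c p * d p * (g.cr W U V p + g.cr W V U p) + d p ^ 2 * g.cr W V V p +
        (c p * fderiv ℝ d p (W p) - d p * fderiv ℝ c p (W p)) * g.dal p (U p) (V p) := by
  unfold Geo.cr
  rw [lieBracket_comb hU hV hc hd]
  simp only [dal_add_right, dal_smul_right, dal_add_left, dal_smul_left, dal_self,
    dal_symm g p (V p) (U p)]
  ring

end Geo

namespace Par

variable (P : Par)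

/-- derivative of `t*` along `W` -/
def wts (p : V4) : ℝ := dz P.ts p.2.2 * P.geo.Wz p + dt P.ts p.2.2 * P.geo.Wt p

/-- `dα(X, [W, X])` -/
def Q (lam : ℝ) (k : ℤ) (p : V4) : ℝ := P.geo.cr P.W (P.X lam k) (P.X lam k) p

def A11 (p : V4) : ℝ := P.geo.cr P.W P.L1 P.L1 p
def A12 (p : V4) : ℝ := P.geo.cr P.W P.L1 P.L2 p + P.geo.cr P.W P.L2 P.L1 p
def A22 (p : V4) : ℝ := P.geo.cr P.W P.L2 P.L2 p
def JJ (p : V4) : ℝ := om * (P.V1 p ^ 2 + P.V2 p ^ 2)

lemma dal_L1_L2 (p : V4) : P.geo.dal p (P.L1 p) (P.L2 p) = P.JJ p := by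
  unfold Par.L1 Par.L2 Par.JJ
  rw [Geo.dal_emb P.smooth]
  unfold Par.V1 Par.V2
  ring

theorem Q_eq (lam : ℝ) (k : ℤ) (p : V4) : P.Q lam k p =
    cos (om * k * P.ts p.2.2) ^ 2 * P.A11 p +
      lam * (sin (om * k * P.ts p.2.2) * cos (om * k * P.ts p.2.2)) * P.A12 p +
      lam ^ 2 * sin (om * k * P.ts p.2.2) ^ 2 * P.A22 p +
      lam * (om * k * P.wts p) * P.JJ p := by
  have hts : Differentiable ℝ P.ts := P.ts_contDiff.differentiable (by simp)
  have h0 : HasFDerivAt (fun p : V4 => om * k * P.ts p.2.2)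
      ((om * k) • fderiv ℝ (fun p : V4 => P.ts p.2.2) p) p := by
    have h1 : DifferentiableAt ℝ (P.ts ∘ prq) p :=
      DifferentiableAt.comp p (hts _) prq.differentiableAt
    exact h1.hasFDerivAt.const_mul (om * k)
  have hc := h0.cos
  have hs := h0.sin.const_mul lam
  have h := P.geo.cr_comb (W := P.W) (P.L1_smooth.differentiable (by simp) p)
    (P.L2_smooth.differentiable (by simp) p) hc.differentiableAt hs.differentiableAt
  unfold Par.Q Par.X
  rw [h, hc.fderiv, hs.fderiv, P.dal_L1_L2]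
  simp only [smul_apply, smul_eq_mul, Geo.fderiv_q hts]
  have e1 : (P.W p).2.2.1 = P.geo.Wz p := rfl
  have e2 : (P.W p).2.2.2 = P.geo.Wt p := rfl
  rw [e1, e2]
  unfold Par.wts Par.A11 Par.A12 Par.A22
  linear_combination (lam * (om * k * (dz P.ts p.2.2 * P.geo.Wz p + dt P.ts p.2.2 * P.geo.Wt p)) *
    P.JJ p) * (cos_sq_add_sin_sq (om * k * P.ts p.2.2))

end Par

end Pool.Agent.Helper53.Engel
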