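import Pool.Agent.Helper53.Engel.Bracket
import Pool.Agent.Helper53.Engel.CoreDefs

/-!
# The quadratic form in the core of the plugs
-/

set_option autoImplicit false

open Topology Real Filter
open scoped ContDiff

noncomputable section

namespace Pool.Agent.Helper53.Engel

/-- translated local coordinates as a function of `q` -/
def loc (c : R2) (m n : ℤ) (q : R2) : R2 := (q.1 - c.1 - m, q.2 - c.2 - n)

lemma loc_continuous (c : R2) (m n : ℤ) : Continuous (loc c m n) := by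
  unfold loc
  fun_prop

section

variable {P : Par} {i : Fin 3} {m n : ℤ} {p : V4}

lemma inPlug_eventually (h : inPlug P i m n p) : ∀ᶠ p' in 𝓝 p, inPlug P i m n p' := by
  have h1 : Continuous (fun p : V4 => |p.2.2.1 - (P.cen i).1 - m|) := by fun_prop
  have h2 : Continuous (fun p : V4 => |p.2.2.2 - (P.cen i).2 - n|) := by fun_prop
  filter_upwards [h1.continuousAt.eventually_lt_const h.1,
    h2.continuousAt.eventually_lt_const h.2] with s' h1' h2'
  exact ⟨h1', h2'⟩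

lemma rho_eventually {c : R2} {r : ℝ} (h : rho (loc c m n p.2.2) < r) :
    ∀ᶠ p' : V4 in 𝓝 p, rho (loc c m n p'.2.2) < r := by
  have h1 : Continuous (fun p : V4 => rho (loc c m n p.2.2)) :=
    rho_contDiff.continuous.comp ((loc_continuous c m n).comp (by fun_prop))
  exact h1.continuousAt.eventually_lt_const h

lemma plug_Wz (h : inPlug P i m n p) : P.geo.Wz p =
    -(2 * (loc (P.cen i) m n p.2.2).1 * (loc (P.cen i) m n p.2.2).2 *
      deriv ff (rho (loc (P.cen i) m n p.2.2)) / rr ^ 2) := by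
  have h1 := W_plug P i m n p h
  have h2 : (P.W p).2.2.1 = P.geo.Wz p := rfl
  rw [← h2, h1]
  rfl

lemma plug_Wt (h : inPlug P i m n p) : P.geo.Wt p =
    ff (rho (loc (P.cen i) m n p.2.2)) + 2 * (loc (P.cen i) m n p.2.2).1 ^ 2 *
      deriv ff (rho (loc (P.cen i) m n p.2.2)) / rr ^ 2 := by
  have h1 := W_plug P i m n p h
  have h2 : (P.W p).2.2.2 = P.geo.Wt p := rfl
  rw [← h2, h1]
  rfl

lemma plug_hc2 (h : inPlug P i m n p) : chi2 p.2.2.2 = 0 := chi2_slot (plug_slot h.2)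
lemma plug_hdm (h : inPlug P i m n p) : dmu p.2.2.2 = 0 := dmu_slot (plug_slot h.2)

lemma plug_Dx (h : inPlug P i m n p) : Dx P.b p = 0 := by
  rw [Dx_b, plug_hc2 h, plug_hdm h]; ring

lemma plug_Dy (h : inPlug P i m n p) : Dy P.b p = 0 := by
  rw [Dy_b, plug_hc2 h]; ring

lemma plug_Dz (h : inPlug P i m n p) : Dz P.b p =
    P.kap i * (4 * π * ep * ((loc (P.cen i) m n p.2.2).1 / rr) *
      deriv GG (rho (loc (P.cen i) m n p.2.2))) := by
  rw [Dz_b, plug_hc2 h, plug_hdm h, plug_dz_bP h rfl]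
  unfold loc
  ring

lemma plug_Ws (h : inPlug P i m n p) : P.geo.Ws p =
    (loc (P.cen i) m n p.2.2).2 / rr * deriv ff (rho (loc (P.cen i) m n p.2.2)) -
      P.kap i * (2 * ep * ((loc (P.cen i) m n p.2.2).1 / rr) *
        deriv GG (rho (loc (P.cen i) m n p.2.2))) := by
  have dx0 : Dx P.geo.b p = 0 := plug_Dx h
  have dy0 : Dy P.geo.b p = 0 := plug_Dy h
  have dz0 : Dz P.geo.b p = _ := plug_Dz h
  have dt0 : dt P.geo.a p.2.2 = _ := plug_dt_a h rfl
  unfold Geo.Ws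
  rw [dx0, dy0, dz0, dt0]
  have : π ≠ 0 := pi_ne_zero
  unfold om loc
  field_simp
  ring

lemma plug_aa (h : inPlug P i m n p) : P.geo.a p.2.2 =
    π * rr * (ff (rho (loc (P.cen i) m n p.2.2)) - 1) := by
  have : P.geo.a p.2.2 = P.a p.2.2 := rfl
  rw [this, (plug_a h).self_of_nhds]
  rfl

lemma plug_bb (h : inPlug P i m n p) : P.geo.b p =
    P.kap i * (2 * π * ep * rr * GG (rho (loc (P.cen i) m n p.2.2))) := by
  have : P.geo.b p = P.b p := rfl
  rw [this]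
  unfold Par.b Par.hh
  rw [(plug_bP h).self_of_nhds, plug_hc2 h, plug_hdm h]
  dsimp only
  unfold gb loc
  ring

/-- values of periodic extensions in a plug -/
lemma plug_sum (h : inPlug P i m n p) {g : R2 → ℝ} (hg : DiscSupp g) :
    ∑ j, pe g (P.cen j) p.2.2 = g (loc (P.cen i) m n p.2.2) :=
  (sum_plug' h.1 h.2 hg).self_of_nhds

lemma plug_l1 (h : inPlug P i m n p) : P.l1 p.2.2 = gl1 (loc (P.cen i) m n p.2.2) := by
  unfold Par.l1
  exact plug_sum h gl1_supp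

lemma plug_l2 (h : inPlug P i m n p) : P.l2 p.2.2 = -1 + gl2 (loc (P.cen i) m n p.2.2) := by
  unfold Par.l2
  rw [plug_sum h gl2_supp]

lemma plug_l3 (h : inPlug P i m n p) : P.l3 p.2.2 = gl3 (loc (P.cen i) m n p.2.2) := by
  unfold Par.l3
  exact plug_sum h gl3_supp

lemma plug_ts (h : inPlug P i m n p) : P.ts p.2.2 = p.2.2.2 - gt (loc (P.cen i) m n p.2.2) := by
  unfold Par.ts
  rw [plug_sum h gt_supp]

end

/-! ### the core -/

def wzc (u : R2) : ℝ := -(2 * ep * (u.1 * u.2) / rr ^ 2)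
def wtc (u : R2) : ℝ := ep * ((u.1 ^ 2 + u.2 ^ 2) / rr ^ 2 - 1) + 2 * ep * u.1 ^ 2 / rr ^ 2
def wsc (κ : ℝ) (u : R2) : ℝ := ep * (u.2 / rr) - κ * (2 * ep * (u.1 / rr) * deriv GG (rho u))
def l1c (u : R2) : ℝ := -((u.2 + 3 * u.1) / (2 * rr))

/-- `p` is in the core of the plug -/
def inCore (P : Par) (i : Fin 3) (m n : ℤ) (p : V4) : Prop :=
  inPlug P i m n p ∧ rho (loc (P.cen i) m n p.2.2) < 11 / 10

section

variable {P : Par} {i : Fin 3} {m n : ℤ} {p : V4}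

lemma core_eventually (h : inCore P i m n p) : ∀ᶠ p' in 𝓝 p, inCore P i m n p' := by
  filter_upwards [inPlug_eventually h.1, rho_eventually h.2] with p' h1' h2'
  exact ⟨h1', h2'⟩

lemma inCore.le (h : inCore P i m n p) : rho (loc (P.cen i) m n p.2.2) ≤ 6 / 5 :=
  h.2.le.trans (by norm_num)

lemma core_Wz (h : inCore P i m n p) :
    P.geo.Wz =ᶠ[𝓝 p] fun p' => wzc (loc (P.cen i) m n p'.2.2) := by
  filter_upwards [core_eventually h] with p' h'
  rw [plug_Wz h'.1, deriv_ff_core _ h'.le]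
  unfold wzc
  ring

lemma core_Wt (h : inCore P i m n p) :
    P.geo.Wt =ᶠ[𝓝 p] fun p' => wtc (loc (P.cen i) m n p'.2.2) := by
  filter_upwards [core_eventually h] with p' h'
  rw [plug_Wt h'.1, deriv_ff_core _ h'.le, ff_core _ h'.le]
  unfold wtc rho
  ring

lemma core_Ws (h : inCore P i m n p) :
    P.geo.Ws =ᶠ[𝓝 p] fun p' => wsc (P.kap i) (loc (P.cen i) m n p'.2.2) := by
  filter_upwards [core_eventually h] with p' h'
  rw [plug_Ws h'.1, deriv_ff_core _ h'.le]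
  unfold wsc
  ring

lemma core_l1 (h : inCore P i m n p) :
    (fun p : V4 => P.l1 p.2.2) =ᶠ[𝓝 p] fun p' => l1c (loc (P.cen i) m n p'.2.2) := by
  filter_upwards [core_eventually h] with p' h'
  rw [plug_l1 h'.1]
  unfold gl1 l1c
  rw [bet_core h'.2.le]
  ring

lemma core_l2 (h : inCore P i m n p) : (fun p : V4 => P.l2 p.2.2) =ᶠ[𝓝 p] fun _ => 1 := by
  filter_upwards [core_eventually h] with p' h'
  rw [plug_l2 h'.1]
  unfold gl2
  rw [bet_core h'.2.le]
  ring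

lemma core_l3 (h : inCore P i m n p) : (fun p : V4 => P.l3 p.2.2) =ᶠ[𝓝 p] fun _ => 3 := by
  filter_upwards [core_eventually h] with p' h'
  rw [plug_l3 h'.1]
  unfold gl3
  rw [bet_core h'.2.le]
  ring

lemma fderiv_loc {F : V4 → ℝ} {f : R2 → ℝ} {c : R2} (hf : Differentiable ℝ f)
    (h : F =ᶠ[𝓝 p] fun p' => f (loc c m n p'.2.2)) (w : V4) :
    fderiv ℝ F p w = dz f (loc c m n p.2.2) * w.2.2.1 + dt f (loc c m n p.2.2) * w.2.2.2 := by
  have h1 : Differentiable ℝ (fun q => f (loc c m n q)) := translate_diff hf c m n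
  rw [h.fderiv_eq, Geo.fderiv_q h1 p w]
  have h2 := dz_translate hf c m n p.2.2
  have h3 := dt_translate hf c m n p.2.2
  unfold loc
  rw [h2, h3]

end

lemma rr_ne : rr ≠ 0 := by unfold rr; norm_num

lemma wzc_contDiff : ContDiff ℝ ∞ wzc := by
  unfold wzc
  fun_prop

lemma wtc_contDiff : ContDiff ℝ ∞ wtc := by
  unfold wtc
  fun_prop

lemma l1c_contDiff : ContDiff ℝ ∞ l1c := by
  unfold l1c
  fun_prop

lemma wsc_contDiff (κ : ℝ) : ContDiff ℝ ∞ (wsc κ) := by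
  unfold wsc
  have h : ContDiff ℝ ∞ (fun u => deriv GG (rho u)) := deriv_GG_contDiff.comp rho_contDiff
  fun_prop

lemma dz_wzc (u : R2) : dz wzc u = -(2 * ep * u.2 / rr ^ 2) := by
  obtain ⟨z, t⟩ := u
  apply dz_eq (wzc_contDiff.differentiable (by simp) _)
  unfold wzc
  refine ((((hasDerivAt_id z).mul_const t).const_mul (2 * ep)).div_const (rr ^ 2)).neg.congr_deriv ?_
  simp

lemma dt_wzc (u : R2) : dt wzc u = -(2 * ep * u.1 / rr ^ 2) := by
  obtain ⟨z, t⟩ := u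
  apply dt_eq (wzc_contDiff.differentiable (by simp) _)
  unfold wzc
  refine ((((hasDerivAt_id t).const_mul z).const_mul (2 * ep)).div_const (rr ^ 2)).neg.congr_deriv ?_
  simp

lemma dz_wtc (u : R2) : dz wtc u = 6 * ep * u.1 / rr ^ 2 := by
  obtain ⟨z, t⟩ := u
  apply dz_eq (wtc_contDiff.differentiable (by simp) _)
  unfold wtc
  dsimp only
  have h := (hasDerivAt_id z).pow 2
  refine (((((h.add_const (t ^ 2)).div_const (rr ^ 2)).sub_const 1).const_mul ep).add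
    ((h.const_mul (2 * ep)).div_const (rr ^ 2))).congr_deriv ?_
  simp only [id]
  ring

lemma dt_wtc (u : R2) : dt wtc u = 2 * ep * u.2 / rr ^ 2 := by
  obtain ⟨z, t⟩ := u
  apply dt_eq (wtc_contDiff.differentiable (by simp) _)
  unfold wtc
  dsimp only
  have h := (hasDerivAt_id t).pow 2
  refine (((((h.const_add (z ^ 2)).div_const (rr ^ 2)).sub_const 1).const_mul ep).add_const
    (2 * ep * z ^ 2 / rr ^ 2)).congr_deriv ?_
  simp only [id]
  ring

lemma dz_l1c (u : R2) : dz l1c u = -(3 / (2 * rr)) := by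
  obtain ⟨z, t⟩ := u
  apply dz_eq (l1c_contDiff.differentiable (by simp) _)
  unfold l1c
  dsimp only
  refine ((((hasDerivAt_id z).const_mul 3).const_add t).div_const (2 * rr)).neg.congr_deriv ?_
  simp

lemma dt_l1c (u : R2) : dt l1c u = -(1 / (2 * rr)) := by
  obtain ⟨z, t⟩ := u
  apply dt_eq (l1c_contDiff.differentiable (by simp) _)
  unfold l1c
  dsimp only
  refine (((hasDerivAt_id t).add_const (3 * z)).div_const (2 * rr)).neg.congr_deriv ?_
  simp

lemma deriv_GG_differentiable : Differentiable ℝ (deriv GG) :=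
  deriv_GG_contDiff.differentiable (by simp)

lemma dz_wsc (κ : ℝ) (u : R2) : dz (wsc κ) u = -(κ * (2 * ep / rr *
    (deriv GG (rho u) + u.1 * (deriv (deriv GG) (rho u) * (2 * u.1 / rr ^ 2))))) := by
  obtain ⟨z, t⟩ := u
  apply dz_eq ((wsc_contDiff κ).differentiable (by simp) _)
  unfold wsc
  dsimp only
  have h := hasDerivAt_comp_rho_1 deriv_GG_differentiable z t
  refine ((((((hasDerivAt_id z).div_const rr).const_mul (2 * ep)).mul h).const_mul κ).const_sub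
    (ep * (t / rr))).congr_deriv ?_
  simp only [id]
  ring

lemma dt_wsc (κ : ℝ) (u : R2) : dt (wsc κ) u = ep / rr - κ * (2 * ep / rr *
    (u.1 * (deriv (deriv GG) (rho u) * (2 * u.2 / rr ^ 2)))) := by
  obtain ⟨z, t⟩ := u
  apply dt_eq ((wsc_contDiff κ).differentiable (by simp) _)
  unfold wsc
  dsimp only
  have h := hasDerivAt_comp_rho_2 deriv_GG_differentiable z t
  refine ((((hasDerivAt_id t).div_const rr).const_mul ep).sub
    ((h.const_mul (2 * ep * (z / rr))).const_mul κ)).congr_deriv ?_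
  ring

/-- the main formula: `dα(L1, [W, L1])` in the core -/
theorem A11_core {P : Par} {i : Fin 3} {m n : ℤ} {p : V4} (h : inCore P i m n p) {u : R2}
    (hu : u = loc (P.cen i) m n p.2.2) :
    P.A11 p = om * ep ^ 2 / rr * (Wq (u.1 / rr) (u.2 / rr) + P.kap i * Bq (u.1 / rr) (u.2 / rr)) := by
  have hom := Geo.om_ne
  have hr := rr_ne
  have hsm := P.smooth
  have e1 := core_Wz h
  have e2 := core_Wt h
  have e3 := core_Ws h
  have e4 := core_l1 h
  have e5 := core_l2 h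
  have e6 := core_l3 h
  -- derivatives
  have f1 : ∀ w, fderiv ℝ P.geo.Wz p w = -(2 * ep * u.2 / rr ^ 2) * w.2.2.1 +
      -(2 * ep * u.1 / rr ^ 2) * w.2.2.2 := by
    intro w
    rw [fderiv_loc (wzc_contDiff.differentiable (by simp)) e1 w, ← hu, dz_wzc, dt_wzc]
  have f2 : ∀ w, fderiv ℝ P.geo.Wt p w = 6 * ep * u.1 / rr ^ 2 * w.2.2.1 +
      2 * ep * u.2 / rr ^ 2 * w.2.2.2 := by
    intro w
    rw [fderiv_loc (wtc_contDiff.differentiable (by simp)) e2 w, ← hu, dz_wtc, dt_wtc]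
  have f3 : ∀ w, fderiv ℝ P.geo.Ws p w = -(P.kap i * (2 * ep / rr *
      (deriv GG (rho u) + u.1 * (deriv (deriv GG) (rho u) * (2 * u.1 / rr ^ 2))))) * w.2.2.1 +
      (ep / rr - P.kap i * (2 * ep / rr *
        (u.1 * (deriv (deriv GG) (rho u) * (2 * u.2 / rr ^ 2))))) * w.2.2.2 := by
    intro w
    rw [fderiv_loc ((wsc_contDiff _).differentiable (by simp)) e3 w, ← hu, dz_wsc, dt_wsc]
  have f4 : ∀ w, fderiv ℝ (fun p : V4 => P.l1 p.2.2) p w = -(3 / (2 * rr)) * w.2.2.1 +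
      -(1 / (2 * rr)) * w.2.2.2 := by
    intro w
    rw [fderiv_loc (l1c_contDiff.differentiable (by simp)) e4 w, dz_l1c, dt_l1c]
  have f5 : ∀ w, fderiv ℝ (fun p : V4 => P.l2 p.2.2) p w = 0 := by
    intro w
    rw [e5.fderiv_eq]
    simp
  have f6 : ∀ w, fderiv ℝ (fun p : V4 => P.l3 p.2.2) p w = 0 := by
    intro w
    rw [e6.fderiv_eq]
    simp
  -- values
  have v1 : P.geo.Wz p = wzc u := by rw [hu]; exact e1.self_of_nhds
  have v2 : P.geo.Wt p = wtc u := by rw [hu]; exact e2.self_of_nhds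
  have v3 : P.geo.Ws p = wsc (P.kap i) u := by rw [hu]; exact e3.self_of_nhds
  have v4 : P.l1 p.2.2 = l1c u := by rw [hu]; exact e4.self_of_nhds
  have v5 : P.l2 p.2.2 = 1 := e5.self_of_nhds
  have v6 : P.l3 p.2.2 = 3 := e6.self_of_nhds
  have v7 : P.geo.a p.2.2 = π * rr * (ep * (rho u - 1) - 1) := by
    rw [plug_aa h.1, ff_core _ h.le, ← hu]
  have v8 : P.geo.b p = P.kap i * (2 * π * ep * rr * GG (rho u)) := by
    rw [plug_bb h.1, ← hu]
  have v9 : Dx P.geo.b p = 0 := plug_Dx h.1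
  have v10 : Dy P.geo.b p = 0 := plug_Dy h.1
  have v11 : Dz P.geo.b p = P.kap i * (4 * π * ep * (u.1 / rr) * deriv GG (rho u)) := by
    rw [hu]
    exact plug_Dz h.1
  have v12 : dz P.geo.ph p.2.2 = wtc u := v2
  have v13 : dt P.geo.ph p.2.2 = -wzc u := by
    have h1 : P.geo.Wz p = -(dt P.geo.ph p.2.2 - (-P.geo.S p * Dx P.geo.b p +
      P.geo.C p * Dy P.geo.b p) / om) := rfl
    rw [v9, v10, v1] at h1
    rw [h1]
    ring
  have v14 : dt P.geo.a p.2.2 = 2 * π * (u.2 / rr) * ep := by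
    have h1 : dt P.a p.2.2 = _ := plug_dt_a h.1 hu
    have h2 : rho u ≤ 6 / 5 := by rw [hu]; exact h.le
    rw [deriv_ff_core _ h2] at h1
    exact h1
  -- the bracket
  have dW : DifferentiableAt ℝ P.W p := P.W_smooth.differentiable (by simp) p
  have dL : DifferentiableAt ℝ P.L1 p := P.L1_smooth.differentiable (by simp) p
  have b1 : (VectorField.lieBracket ℝ P.W P.L1 p).2.2.1 = -(fderiv ℝ P.geo.Wz p (P.L1 p)) := by
    unfold VectorField.lieBracket
    have h1 : (fderiv ℝ P.L1 p (P.W p)).2.2.1 = 0 := by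
      unfold Par.L1 at dL ⊢
      rw [Geo.fderiv_emb_z dL, f5]
    have h2 : (fderiv ℝ P.W p (P.L1 p)).2.2.1 = fderiv ℝ P.geo.Wz p (P.L1 p) :=
      Geo.fderiv_emb_z dW _
    simp only [Prod.fst_sub, Prod.snd_sub]
    rw [h1, h2]
    ring
  have b2 : (VectorField.lieBracket ℝ P.W P.L1 p).2.2.2 = -(fderiv ℝ P.geo.Wt p (P.L1 p)) := by
    unfold VectorField.lieBracket
    have h1 : (fderiv ℝ P.L1 p (P.W p)).2.2.2 = 0 := by
      unfold Par.L1 at dL ⊢
      rw [Geo.fderiv_emb_t dL, f6]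
    have h2 : (fderiv ℝ P.W p (P.L1 p)).2.2.2 = fderiv ℝ P.geo.Wt p (P.L1 p) :=
      Geo.fderiv_emb_t dW _
    simp only [Prod.snd_sub]
    rw [h1, h2]
    ring
  have b3 : P.geo.sg p (VectorField.lieBracket ℝ P.W P.L1 p) =
      fderiv ℝ (fun p : V4 => P.l1 p.2.2) p (P.W p) - om * (dz P.geo.ph p.2.2 * (P.W p).2.2.1 +
        dt P.geo.ph p.2.2 * (P.W p).2.2.2) * (P.geo.a p.2.2 * P.l2 p.2.2 + P.geo.b p * P.l3 p.2.2) -
      (fderiv ℝ P.geo.Ws p (P.L1 p) - om * (dz P.geo.ph p.2.2 * (P.L1 p).2.2.1 +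
        dt P.geo.ph p.2.2 * (P.L1 p).2.2.2) * (P.geo.a p.2.2 * P.geo.Wz p + P.geo.b p * P.geo.Wt p)) := by
    have dL' : DifferentiableAt ℝ (P.geo.emb (fun p => P.l2 p.2.2) (fun p => P.l3 p.2.2)
        (fun p => P.l1 p.2.2)) p := dL
    have dW' : DifferentiableAt ℝ (P.geo.emb P.geo.Wz P.geo.Wt P.geo.Ws) p := dW
    have h1 := Geo.sg_fderiv_emb hsm dL' (P.W p)
    have h2 := Geo.sg_fderiv_emb hsm dW' (P.L1 p)
    have h0 : P.geo.sg p (VectorField.lieBracket ℝ P.W P.L1 p) =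
        P.geo.sg p (fderiv ℝ (P.geo.emb (fun p => P.l2 p.2.2) (fun p => P.l3 p.2.2)
          (fun p => P.l1 p.2.2)) p (P.W p)) -
        P.geo.sg p (fderiv ℝ (P.geo.emb P.geo.Wz P.geo.Wt P.geo.Ws) p (P.L1 p)) := by
      unfold VectorField.lieBracket Geo.sg
      simp only [Prod.fst_sub, Prod.snd_sub]
      change -P.geo.S p * ((fderiv ℝ P.L1 p (P.W p)).1 - (fderiv ℝ P.W p (P.L1 p)).1) +
        P.geo.C p * ((fderiv ℝ P.L1 p (P.W p)).2.1 - (fderiv ℝ P.W p (P.L1 p)).2.1) =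
        -P.geo.S p * (fderiv ℝ P.L1 p (P.W p)).1 + P.geo.C p * (fderiv ℝ P.L1 p (P.W p)).2.1 -
        (-P.geo.S p * (fderiv ℝ P.W p (P.L1 p)).1 + P.geo.C p * (fderiv ℝ P.W p (P.L1 p)).2.1)
      ring
    rw [h0, h1, h2]
  have c1 : (P.L1 p).2.2.1 = 1 := v5
  have c2 : (P.L1 p).2.2.2 = 3 := v6
  have c3 : P.geo.sg p (P.L1 p) = l1c u := by
    rw [← v4]
    exact Geo.sg_emb _ _ _ _ _
  have c4 : (P.W p).2.2.1 = wzc u := v1
  have c5 : (P.W p).2.2.2 = wtc u := v2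
  unfold Par.A11 Geo.cr
  rw [Geo.dal_eq hsm]
  have hs1 : -P.geo.S p * (VectorField.lieBracket ℝ P.W P.L1 p).1 +
      P.geo.C p * (VectorField.lieBracket ℝ P.W P.L1 p).2.1 = _ := b3
  have hs2 : -P.geo.S p * (P.L1 p).1 + P.geo.C p * (P.L1 p).2.1 = _ := c3
  rw [hs1, hs2, b1, b2, f1, f2, f3, f4, c1, c2, c4, c5, v9, v10, v11, v12, v13, v14, v7, v8, v1, v2,
    v5, v6]
  have hrho : rho u = (u.1 / rr) ^ 2 + (u.2 / rr) ^ 2 := by unfold rho; ring
  rw [hrho]
  obtain ⟨ξ, hξ⟩ : ∃ ξ, ξ = u.1 / rr := ⟨_, rfl⟩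
  obtain ⟨τ, hτ⟩ : ∃ τ, τ = u.2 / rr := ⟨_, rfl⟩
  have hu1 : u.1 = rr * ξ := by rw [hξ]; field_simp
  have hu2 : u.2 = rr * τ := by rw [hτ]; field_simp
  unfold wzc wtc l1c Wq Bq uh om
  rw [hu1, hu2]
  have hx : rr * ξ / rr = ξ := by field_simp
  have ht : rr * τ / rr = τ := by field_simp
  rw [hx, ht]
  generalize deriv (deriv GG) (ξ ^ 2 + τ ^ 2) = G2
  generalize deriv GG (ξ ^ 2 + τ ^ 2) = G1
  generalize GG (ξ ^ 2 + τ ^ 2) = G0
  field_simp
  ring

end Pool.Agent.Helper53.Engel
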