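import Pool.Agent.Helper53.Engel.Statement

/-!
# The explicit Engel structure on the 4-torus: definitions

Coordinates on `ℝ⁴` are `(x, y, z, t)`. The even contact structure is the kernel of
`α = cos(2πφ) dx + sin(2πφ) dy + a dz + b dt`, with `φ, a` functions of `(z, t)`.
-/

set_option autoImplicit false

open Topology Real
open scoped ContDiff

noncomputable section

namespace Pool.Agent.Helper53.Engel

abbrev R2 := ℝ × ℝ

def om : ℝ := 2 * π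
def rr : ℝ := 1 / 40
def ep : ℝ := 1 / 10

/-- smooth step: `0` for `x ≤ a`, `1` for `b ≤ x` (when `a < b`) -/
def stp (a b x : ℝ) : ℝ := Real.smoothTransition ((x - a) / (b - a))

/-- profile of the plug: `ep * (s - 1)` for `s ≤ 6/5`, `1` for `2 ≤ s` -/
def ff (s : ℝ) : ℝ := (1 - stp (6 / 5) 2 s) * (ep * (s - 1)) + stp (6 / 5) 2 s

/-- bump: `1` for `s ≤ 1/6`, `0` for `1/2 ≤ s`, strictly decreasing at `1/3` -/
def GG (s : ℝ) : ℝ := 1 - stp (1 / 6) (1 / 2) s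

/-- `1` for `s ≤ 21/20`, `0` for `11/10 ≤ s` -/
def chi (s : ℝ) : ℝ := 1 - stp (21 / 20) (11 / 10) s

/-- `0` for `s ≤ 11/10`, `1` for `6/5 ≤ s` -/
def bet (s : ℝ) : ℝ := stp (11 / 10) (6 / 5) s

/-- signed distance to the nearest integer -/
def nr (u : ℝ) : ℝ := u - round u

def rho (u : R2) : ℝ := (u.1 ^ 2 + u.2 ^ 2) / rr ^ 2

/-- periodic extension of a function supported in the open square `(-1/2, 1/2)²`,
recentred at `c` -/
def pe (g : R2 → ℝ) (c q : R2) : ℝ := g (nr (q.1 - c.1), nr (q.2 - c.2))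

/-- parameters: `z0` (direction of the leaf that is kept), `z1`, and the strengths `k0, k1` -/
structure Par where
  z0 : ℝ
  z1 : ℝ
  k0 : ℝ
  k1 : ℝ

/-- centres of the three plugs -/
def Par.cen (P : Par) : Fin 3 → R2 := ![(P.z1, 1 / 8), (P.z1 + 1 / 2, 1 / 4), (P.z0 + 1 / 2, 3 / 8)]

def Par.kap (P : Par) : Fin 3 → ℝ := ![P.k1, P.k1, P.k0]

/-! ### The plugs, in local coordinates -/

def gph (u : R2) : ℝ := u.1 * (ff (rho u) - 1)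
def gf (u : R2) : ℝ := ff (rho u) - 1
def ga (u : R2) : ℝ := π * rr * (ff (rho u) - 1)
def gb (u : R2) : ℝ := 2 * π * ep * rr * GG (rho u)
def gt (u : R2) : ℝ := u.2 * chi (rho u)
def gl2 (u : R2) : ℝ := 2 * (1 - bet (rho u))
def gl3 (u : R2) : ℝ := 3 * (1 - bet (rho u))
def gl1 (u : R2) : ℝ := -((u.2 + 3 * u.1) / (2 * rr)) * (1 - bet (rho u))

def Par.ph (P : Par) (q : R2) : ℝ := q.1 + ∑ i, pe gph (P.cen i) q
def Par.a (P : Par) (q : R2) : ℝ := ∑ i, pe ga (P.cen i) q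
def Par.bP (P : Par) (q : R2) : ℝ := ∑ i, P.kap i * pe gb (P.cen i) q
def Par.ts (P : Par) (q : R2) : ℝ := q.2 - ∑ i, pe gt (P.cen i) q
def Par.l2 (P : Par) (q : R2) : ℝ := -1 + ∑ i, pe gl2 (P.cen i) q
def Par.l3 (P : Par) (q : R2) : ℝ := ∑ i, pe gl3 (P.cen i) q
def Par.l1 (P : Par) (q : R2) : ℝ := ∑ i, pe gl1 (P.cen i) q
/-- `ff (rho u)` in the `i`-th plug, `1` outside -/
def Par.FF (P : Par) (i : Fin 3) (q : R2) : ℝ := 1 + pe gf (P.cen i) q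

/-! ### The base flow -/

def Par.m1 (P : Par) : ℝ := -(cos (om * P.z1) / sin (om * P.z1))
def Par.sl (P : Par) : ℝ := 2 / (cos (om * P.z0) / sin (om * P.z0) - cos (om * P.z1) / sin (om * P.z1))

def tb (t : ℝ) : ℝ := 3 / 4 + nr (t - 3 / 4)
def chi2 (t : ℝ) : ℝ := deriv (stp (5 / 8) (7 / 8)) (tb t)
def mu (t : ℝ) : ℝ := 1 - stp (1 / 2) (5 / 8) (tb t) + stp (7 / 8) 1 (tb t)
def dmu (t : ℝ) : ℝ := -deriv (stp (1 / 2) (5 / 8)) (tb t) + deriv (stp (7 / 8) 1) (tb t)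

def Par.fX (P : Par) (x y : ℝ) : ℝ :=
  sin (2 * π * x) * cos (π * y) ^ 2 / (2 * π) + √2 * sin (π * y) ^ 2 + P.sl * sin (2 * π * y) / (2 * π)
def gY (y : ℝ) : ℝ := -(sin (2 * π * y) / (2 * π))
def Par.be (P : Par) (x : ℝ) : ℝ := P.m1 * sin (4 * π * x) / (4 * π)

/-- `∂x fX` -/
def fXx (x y : ℝ) : ℝ := cos (2 * π * x) * cos (π * y) ^ 2
/-- `∂y fX` -/
def Par.fXy (P : Par) (x y : ℝ) : ℝ :=
  -(sin (2 * π * x) * sin (2 * π * y) / 2) + √2 * π * sin (2 * π * y) + P.sl * cos (2 * π * y)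
/-- `gY'` -/
def gYy (y : ℝ) : ℝ := -cos (2 * π * y)
/-- `be'` -/
def Par.bex (P : Par) (x : ℝ) : ℝ := P.m1 * cos (4 * π * x)
/-- `z`-component of the base flow -/
def Par.zdot (P : Par) (t x y z : ℝ) : ℝ :=
  (chi2 t * ((fXx x y - gYy y) * sin (om * z) * cos (om * z) - P.fXy x y * cos (om * z) ^ 2) +
    dmu t * P.bex x * sin (om * z) ^ 2) / om

/-- contact Hamiltonian of the base flow -/
def Par.hh (P : Par) (p : V4) : ℝ :=
  chi2 p.2.2.2 * (P.fX p.1 p.2.1 * cos (om * p.2.2.1) + gY p.2.1 * sin (om * p.2.2.1)) +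
    dmu p.2.2.2 * P.be p.1 * sin (om * p.2.2.1)

def Par.b (P : Par) (p : V4) : ℝ := P.bP p.2.2 - P.hh p

/-! ### The even contact structure -/

/-- the data `φ, a, b` of `α = cos(2πφ) dx + sin(2πφ) dy + a dz + b dt` -/
structure Geo where
  ph : R2 → ℝ
  a : R2 → ℝ
  b : V4 → ℝ

def dz (f : R2 → ℝ) (q : R2) : ℝ := fderiv ℝ f q (1, 0)
def dt (f : R2 → ℝ) (q : R2) : ℝ := fderiv ℝ f q (0, 1)
def Dx (f : V4 → ℝ) (p : V4) : ℝ := fderiv ℝ f p (1, 0, 0, 0)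
def Dy (f : V4 → ℝ) (p : V4) : ℝ := fderiv ℝ f p (0, 1, 0, 0)
def Dz (f : V4 → ℝ) (p : V4) : ℝ := fderiv ℝ f p (0, 0, 1, 0)
def Dt (f : V4 → ℝ) (p : V4) : ℝ := fderiv ℝ f p (0, 0, 0, 1)

def prx : V4 →L[ℝ] ℝ := ContinuousLinearMap.fst ℝ ℝ (ℝ × ℝ × ℝ)
def pry : V4 →L[ℝ] ℝ := (ContinuousLinearMap.fst ℝ ℝ (ℝ × ℝ)).comp (ContinuousLinearMap.snd ℝ ℝ (ℝ × ℝ × ℝ))
def prq : V4 →L[ℝ] R2 := (ContinuousLinearMap.snd ℝ ℝ (ℝ × ℝ)).comp (ContinuousLinearMap.snd ℝ ℝ (ℝ × ℝ × ℝ))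
def prz : V4 →L[ℝ] ℝ := (ContinuousLinearMap.fst ℝ ℝ ℝ).comp prq
def prt : V4 →L[ℝ] ℝ := (ContinuousLinearMap.snd ℝ ℝ ℝ).comp prq

namespace Geo

variable (g : Geo)

def C (p : V4) : ℝ := cos (om * g.ph p.2.2)
def S (p : V4) : ℝ := sin (om * g.ph p.2.2)

def alpha (p : V4) : V4 →L[ℝ] ℝ :=
  g.C p • prx + g.S p • pry + g.a p.2.2 • prz + g.b p • prt

/-- the vector of `ker α` with `z, t`-components `v2, v3` and component `v1` along
`-sin ∂x + cos ∂y` -/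
def emb (v2 v3 v1 : V4 → ℝ) (p : V4) : V4 :=
  (-(g.a p.2.2 * v2 p + g.b p * v3 p) * g.C p - v1 p * g.S p,
    -(g.a p.2.2 * v2 p + g.b p * v3 p) * g.S p + v1 p * g.C p, v2 p, v3 p)

def Wz (p : V4) : ℝ := -(dt g.ph p.2.2 - (-g.S p * Dx g.b p + g.C p * Dy g.b p) / om)
def Wt (p : V4) : ℝ := dz g.ph p.2.2
def Ws (p : V4) : ℝ :=
  -((Dz g.b p - dt g.a p.2.2 - g.a p.2.2 * (g.C p * Dx g.b p + g.S p * Dy g.b p)) / om)

/-- the kernel of `α ∧ dα` -/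
def W : V4 → V4 := g.emb g.Wz g.Wt g.Ws

end Geo

def Par.geo (P : Par) : Geo := ⟨P.ph, P.a, P.b⟩

/-- the characteristic vector field -/
def Par.W (P : Par) : V4 → V4 := P.geo.W

def Par.V1 (P : Par) (p : V4) : ℝ := P.l2 p.2.2 * P.geo.Wt p - P.l3 p.2.2 * P.geo.Wz p
def Par.V2 (P : Par) (p : V4) : ℝ := P.l1 p.2.2 * P.geo.Wt p - P.l3 p.2.2 * P.geo.Ws p

def Par.L1 (P : Par) : V4 → V4 :=
  P.geo.emb (fun p => P.l2 p.2.2) (fun p => P.l3 p.2.2) (fun p => P.l1 p.2.2)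
def Par.L2 (P : Par) : V4 → V4 := P.geo.emb (fun p => -P.V2 p) (fun _ => 0) P.V1

/-- the second vector field of the Engel structure -/
def Par.X (P : Par) (lam : ℝ) (k : ℤ) (p : V4) : V4 :=
  cos (om * k * P.ts p.2.2) • P.L1 p + (lam * sin (om * k * P.ts p.2.2)) • P.L2 p

/-- the Engel structure -/
def Par.D (P : Par) (lam : ℝ) (k : ℤ) (p : V4) : Submodule ℝ V4 :=
  Submodule.span ℝ {P.W p, P.X lam k p}

/-- its characteristic line field -/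
def Par.LW (P : Par) (p : V4) : Submodule ℝ V4 := Submodule.span ℝ {P.W p}

/-- the leaf that is kept -/
def Par.kept (P : Par) (s : ℝ) : V4 :=
  (0, 0, (π / 2 - arctan (2 / P.sl - P.m1 * mu s)) / om, s)

/-! ### Planar loops in the plugs -/

/-- the planar field governing the plugs, in the scaled coordinates `(ξ, τ)` -/
def Yh (v : R2) : R2 :=
  (-(2 * v.1 * v.2 * deriv ff (v.1 ^ 2 + v.2 ^ 2)),
    ff (v.1 ^ 2 + v.2 ^ 2) + 2 * v.1 ^ 2 * deriv ff (v.1 ^ 2 + v.2 ^ 2))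

/-- a closed orbit of `Yh`, based at a point of the axis `τ = 0` -/
structure Loop (c : ℝ → R2) (T : ℝ) : Prop where
  pos : 0 < T
  deriv : ∀ s, HasDerivAt c (Yh (c s)) s
  closed : c T = c 0
  axis : (c 0).2 = 0
  ne : (c 0).1 ≠ 0
  lt : (c 0).1 ^ 2 < 1

/-- the displacement in the torus directions along a loop is `κ e^{2πiz}` times this number -/
def disp (c : ℝ → R2) (T : ℝ) : ℂ :=
  -(rr : ℂ) * Complex.exp (Complex.I * (om * (rr * (c 0).1 * ff ((c 0).1 ^ 2)) : ℝ)) *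
    (((∫ s in (0 : ℝ)..T, 2 * π * ep * rr * GG ((c s).1 ^ 2 + (c s).2 ^ 2) * (Yh (c s)).2 : ℝ) : ℂ) +
      Complex.I * ((∫ s in (0 : ℝ)..T, 2 * ep * (c s).1 * deriv GG ((c s).1 ^ 2 + (c s).2 ^ 2) : ℝ) : ℂ))

/-- the genericity condition on `(z, κ)` -/
structure Generic (z κ : ℝ) : Prop where
  loop : ∀ c T, Loop c T → ∀ m n : ℤ,
    (κ : ℂ) * Complex.exp (Complex.I * (om * z : ℝ)) * disp c T ≠ m + n * Complex.I
  slope : ∀ t : ℝ, t ≠ 0 → ∀ m n : ℤ, ¬(-(t * sin (om * z)) = m ∧ t * cos (om * z) = n)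

/-- conditions on the parameters -/
structure Par.Good (P : Par) : Prop where
  hz0 : |P.z0 - 1 / 8| < 1 / 100
  hz1 : |P.z1 - 1 / 4| < 1 / 100
  hk0 : 0 < P.k0
  hk1 : 0 < P.k1
  gen0 : Generic P.z0 P.k0
  gen1 : Generic P.z1 P.k1

end Pool.Agent.Helper53.Engel
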