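import Pool.Agent.Helper53.Engel.Local

/-!
# Periodicity, Lipschitz bound, the invariant discs
-/

set_option autoImplicit false

open Topology Real Filter
open scoped ContDiff

noncomputable section

namespace Pool.Agent.Helper53.Engel

/-! ### periodic functions on `ℝ⁴` -/

lemma neg_mem_Lat {n : V4} (h : n ∈ Lat) : -n ∈ Lat := by
  obtain ⟨a, b, c, d, rfl⟩ := h
  exact ⟨-a, -b, -c, -d, by push_cast; rfl⟩

lemma add_mem_Lat {m n : V4} (h : m ∈ Lat) (h' : n ∈ Lat) : m + n ∈ Lat := by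
  obtain ⟨a, b, c, d, rfl⟩ := h
  obtain ⟨a', b', c', d', rfl⟩ := h'
  exact ⟨a + a', b + b', c + c', d + d', by push_cast; rfl⟩

lemma zero_mem_Lat : (0 : V4) ∈ Lat := ⟨0, 0, 0, 0, by simp only [Int.cast_zero]; rfl⟩

/-- the unit box -/
def box : Set V4 := Set.Icc (0, 0, 0, 0) (1, 1, 1, 1)

lemma isCompact_box : IsCompact box := isCompact_Icc

lemma exists_box (p : V4) : ∃ q ∈ box, ∃ n ∈ Lat, p = q + n := by
  obtain ⟨x, y, z, t⟩ := p
  refine ⟨(Int.fract x, Int.fract y, Int.fract z, Int.fract t), ?_,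
    ((⌊x⌋ : ℝ), (⌊y⌋ : ℝ), (⌊z⌋ : ℝ), (⌊t⌋ : ℝ)), ⟨_, _, _, _, rfl⟩, ?_⟩
  · unfold box
    rw [Set.mem_Icc]
    refine ⟨⟨?_, ?_, ?_, ?_⟩, ⟨?_, ?_, ?_, ?_⟩⟩
    · exact Int.fract_nonneg x
    · exact Int.fract_nonneg y
    · exact Int.fract_nonneg z
    · exact Int.fract_nonneg t
    · exact (Int.fract_lt_one x).le
    · exact (Int.fract_lt_one y).le
    · exact (Int.fract_lt_one z).le
    · exact (Int.fract_lt_one t).le
  · simp only [Prod.mk_add_mk, Int.fract_add_floor]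

lemma periodic_bounded {E : Type*} [NormedAddCommGroup E] {F : V4 → E} (hF : Continuous F)
    (hp : ∀ p, ∀ n ∈ Lat, F (p + n) = F p) : ∃ C : ℝ, 0 < C ∧ ∀ p, ‖F p‖ ≤ C := by
  obtain ⟨C, hC⟩ := (isCompact_box.exists_bound_of_continuousOn hF.continuousOn)
  refine ⟨max C 1, by positivity, fun p => ?_⟩
  obtain ⟨q, hq, n, hn, rfl⟩ := exists_box p
  rw [hp q n hn]
  exact (hC q hq).trans (le_max_left _ _)

/-- derivatives of functions which are periodic up to constants -/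
lemma fderiv_add_of {E F : Type*} [NormedAddCommGroup E] [NormedSpace ℝ E]
    [NormedAddCommGroup F] [NormedSpace ℝ F] {f : E → F} {n : E} {c : F}
    (h : ∀ q, f (q + n) = f q + c) (q : E) : fderiv ℝ f (q + n) = fderiv ℝ f q := by
  have h1 : fderiv ℝ (fun q => f (q + n)) q = fderiv ℝ f (q + n) := fderiv_comp_add_right n
  rw [← h1]
  have h2 : (fun q => f (q + n)) = fun q => f q + c := funext h
  rw [h2, fderiv_add_const]

lemma fderiv_periodic {F : Type*} [NormedAddCommGroup F] [NormedSpace ℝ F] {f : V4 → F}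
    (h : ∀ p, ∀ n ∈ Lat, f (p + n) = f p) : ∀ p, ∀ n ∈ Lat, fderiv ℝ f (p + n) = fderiv ℝ f p := by
  intro p n hn
  exact fderiv_add_of (c := 0) (fun q => by rw [h q n hn, add_zero]) p

/-! ### periodicity of the data -/

lemma cos_pi_add_sq (y : ℝ) (n : ℤ) : cos (π * (y + n)) ^ 2 = cos (π * y) ^ 2 := by
  rw [cos_sq, cos_sq]
  have : 2 * (π * (y + n)) = 2 * (π * y) + n * (2 * π) := by ring
  rw [this, cos_add_int_mul_two_pi]

lemma sin_pi_add_sq (y : ℝ) (n : ℤ) : sin (π * (y + n)) ^ 2 = sin (π * y) ^ 2 := by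
  rw [sin_sq, sin_sq, cos_pi_add_sq]

lemma sin_two_pi_add (x : ℝ) (m : ℤ) : sin (2 * π * (x + m)) = sin (2 * π * x) := by
  have : 2 * π * (x + m) = 2 * π * x + m * (2 * π) := by ring
  rw [this, sin_add_int_mul_two_pi]

lemma sin_four_pi_add (x : ℝ) (m : ℤ) : sin (4 * π * (x + m)) = sin (4 * π * x) := by
  have : 4 * π * (x + m) = 4 * π * x + (2 * m : ℤ) * (2 * π) := by push_cast; ring
  rw [this, sin_add_int_mul_two_pi]

namespace Par

variable (P : Par)

lemma fX_add_int (x y : ℝ) (m n : ℤ) : P.fX (x + m) (y + n) = P.fX x y := by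
  unfold Par.fX
  rw [sin_two_pi_add, cos_pi_add_sq, sin_pi_add_sq, sin_two_pi_add]

lemma gY_add_int (y : ℝ) (n : ℤ) : gY (y + n) = gY y := by
  unfold gY
  rw [sin_two_pi_add]

lemma be_add_int (x : ℝ) (m : ℤ) : P.be (x + m) = P.be x := by
  unfold Par.be
  rw [sin_four_pi_add]

lemma hh_periodic (p n : V4) (hn : n ∈ Lat) : P.hh (p + n) = P.hh p := by
  obtain ⟨a, b, c, d, rfl⟩ := hn
  obtain ⟨x, y, z, t⟩ := p
  unfold Par.hh
  simp only [Prod.mk_add_mk]
  rw [chi2_add_int, dmu_add_int, fX_add_int, gY_add_int, be_add_int, cos_om_add_int,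
    sin_om_add_int]

lemma q_add (p : V4) {a b c d : ℤ} :
    (p + (((a : ℝ), (b : ℝ), (c : ℝ), (d : ℝ)) : V4)).2.2 = p.2.2 + ((c : ℝ), (d : ℝ)) := rfl

lemma b_periodic (p n : V4) (hn : n ∈ Lat) : P.b (p + n) = P.b p := by
  unfold Par.b
  rw [hh_periodic P p n hn]
  obtain ⟨a, b, c, d, rfl⟩ := hn
  rw [q_add, bP_add_int]

lemma C_periodic (p n : V4) (hn : n ∈ Lat) : P.geo.C (p + n) = P.geo.C p := by
  obtain ⟨a, b, c, d, rfl⟩ := hn
  unfold Geo.C Par.geo
  dsimp only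
  rw [q_add, ph_add_int, cos_om_add_int]

lemma S_periodic (p n : V4) (hn : n ∈ Lat) : P.geo.S (p + n) = P.geo.S p := by
  obtain ⟨a, b, c, d, rfl⟩ := hn
  unfold Geo.S Par.geo
  dsimp only
  rw [q_add, ph_add_int, sin_om_add_int]

lemma ga_periodic (p n : V4) (hn : n ∈ Lat) : P.geo.a (p + n).2.2 = P.geo.a p.2.2 := by
  obtain ⟨a, b, c, d, rfl⟩ := hn
  unfold Par.geo
  dsimp only
  rw [q_add, a_add_int]

lemma alpha_periodic (p n : V4) (hn : n ∈ Lat) : P.geo.alpha (p + n) = P.geo.alpha p := by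
  have h1 := b_periodic P p n hn
  unfold Geo.alpha
  rw [C_periodic P p n hn, S_periodic P p n hn, ga_periodic P p n hn]
  have h2 : P.geo.b (p + n) = P.geo.b p := h1
  rw [h2]

lemma dz_periodic {f : R2 → ℝ} {k : ℤ → ℝ} (h : ∀ q (m n : ℤ), f (q + ((m : ℝ), (n : ℝ))) = f q + k m)
    (p n : V4) (hn : n ∈ Lat) : dz f (p + n).2.2 = dz f p.2.2 := by
  obtain ⟨a, b, c, d, rfl⟩ := hn
  unfold dz
  rw [q_add, fderiv_add_of (fun q => h q c d)]

lemma dt_periodic {f : R2 → ℝ} {k : ℤ → ℝ} (h : ∀ q (m n : ℤ), f (q + ((m : ℝ), (n : ℝ))) = f q + k m)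
    (p n : V4) (hn : n ∈ Lat) : dt f (p + n).2.2 = dt f p.2.2 := by
  obtain ⟨a, b, c, d, rfl⟩ := hn
  unfold dt
  rw [q_add, fderiv_add_of (fun q => h q c d)]

lemma Db_periodic (p n : V4) (hn : n ∈ Lat) : fderiv ℝ P.b (p + n) = fderiv ℝ P.b p :=
  fderiv_periodic (P.b_periodic) p n hn

lemma Wt_periodic (p n : V4) (hn : n ∈ Lat) : P.geo.Wt (p + n) = P.geo.Wt p := by
  unfold Geo.Wt Par.geo
  dsimp only
  rw [dz_periodic (k := fun m => (m : ℝ)) P.ph_add_int p n hn]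

lemma Wz_periodic (p n : V4) (hn : n ∈ Lat) : P.geo.Wz (p + n) = P.geo.Wz p := by
  have h1 : Dx P.geo.b (p + n) = Dx P.geo.b p := by
    unfold Dx
    exact congrArg (fun L => L (1, 0, 0, 0)) (Db_periodic P p n hn)
  have h2 : Dy P.geo.b (p + n) = Dy P.geo.b p := by
    unfold Dy
    exact congrArg (fun L => L (0, 1, 0, 0)) (Db_periodic P p n hn)
  have h3 : dt P.geo.ph (p + n).2.2 = dt P.geo.ph p.2.2 :=
    dt_periodic (k := fun m => (m : ℝ)) P.ph_add_int p n hn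
  unfold Geo.Wz
  rw [h1, h2, h3, C_periodic P p n hn, S_periodic P p n hn]

lemma Ws_periodic (p n : V4) (hn : n ∈ Lat) : P.geo.Ws (p + n) = P.geo.Ws p := by
  have h1 : Dx P.geo.b (p + n) = Dx P.geo.b p := by
    unfold Dx
    exact congrArg (fun L => L (1, 0, 0, 0)) (Db_periodic P p n hn)
  have h2 : Dy P.geo.b (p + n) = Dy P.geo.b p := by
    unfold Dy
    exact congrArg (fun L => L (0, 1, 0, 0)) (Db_periodic P p n hn)
  have h4 : Dz P.geo.b (p + n) = Dz P.geo.b p := by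
    unfold Dz
    exact congrArg (fun L => L (0, 0, 1, 0)) (Db_periodic P p n hn)
  have h3 : dt P.geo.a (p + n).2.2 = dt P.geo.a p.2.2 :=
    dt_periodic (k := fun _ => 0) (fun q m n => by rw [add_zero]; exact P.a_add_int q m n) p n hn
  unfold Geo.Ws
  rw [h1, h2, h3, h4, C_periodic P p n hn, S_periodic P p n hn, ga_periodic P p n hn]

lemma emb_periodic {v2 v3 v1 : V4 → ℝ} (h2 : ∀ p, ∀ n ∈ Lat, v2 (p + n) = v2 p)
    (h3 : ∀ p, ∀ n ∈ Lat, v3 (p + n) = v3 p) (h1 : ∀ p, ∀ n ∈ Lat, v1 (p + n) = v1 p)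
    (p n : V4) (hn : n ∈ Lat) : P.geo.emb v2 v3 v1 (p + n) = P.geo.emb v2 v3 v1 p := by
  have hb : P.geo.b (p + n) = P.geo.b p := b_periodic P p n hn
  unfold Geo.emb
  rw [h2 p n hn, h3 p n hn, h1 p n hn, hb, C_periodic P p n hn, S_periodic P p n hn,
    ga_periodic P p n hn]

end Par

theorem W_periodic (P : Par) (p n : V4) (hn : n ∈ Lat) : P.W (p + n) = P.W p := by
  unfold Par.W Geo.W
  exact P.emb_periodic P.Wz_periodic P.Wt_periodic P.Ws_periodic p n hn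

theorem W_lipschitz (P : Par) : ∃ K : NNReal, LipschitzWith K P.W := by
  have hd : Differentiable ℝ P.W := P.W_smooth.differentiable (by simp)
  obtain ⟨C, hC0, hC⟩ := periodic_bounded (F := fderiv ℝ P.W)
    (P.W_smooth.continuous_fderiv (by simp)) (fderiv_periodic (W_periodic P))
  refine ⟨⟨C, hC0.le⟩, lipschitzWith_of_nnnorm_fderiv_le hd fun p => ?_⟩
  exact hC p

namespace Par

variable (P : Par)

lemma q_periodic {f : R2 → ℝ} (h : ∀ q (m n : ℤ), f (q + ((m : ℝ), (n : ℝ))) = f q)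
    (p n : V4) (hn : n ∈ Lat) : f (p + n).2.2 = f p.2.2 := by
  obtain ⟨a, b, c, d, rfl⟩ := hn
  rw [q_add, h]

lemma L1_periodic (p n : V4) (hn : n ∈ Lat) : P.L1 (p + n) = P.L1 p := by
  unfold Par.L1
  exact P.emb_periodic (q_periodic P.l2_add_int) (q_periodic P.l3_add_int)
    (q_periodic P.l1_add_int) p n hn

lemma V1_periodic (p n : V4) (hn : n ∈ Lat) : P.V1 (p + n) = P.V1 p := by
  unfold Par.V1
  rw [q_periodic P.l2_add_int p n hn, q_periodic P.l3_add_int p n hn, Wt_periodic P p n hn,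
    Wz_periodic P p n hn]

lemma V2_periodic (p n : V4) (hn : n ∈ Lat) : P.V2 (p + n) = P.V2 p := by
  unfold Par.V2
  rw [q_periodic P.l1_add_int p n hn, q_periodic P.l3_add_int p n hn, Wt_periodic P p n hn,
    Ws_periodic P p n hn]

lemma L2_periodic (p n : V4) (hn : n ∈ Lat) : P.L2 (p + n) = P.L2 p := by
  unfold Par.L2
  exact P.emb_periodic (fun p n hn => by rw [V2_periodic P p n hn]) (fun _ _ _ => rfl)
    (V1_periodic P) p n hn

lemma X_periodic (lam : ℝ) (k : ℤ) (p n : V4) (hn : n ∈ Lat) : P.X lam k (p + n) = P.X lam k p := by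
  unfold Par.X
  rw [L1_periodic P p n hn, L2_periodic P p n hn]
  obtain ⟨a, b, c, d, rfl⟩ := hn
  rw [q_add, ts_add_int]
  have h : om * k * (P.ts p.2.2 + d) = om * k * P.ts p.2.2 + (k * d : ℤ) * (2 * π) := by
    unfold om
    push_cast
    ring
  rw [h, cos_add_int_mul_two_pi, sin_add_int_mul_two_pi]

lemma V1_contDiff : ContDiff ℝ ∞ P.V1 := by
  unfold Par.V1
  exact ((P.l2_contDiff.comp Geo.contDiff_q).mul P.smooth.Wt).sub
    ((P.l3_contDiff.comp Geo.contDiff_q).mul P.smooth.Wz)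

lemma V2_contDiff : ContDiff ℝ ∞ P.V2 := by
  unfold Par.V2
  exact ((P.l1_contDiff.comp Geo.contDiff_q).mul P.smooth.Wt).sub
    ((P.l3_contDiff.comp Geo.contDiff_q).mul P.smooth.Ws)

lemma L1_smooth : ContDiff ℝ ∞ P.L1 := by
  unfold Par.L1
  exact P.smooth.emb (P.l2_contDiff.comp Geo.contDiff_q) (P.l3_contDiff.comp Geo.contDiff_q)
    (P.l1_contDiff.comp Geo.contDiff_q)

lemma L2_smooth : ContDiff ℝ ∞ P.L2 := by
  unfold Par.L2
  exact P.smooth.emb P.V2_contDiff.neg contDiff_const P.V1_contDiff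

lemma X_smooth (lam : ℝ) (k : ℤ) : ContDiff ℝ ∞ (P.X lam k) := by
  unfold Par.X
  have h : ContDiff ℝ ∞ (fun p : V4 => om * k * P.ts p.2.2) :=
    contDiff_const.mul (P.ts_contDiff.comp Geo.contDiff_q)
  exact (h.cos.smul P.L1_smooth).add ((contDiff_const.mul h.sin).smul P.L2_smooth)

lemma alpha_X (lam : ℝ) (k : ℤ) (p : V4) : P.geo.alpha p (P.X lam k p) = 0 := by
  unfold Par.X
  rw [map_add, map_smul, map_smul]
  unfold Par.L1 Par.L2
  rw [Geo.alpha_emb, Geo.alpha_emb]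
  simp

end Par

/-! ### the invariant discs -/

/-- logarithmic derivative of `FF` along `W`, in local coordinates -/
def gg (u : R2) : ℝ := 2 * u.2 / rr ^ 2 * deriv ff (rho u)

lemma gg_supp : DiscSupp gg := fun u h => by simp [gg, deriv_ff_out _ h]

lemma gg_contDiff : ContDiff ℝ ∞ gg := by
  unfold gg
  exact ((contDiff_const.mul contDiff_snd).div_const _).mul (deriv_ff_contDiff.comp rho_contDiff)

theorem FF_ode (P : Par) (i : Fin 3) : ∃ g : V4 → ℝ, Continuous g ∧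
    ∀ (γ : ℝ → V4) (s : ℝ), HasDerivAt γ (P.W (γ s)) s →
      HasDerivAt (fun s => P.FF i (γ s).2.2) (g (γ s) * P.FF i (γ s).2.2) s := by
  refine ⟨fun p => pe gg (P.cen i) p.2.2, ?_, ?_⟩
  · exact (pe_contDiff gg_supp gg_contDiff _).continuous.comp (by fun_prop)
  intro γ s hγ
  have hq : HasDerivAt (fun s => (γ s).2.2) (P.W (γ s)).2.2 s :=
    (prq.hasFDerivAt (x := γ s)).comp_hasDerivAt s hγ
  by_cases h : 1 / 25 < |nr ((γ s).2.2.1 - (P.cen i).1)| ∨ 1 / 25 < |nr ((γ s).2.2.2 - (P.cen i).2)|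
  · have e1 := pe_eventually_zero (c := P.cen i) (q := (γ s).2.2) gf_supp h
    have e2 := pe_eventually_zero (c := P.cen i) (q := (γ s).2.2) gg_supp h
    have e3 : ∀ᶠ s' in 𝓝 s, pe gf (P.cen i) (γ s').2.2 = 0 := hq.continuousAt.eventually e1
    have e4 : (fun s => P.FF i (γ s).2.2) =ᶠ[𝓝 s] fun _ => 1 := by
      filter_upwards [e3] with s' hs'
      unfold Par.FF
      rw [hs', add_zero]
    have e5 : pe gg (P.cen i) (γ s).2.2 = 0 := e2.self_of_nhds
    dsimp only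
    rw [e5, zero_mul]
    exact (hasDerivAt_const s (1 : ℝ)).congr_of_eventuallyEq e4
  · push Not at h
    obtain ⟨m, hm⟩ := nr_exists ((γ s).2.2.1 - (P.cen i).1)
    obtain ⟨n, hn⟩ := nr_exists ((γ s).2.2.2 - (P.cen i).2)
    rw [hm, hn] at h
    have hp : inPlug P i m n (γ s) := ⟨lt_of_le_of_lt h.1 (by norm_num), lt_of_le_of_lt h.2 (by norm_num)⟩
    have hW := W_plug P i m n (γ s) hp
    obtain ⟨u, hu⟩ : ∃ u : R2, u = ((γ s).2.2.1 - (P.cen i).1 - m, (γ s).2.2.2 - (P.cen i).2 - n) :=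
      ⟨_, rfl⟩
    rw [← hu] at hW
    have hnear : ∀ᶠ s' in 𝓝 s, inPlug P i m n (γ s') := by
      have h1 : ContinuousAt (fun s => |(γ s).2.2.1 - (P.cen i).1 - m|) s := by
        have := hq.continuousAt
        fun_prop
      have h2 : ContinuousAt (fun s => |(γ s).2.2.2 - (P.cen i).2 - n|) s := by
        have := hq.continuousAt
        fun_prop
      filter_upwards [h1.eventually_lt_const hp.1, h2.eventually_lt_const hp.2] with s' h1' h2'
      exact ⟨h1', h2'⟩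
    have e4 : (fun s => P.FF i (γ s).2.2) =ᶠ[𝓝 s]
        fun s => ff (rho ((γ s).2.2.1 - (P.cen i).1 - m, (γ s).2.2.2 - (P.cen i).2 - n)) := by
      filter_upwards [hnear] with s' hs'
      exact FF_plug P i m n (γ s') hs'
    have d1 : HasDerivAt (fun s => (γ s).2.2.1) (P.W (γ s)).2.2.1 s :=
      (ContinuousLinearMap.fst ℝ ℝ ℝ).hasFDerivAt.comp_hasDerivAt s hq
    have d2 : HasDerivAt (fun s => (γ s).2.2.2) (P.W (γ s)).2.2.2 s :=
      (ContinuousLinearMap.snd ℝ ℝ ℝ).hasFDerivAt.comp_hasDerivAt s hq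
    have d3 : HasDerivAt (fun s => rho ((γ s).2.2.1 - (P.cen i).1 - m, (γ s).2.2.2 - (P.cen i).2 - n))
        ((2 * u.1 * (P.W (γ s)).2.2.1 + 2 * u.2 * (P.W (γ s)).2.2.2) / rr ^ 2) s := by
      unfold rho
      have := ((((d1.sub_const (P.cen i).1).sub_const (m : ℝ)).pow 2).add
        (((d2.sub_const (P.cen i).2).sub_const (n : ℝ)).pow 2)).div_const (rr ^ 2)
      refine this.congr_deriv ?_
      rw [hu]
      simp
    have d4 : HasDerivAt (fun s => ff (rho ((γ s).2.2.1 - (P.cen i).1 - m,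
        (γ s).2.2.2 - (P.cen i).2 - n)))
        (deriv ff (rho u) * ((2 * u.1 * (P.W (γ s)).2.2.1 + 2 * u.2 * (P.W (γ s)).2.2.2) / rr ^ 2)) s := by
      have h1 : HasDerivAt ff (deriv ff (rho u)) (rho ((γ s).2.2.1 - (P.cen i).1 - m,
        (γ s).2.2.2 - (P.cen i).2 - n)) := by
        rw [← hu]
        exact (ff_differentiable _).hasDerivAt
      exact h1.comp s d3
    have e5 : P.FF i (γ s).2.2 = ff (rho u) := by rw [FF_plug P i m n (γ s) hp, ← hu]
    have e6 : pe gg (P.cen i) (γ s).2.2 = gg u := by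
      rw [pe_eq gg hp.1 (lt_trans hp.2 (by norm_num)), ← hu]
    dsimp only
    rw [e5, e6]
    refine (d4.congr_of_eventuallyEq e4).congr_deriv ?_
    rw [hW]
    unfold plugW gg
    dsimp only
    ring

end Pool.Agent.Helper53.Engel
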