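import Pool.Agent.Helper53.Engel.Periodic

/-!
# The form `α`, its exterior derivative, and the field `W`
-/

set_option autoImplicit false

open Topology Real Filter
open scoped ContDiff

noncomputable section

namespace Pool.Agent.Helper53.Engel

/-! ### directional derivatives from one-variable derivatives -/

lemma fderiv_line {E : Type*} [NormedAddCommGroup E] [NormedSpace ℝ E] {f : E → ℝ} {c : ℝ → E}
    {v : E} {s d : ℝ} (hf : DifferentiableAt ℝ f (c s)) (hc : HasDerivAt c v s)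
    (h : HasDerivAt (fun s => f (c s)) d s) : fderiv ℝ f (c s) v = d := by
  have h1 : HasDerivAt (f ∘ c) (fderiv ℝ f (c s) v) s := hf.hasFDerivAt.comp_hasDerivAt s hc
  exact h1.unique h

lemma dz_eq {f : R2 → ℝ} {z t d : ℝ} (hf : DifferentiableAt ℝ f (z, t))
    (h : HasDerivAt (fun z => f (z, t)) d z) : dz f (z, t) = d := by
  have hc : HasDerivAt (fun z : ℝ => (z, t)) ((1 : ℝ), (0 : ℝ)) z :=
    (hasDerivAt_id z).prodMk (hasDerivAt_const z t)
  exact fderiv_line (c := fun z : ℝ => (z, t)) hf hc h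

lemma dt_eq {f : R2 → ℝ} {z t d : ℝ} (hf : DifferentiableAt ℝ f (z, t))
    (h : HasDerivAt (fun t => f (z, t)) d t) : dt f (z, t) = d := by
  have hc : HasDerivAt (fun t : ℝ => (z, t)) ((0 : ℝ), (1 : ℝ)) t :=
    (hasDerivAt_const t z).prodMk (hasDerivAt_id t)
  exact fderiv_line (c := fun t : ℝ => (z, t)) hf hc h

lemma Dx_eq {f : V4 → ℝ} {x y z t d : ℝ} (hf : DifferentiableAt ℝ f (x, y, z, t))
    (h : HasDerivAt (fun x => f (x, y, z, t)) d x) : Dx f (x, y, z, t) = d := by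
  have hc : HasDerivAt (fun x : ℝ => ((x, y, z, t) : V4)) ((1 : ℝ), (0 : ℝ), (0 : ℝ), (0 : ℝ)) x :=
    (hasDerivAt_id x).prodMk (hasDerivAt_const x (y, z, t))
  exact fderiv_line (c := fun x : ℝ => ((x, y, z, t) : V4)) hf hc h

lemma Dy_eq {f : V4 → ℝ} {x y z t d : ℝ} (hf : DifferentiableAt ℝ f (x, y, z, t))
    (h : HasDerivAt (fun y => f (x, y, z, t)) d y) : Dy f (x, y, z, t) = d := by
  have hc : HasDerivAt (fun y : ℝ => ((x, y, z, t) : V4)) ((0 : ℝ), (1 : ℝ), (0 : ℝ), (0 : ℝ)) y :=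
    (hasDerivAt_const y x).prodMk ((hasDerivAt_id y).prodMk (hasDerivAt_const y (z, t)))
  exact fderiv_line (c := fun y : ℝ => ((x, y, z, t) : V4)) hf hc h

lemma Dz_eq {f : V4 → ℝ} {x y z t d : ℝ} (hf : DifferentiableAt ℝ f (x, y, z, t))
    (h : HasDerivAt (fun z => f (x, y, z, t)) d z) : Dz f (x, y, z, t) = d := by
  have hc : HasDerivAt (fun z : ℝ => ((x, y, z, t) : V4)) ((0 : ℝ), (0 : ℝ), (1 : ℝ), (0 : ℝ)) z :=
    (hasDerivAt_const z x).prodMk ((hasDerivAt_const z y).prodMk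
      ((hasDerivAt_id z).prodMk (hasDerivAt_const z t)))
  exact fderiv_line (c := fun z : ℝ => ((x, y, z, t) : V4)) hf hc h

lemma contDiff_dz {f : R2 → ℝ} (hf : ContDiff ℝ ∞ f) : ContDiff ℝ ∞ (dz f) := by
  unfold dz
  exact (hf.fderiv_right (m := ∞) (by simp)).clm_apply contDiff_const

lemma contDiff_dt {f : R2 → ℝ} (hf : ContDiff ℝ ∞ f) : ContDiff ℝ ∞ (dt f) := by
  unfold dt
  exact (hf.fderiv_right (m := ∞) (by simp)).clm_apply contDiff_const

lemma contDiff_D {f : V4 → ℝ} (hf : ContDiff ℝ ∞ f) (v : V4) :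
    ContDiff ℝ ∞ (fun p => fderiv ℝ f p v) :=
  (hf.fderiv_right (m := ∞) (by simp)).clm_apply contDiff_const

/-! ### smooth data -/

structure Geo.Smooth (g : Geo) : Prop where
  ph : ContDiff ℝ ∞ g.ph
  a : ContDiff ℝ ∞ g.a
  b : ContDiff ℝ ∞ g.b

namespace Geo

variable {g : Geo}

lemma contDiff_q : ContDiff ℝ ∞ (fun p : V4 => p.2.2) := by fun_prop

lemma Smooth.C (h : g.Smooth) : ContDiff ℝ ∞ g.C := by
  unfold Geo.C
  exact (contDiff_const.mul (h.ph.comp contDiff_q)).cos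

lemma Smooth.S (h : g.Smooth) : ContDiff ℝ ∞ g.S := by
  unfold Geo.S
  exact (contDiff_const.mul (h.ph.comp contDiff_q)).sin

lemma Smooth.alpha (h : g.Smooth) : ContDiff ℝ ∞ g.alpha := by
  unfold Geo.alpha
  exact (((h.C.smul contDiff_const).add (h.S.smul contDiff_const)).add
    ((h.a.comp contDiff_q).smul contDiff_const)).add (h.b.smul contDiff_const)

lemma Smooth.emb (h : g.Smooth) {v2 v3 v1 : V4 → ℝ} (h2 : ContDiff ℝ ∞ v2) (h3 : ContDiff ℝ ∞ v3)
    (h1 : ContDiff ℝ ∞ v1) : ContDiff ℝ ∞ (g.emb v2 v3 v1) := by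
  have ha : ContDiff ℝ ∞ (fun p : V4 => g.a p.2.2) := h.a.comp contDiff_q
  have he : ContDiff ℝ ∞ (fun p : V4 => -(g.a p.2.2 * v2 p + g.b p * v3 p)) :=
    ((ha.mul h2).add (h.b.mul h3)).neg
  unfold Geo.emb
  exact ((he.mul h.C).sub (h1.mul h.S)).prodMk
    (((he.mul h.S).add (h1.mul h.C)).prodMk (h2.prodMk h3))

lemma Smooth.Wz (h : g.Smooth) : ContDiff ℝ ∞ g.Wz := by
  unfold Geo.Wz
  exact (((contDiff_dt h.ph).comp contDiff_q).sub
    (((h.S.neg.mul (contDiff_D h.b _)).add (h.C.mul (contDiff_D h.b _))).div_const _)).neg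

lemma Smooth.Wt (h : g.Smooth) : ContDiff ℝ ∞ g.Wt := by
  unfold Geo.Wt
  exact (contDiff_dz h.ph).comp contDiff_q

lemma Smooth.Ws (h : g.Smooth) : ContDiff ℝ ∞ g.Ws := by
  unfold Geo.Ws
  have ha : ContDiff ℝ ∞ (fun p : V4 => g.a p.2.2) := h.a.comp contDiff_q
  have ha' : ContDiff ℝ ∞ (fun p : V4 => dt g.a p.2.2) := (contDiff_dt h.a).comp contDiff_q
  exact ((((contDiff_D h.b _).sub ha').sub
    (ha.mul ((h.C.mul (contDiff_D h.b _)).add (h.S.mul (contDiff_D h.b _))))).div_const _).neg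

lemma Smooth.W (h : g.Smooth) : ContDiff ℝ ∞ g.W := by
  unfold Geo.W
  exact h.emb h.Wz h.Wt h.Ws

lemma C_sq_add_S_sq (g : Geo) (p : V4) : g.C p ^ 2 + g.S p ^ 2 = 1 := by
  unfold Geo.C Geo.S
  exact cos_sq_add_sin_sq _

lemma prx_apply (v : V4) : prx v = v.1 := rfl
lemma pry_apply (v : V4) : pry v = v.2.1 := rfl
lemma prq_apply (v : V4) : prq v = v.2.2 := rfl
lemma prz_apply (v : V4) : prz v = v.2.2.1 := rfl
lemma prt_apply (v : V4) : prt v = v.2.2.2 := rfl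

lemma alpha_apply (g : Geo) (p v : V4) :
    g.alpha p v = g.C p * v.1 + g.S p * v.2.1 + g.a p.2.2 * v.2.2.1 + g.b p * v.2.2.2 := by
  simp [Geo.alpha, prx_apply, pry_apply, prz_apply, prt_apply]

lemma alpha_emb (g : Geo) (v2 v3 v1 : V4 → ℝ) (p : V4) : g.alpha p (g.emb v2 v3 v1 p) = 0 := by
  rw [alpha_apply]
  simp only [Geo.emb]
  linear_combination (-(g.a p.2.2 * v2 p + g.b p * v3 p)) * g.C_sq_add_S_sq p

lemma alpha_W (g : Geo) (p : V4) : g.alpha p (g.W p) = 0 := alpha_emb g _ _ _ p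

/-- exterior derivative of `α` -/
def dal (g : Geo) (p u v : V4) : ℝ := fderiv ℝ g.alpha p u v - fderiv ℝ g.alpha p v u

lemma fderiv_q {f : R2 → ℝ} (hf : Differentiable ℝ f) (p u : V4) :
    fderiv ℝ (fun p : V4 => f p.2.2) p u = dz f p.2.2 * u.2.2.1 + dt f p.2.2 * u.2.2.2 := by
  have h1 : HasFDerivAt (fun p : V4 => f p.2.2) ((fderiv ℝ f p.2.2).comp prq) p := by
    have h2 : HasFDerivAt (fun p : V4 => p.2.2) prq p := prq.hasFDerivAt
    exact (hf p.2.2).hasFDerivAt.comp p h2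
  rw [h1.fderiv]
  have h3 : prq u = u.2.2.1 • ((1 : ℝ), (0 : ℝ)) + u.2.2.2 • ((0 : ℝ), (1 : ℝ)) := by
    rw [prq_apply]
    ext <;> simp
  rw [ContinuousLinearMap.comp_apply, h3, map_add, map_smul, map_smul]
  unfold dz dt
  simp only [smul_eq_mul]
  ring

lemma fderiv_V4 (f : V4 → ℝ) (p u : V4) :
    fderiv ℝ f p u = Dx f p * u.1 + Dy f p * u.2.1 + Dz f p * u.2.2.1 + Dt f p * u.2.2.2 := by
  have h3 : u = u.1 • (((1 : ℝ), (0 : ℝ), (0 : ℝ), (0 : ℝ)) : V4) +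
      u.2.1 • (((0 : ℝ), (1 : ℝ), (0 : ℝ), (0 : ℝ)) : V4) +
      u.2.2.1 • (((0 : ℝ), (0 : ℝ), (1 : ℝ), (0 : ℝ)) : V4) +
      u.2.2.2 • (((0 : ℝ), (0 : ℝ), (0 : ℝ), (1 : ℝ)) : V4) := by
    ext <;> simp
  conv_lhs => rw [h3]
  rw [map_add, map_add, map_add, map_smul, map_smul, map_smul, map_smul]
  unfold Dx Dy Dz Dt
  simp only [smul_eq_mul]
  ring

lemma fderiv_C (h : g.Smooth) (p u : V4) : fderiv ℝ g.C p u =
    -(om * (dz g.ph p.2.2 * u.2.2.1 + dt g.ph p.2.2 * u.2.2.2) * g.S p) := by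
  have hd : Differentiable ℝ g.ph := h.ph.differentiable (by simp)
  have hdq : DifferentiableAt ℝ (fun p : V4 => g.ph p.2.2) p :=
    (hd p.2.2).comp p prq.differentiableAt
  have h1 : HasFDerivAt g.C (-(sin (om * g.ph p.2.2)) • (om • fderiv ℝ (fun p : V4 => g.ph p.2.2) p)) p :=
    (hdq.hasFDerivAt.const_mul om).cos
  rw [h1.fderiv]
  simp only [smul_apply, smul_eq_mul, fderiv_q hd]
  unfold Geo.S
  ring

lemma fderiv_S (h : g.Smooth) (p u : V4) : fderiv ℝ g.S p u =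
    om * (dz g.ph p.2.2 * u.2.2.1 + dt g.ph p.2.2 * u.2.2.2) * g.C p := by
  have hd : Differentiable ℝ g.ph := h.ph.differentiable (by simp)
  have hdq : DifferentiableAt ℝ (fun p : V4 => g.ph p.2.2) p :=
    (hd p.2.2).comp p prq.differentiableAt
  have h1 : HasFDerivAt g.S (cos (om * g.ph p.2.2) • (om • fderiv ℝ (fun p : V4 => g.ph p.2.2) p)) p :=
    (hdq.hasFDerivAt.const_mul om).sin
  rw [h1.fderiv]
  simp only [smul_apply, smul_eq_mul, fderiv_q hd]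
  unfold Geo.C
  ring

lemma fderiv_alpha (h : g.Smooth) (p u v : V4) : fderiv ℝ g.alpha p u v =
    fderiv ℝ g.C p u * v.1 + fderiv ℝ g.S p u * v.2.1 +
      fderiv ℝ (fun p : V4 => g.a p.2.2) p u * v.2.2.1 + fderiv ℝ g.b p u * v.2.2.2 := by
  have hC : DifferentiableAt ℝ g.C p := h.C.differentiable (by simp) p
  have hS : DifferentiableAt ℝ g.S p := h.S.differentiable (by simp) p
  have hb : DifferentiableAt ℝ g.b p := h.b.differentiable (by simp) p
  have ha : DifferentiableAt ℝ (fun p : V4 => g.a p.2.2) p :=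
    ((h.a.comp contDiff_q).differentiable (by simp)) p
  have h1 : HasFDerivAt g.alpha
      ((((fderiv ℝ g.C p).smulRight prx + (fderiv ℝ g.S p).smulRight pry) +
        (fderiv ℝ (fun p : V4 => g.a p.2.2) p).smulRight prz) + (fderiv ℝ g.b p).smulRight prt) p := by
    unfold Geo.alpha
    exact (((hC.hasFDerivAt.smul_const prx).add (hS.hasFDerivAt.smul_const pry)).add
      (ha.hasFDerivAt.smul_const prz)).add (hb.hasFDerivAt.smul_const prt)
  rw [h1.fderiv]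
  simp [prx_apply, pry_apply, prz_apply, prt_apply]

/-- explicit formula for `dα` -/
lemma dal_eq (h : g.Smooth) (p u v : V4) : g.dal p u v =
    om * ((dz g.ph p.2.2 * u.2.2.1 + dt g.ph p.2.2 * u.2.2.2) * (-g.S p * v.1 + g.C p * v.2.1) -
      (dz g.ph p.2.2 * v.2.2.1 + dt g.ph p.2.2 * v.2.2.2) * (-g.S p * u.1 + g.C p * u.2.1)) -
    dt g.a p.2.2 * (u.2.2.1 * v.2.2.2 - u.2.2.2 * v.2.2.1) +
    ((Dx g.b p * u.1 + Dy g.b p * u.2.1 + Dz g.b p * u.2.2.1) * v.2.2.2 -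
      (Dx g.b p * v.1 + Dy g.b p * v.2.1 + Dz g.b p * v.2.2.1) * u.2.2.2) := by
  unfold Geo.dal
  rw [fderiv_alpha h, fderiv_alpha h, fderiv_C h, fderiv_C h, fderiv_S h, fderiv_S h,
    fderiv_q (h.a.differentiable (by simp)), fderiv_q (h.a.differentiable (by simp)),
    fderiv_V4 g.b p u, fderiv_V4 g.b p v]
  ring

lemma om_ne : om ≠ 0 := by
  unfold om
  positivity

/-- `W` spans the kernel of `dα` on `ker α` -/
lemma dal_W (h : g.Smooth) (p v : V4) (hv : g.alpha p v = 0) : g.dal p (g.W p) v = 0 := by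
  rw [dal_eq h]
  rw [alpha_apply] at hv
  have hcs := g.C_sq_add_S_sq p
  have hom : om * om⁻¹ = 1 := mul_inv_cancel₀ om_ne
  simp only [Geo.W, Geo.emb, Geo.Wz, Geo.Wt, Geo.Ws, div_eq_mul_inv]
  set fz := dz g.ph p.2.2
  set ft := dt g.ph p.2.2
  set bx := Dx g.b p
  set by' := Dy g.b p
  set bz := Dz g.b p
  set at' := dt g.a p.2.2
  linear_combination ((bz - at' - g.a p.2.2 * (g.C p * bx + g.S p * by')) *
      (fz * v.2.2.1 + ft * v.2.2.2) + fz * (bx * v.1 + by' * v.2.1)) * hcs -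
    fz * (g.C p * bx + g.S p * by') * hv +
    (fz * (-g.S p * bx + g.C p * by') * (-g.S p * v.1 + g.C p * v.2.1) +
      (fz * v.2.2.1 + ft * v.2.2.2) * (bz - at' - g.a p.2.2 * (g.C p * bx + g.S p * by')) *
        (g.C p ^ 2 + g.S p ^ 2)) * hom

/-- `dα` on vectors of `ker α`, in terms of `W` -/
lemma dal_emb (h : g.Smooth) (u2 u3 u1 v2 v3 v1 : V4 → ℝ) (p : V4) :
    g.dal p (g.emb u2 u3 u1 p) (g.emb v2 v3 v1 p) =
      om * (g.Wt p * (u2 p * v1 p - u1 p * v2 p) - g.Wz p * (u3 p * v1 p - u1 p * v3 p) -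
        g.Ws p * (u2 p * v3 p - u3 p * v2 p)) := by
  rw [dal_eq h]
  have hcs := g.C_sq_add_S_sq p
  have hom : om * om⁻¹ = 1 := mul_inv_cancel₀ om_ne
  simp only [Geo.emb, Geo.Wz, Geo.Wt, Geo.Ws, div_eq_mul_inv]
  set fz := dz g.ph p.2.2
  set ft := dt g.ph p.2.2
  set bx := Dx g.b p
  set by' := Dy g.b p
  set bz := Dz g.b p
  set at' := dt g.a p.2.2
  linear_combination om * ((fz * u2 p + ft * u3 p) * v1 p - (fz * v2 p + ft * v3 p) * u1 p) * hcs -
    ((bz - at' - g.a p.2.2 * (g.C p * bx + g.S p * by')) * (u2 p * v3 p - u3 p * v2 p) -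
      (-g.S p * bx + g.C p * by') * (u3 p * v1 p - u1 p * v3 p)) * hom

end Geo

/-! ### the data of a parameter -/

namespace Par

variable (P : Par)

lemma fX_contDiff : ContDiff ℝ ∞ (fun p : V4 => P.fX p.1 p.2.1) := by
  unfold Par.fX
  fun_prop

lemma gY_contDiff : ContDiff ℝ ∞ (fun p : V4 => gY p.2.1) := by
  unfold gY
  fun_prop

lemma be_contDiff : ContDiff ℝ ∞ (fun p : V4 => P.be p.1) := by
  unfold Par.be
  fun_prop

lemma hh_contDiff : ContDiff ℝ ∞ P.hh := by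
  unfold Par.hh
  have h1 : ContDiff ℝ ∞ (fun p : V4 => chi2 p.2.2.2) := chi2_contDiff.comp (by fun_prop)
  have h2 : ContDiff ℝ ∞ (fun p : V4 => dmu p.2.2.2) := dmu_contDiff.comp (by fun_prop)
  have h3 : ContDiff ℝ ∞ (fun p : V4 => cos (om * p.2.2.1)) := by fun_prop
  have h4 : ContDiff ℝ ∞ (fun p : V4 => sin (om * p.2.2.1)) := by fun_prop
  exact (h1.mul ((P.fX_contDiff.mul h3).add (gY_contDiff.mul h4))).add
    ((h2.mul P.be_contDiff).mul h4)

lemma b_contDiff : ContDiff ℝ ∞ P.b := by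
  unfold Par.b
  exact (P.bP_contDiff.comp Geo.contDiff_q).sub P.hh_contDiff

lemma smooth : P.geo.Smooth := ⟨P.ph_contDiff, P.a_contDiff, P.b_contDiff⟩

lemma W_smooth : ContDiff ℝ ∞ P.W := P.smooth.W

end Par

end Pool.Agent.Helper53.Engel
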