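import Pool.Agent.Helper53.Engel.Geometry

/-!
# Local formulas for the field `W`
-/

set_option autoImplicit false

open Topology Real Filter
open scoped ContDiff

noncomputable section

namespace Pool.Agent.Helper53.Engel

/-- `p` is in the box around the (translated) centre of the `i`-th plug -/
def inPlug (P : Par) (i : Fin 3) (m n : ℤ) (p : V4) : Prop :=
  |p.2.2.1 - (P.cen i).1 - m| < 1 / 2 ∧ |p.2.2.2 - (P.cen i).2 - n| < 1 / 16

/-- formula of `W` in the `i`-th plug, in terms of the local coordinates `u` -/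
def plugW (c κ : ℝ) (u : R2) : V4 :=
  let s := rho u
  let wz := -(2 * u.1 * u.2 * deriv ff s / rr ^ 2)
  let wt := ff s + 2 * u.1 ^ 2 * deriv ff s / rr ^ 2
  let ws := u.2 / rr * deriv ff s - κ * (2 * ep * (u.1 / rr) * deriv GG s)
  let e := -(π * rr * (ff s - 1) * wz + κ * (2 * π * ep * rr * GG s) * wt)
  let φ := c + u.1 * ff s
  (e * cos (om * φ) - ws * sin (om * φ), e * sin (om * φ) + ws * cos (om * φ), wz, wt)

/-! ### partial derivatives of `b` -/

lemma hasDerivAt_fX_x (P : Par) (x y : ℝ) : HasDerivAt (fun x => P.fX x y) (fXx x y) x := by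
  unfold Par.fX fXx
  have h1 : HasDerivAt (fun x : ℝ => 2 * π * x) (2 * π) x := by
    simpa using (hasDerivAt_id x).const_mul (2 * π)
  have h2 := (((h1.sin.mul_const (cos (π * y) ^ 2)).div_const (2 * π)).add_const
    (√2 * sin (π * y) ^ 2)).add_const (P.sl * sin (2 * π * y) / (2 * π))
  refine h2.congr_deriv ?_
  field_simp

lemma hasDerivAt_fX_y (P : Par) (x y : ℝ) : HasDerivAt (fun y => P.fX x y) (P.fXy x y) y := by
  unfold Par.fX Par.fXy
  have h1 : HasDerivAt (fun y : ℝ => π * y) π y := by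
    simpa using (hasDerivAt_id y).const_mul π
  have h2 : HasDerivAt (fun y : ℝ => 2 * π * y) (2 * π) y := by
    simpa using (hasDerivAt_id y).const_mul (2 * π)
  have h3 := ((((h1.cos.pow 2).const_mul (sin (2 * π * x))).div_const (2 * π)).add
    ((h1.sin.pow 2).const_mul √2)).add ((h2.sin.const_mul P.sl).div_const (2 * π))
  refine h3.congr_deriv ?_
  have h4 : sin (2 * π * y) = 2 * sin (π * y) * cos (π * y) := by
    rw [← sin_two_mul]
    ring_nf
  rw [h4]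
  field_simp
  ring

lemma hasDerivAt_gY (y : ℝ) : HasDerivAt gY (gYy y) y := by
  unfold gY gYy
  have h2 : HasDerivAt (fun y : ℝ => 2 * π * y) (2 * π) y := by
    simpa using (hasDerivAt_id y).const_mul (2 * π)
  refine ((h2.sin.div_const (2 * π)).neg).congr_deriv ?_
  field_simp

lemma hasDerivAt_be (P : Par) (x : ℝ) : HasDerivAt P.be (P.bex x) x := by
  unfold Par.be Par.bex
  have h2 : HasDerivAt (fun x : ℝ => 4 * π * x) (4 * π) x := by
    simpa using (hasDerivAt_id x).const_mul (4 * π)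
  refine ((h2.sin.const_mul P.m1).div_const (4 * π)).congr_deriv ?_
  field_simp

lemma differentiableAt_b (P : Par) (p : V4) : DifferentiableAt ℝ P.b p :=
  P.b_contDiff.differentiable (by simp) p

lemma Dx_b (P : Par) (p : V4) : Dx P.b p =
    -(chi2 p.2.2.2 * (fXx p.1 p.2.1 * cos (om * p.2.2.1)) +
      dmu p.2.2.2 * P.bex p.1 * sin (om * p.2.2.1)) := by
  obtain ⟨x, y, z, t⟩ := p
  apply Dx_eq (differentiableAt_b P _)
  unfold Par.b Par.hh
  dsimp only
  have h1 := (((hasDerivAt_fX_x P x y).mul_const (cos (om * z))).add_const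
    (gY y * sin (om * z))).const_mul (chi2 t)
  have h2 := ((hasDerivAt_be P x).const_mul (dmu t)).mul_const (sin (om * z))
  exact ((h1.add h2).const_sub (P.bP (z, t)))

lemma Dy_b (P : Par) (p : V4) : Dy P.b p =
    -(chi2 p.2.2.2 * (P.fXy p.1 p.2.1 * cos (om * p.2.2.1) + gYy p.2.1 * sin (om * p.2.2.1))) := by
  obtain ⟨x, y, z, t⟩ := p
  apply Dy_eq (differentiableAt_b P _)
  unfold Par.b Par.hh
  dsimp only
  have h1 := (((hasDerivAt_fX_y P x y).mul_const (cos (om * z))).add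
    ((hasDerivAt_gY y).mul_const (sin (om * z)))).const_mul (chi2 t)
  have h2 := (h1.add_const (dmu t * P.be x * sin (om * z))).const_sub (P.bP (z, t))
  exact h2

lemma Dz_b (P : Par) (p : V4) : Dz P.b p = dz P.bP p.2.2 -
    om * (chi2 p.2.2.2 * (-P.fX p.1 p.2.1 * sin (om * p.2.2.1) + gY p.2.1 * cos (om * p.2.2.1)) +
      dmu p.2.2.2 * P.be p.1 * cos (om * p.2.2.1)) := by
  obtain ⟨x, y, z, t⟩ := p
  apply Dz_eq (differentiableAt_b P _)
  unfold Par.b Par.hh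
  dsimp only
  have h0 : HasDerivAt (fun z => P.bP (z, t)) (dz P.bP (z, t)) z := by
    have h1 : DifferentiableAt ℝ P.bP (z, t) := P.bP_contDiff.differentiable (by simp) _
    have hc : HasDerivAt (fun z : ℝ => (z, t)) ((1 : ℝ), (0 : ℝ)) z :=
      (hasDerivAt_id z).prodMk (hasDerivAt_const z t)
    exact h1.hasFDerivAt.comp_hasDerivAt z hc
  have h1 : HasDerivAt (fun z : ℝ => om * z) om z := by
    simpa using (hasDerivAt_id z).const_mul om
  have h2 := ((h1.cos.const_mul (P.fX x y)).add (h1.sin.const_mul (gY y))).const_mul (chi2 t)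
  have h3 := h1.sin.const_mul (dmu t * P.be x)
  refine (h0.sub (h2.add h3)).congr_deriv ?_
  ring

/-! ### quiet points -/

/-- near `q` no plug is active -/
def Quiet (P : Par) (q : R2) : Prop :=
  ∀ i, 1 / 25 < |nr (q.1 - (P.cen i).1)| ∨ 1 / 25 < |nr (q.2 - (P.cen i).2)|

lemma sum_quiet {P : Par} {q : R2} (h : Quiet P q) {g : R2 → ℝ} (hg : DiscSupp g)
    (w : Fin 3 → ℝ) : (fun q => ∑ i, w i * pe g (P.cen i) q) =ᶠ[𝓝 q] fun _ => 0 := by
  have h1 : ∀ᶠ q' in 𝓝 q, ∀ i, pe g (P.cen i) q' = 0 := by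
    rw [eventually_all]
    intro i
    exact pe_eventually_zero hg (h i)
  filter_upwards [h1] with q' hq'
  simp [hq']

lemma sum_quiet' {P : Par} {q : R2} (h : Quiet P q) {g : R2 → ℝ} (hg : DiscSupp g) :
    (fun q => ∑ i, pe g (P.cen i) q) =ᶠ[𝓝 q] fun _ => 0 := by
  have := sum_quiet h hg (fun _ => 1)
  simpa using this

lemma Quiet.ph {P : Par} {q : R2} (h : Quiet P q) : P.ph =ᶠ[𝓝 q] fun q => q.1 := by
  filter_upwards [sum_quiet' h gph_supp] with q' hq'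
  unfold Par.ph
  rw [hq', add_zero]

lemma Quiet.a {P : Par} {q : R2} (h : Quiet P q) : P.a =ᶠ[𝓝 q] fun _ => 0 :=
  sum_quiet' h ga_supp

lemma Quiet.bP {P : Par} {q : R2} (h : Quiet P q) : P.bP =ᶠ[𝓝 q] fun _ => 0 :=
  sum_quiet h gb_supp _

lemma dz_congr {f g : R2 → ℝ} {q : R2} (h : f =ᶠ[𝓝 q] g) : dz f q = dz g q := by
  unfold dz
  rw [h.fderiv_eq]

lemma dt_congr {f g : R2 → ℝ} {q : R2} (h : f =ᶠ[𝓝 q] g) : dt f q = dt g q := by
  unfold dt
  rw [h.fderiv_eq]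

lemma dz_const (q : R2) (k : ℝ) : dz (fun _ => k) q = 0 := by
  unfold dz
  simp

lemma dt_const (q : R2) (k : ℝ) : dt (fun _ => k) q = 0 := by
  unfold dt
  simp

lemma dz_fst (q : R2) : dz (fun q => q.1) q = 1 := by
  obtain ⟨z, t⟩ := q
  exact dz_eq differentiableAt_fst (hasDerivAt_id z)

lemma dt_fst (q : R2) : dt (fun q => q.1) q = 0 := by
  obtain ⟨z, t⟩ := q
  exact dt_eq differentiableAt_fst (hasDerivAt_const t z)

/-- `W` at quiet points -/
lemma W_quiet (P : Par) (p : V4) (h : Quiet P p.2.2) :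
    P.W p = (chi2 p.2.2.2 * P.fX p.1 p.2.1, chi2 p.2.2.2 * gY p.2.1 + dmu p.2.2.2 * P.be p.1,
      P.zdot p.2.2.2 p.1 p.2.1 p.2.2.1, 1) := by
  have e1 : P.ph p.2.2 = p.2.2.1 := h.ph.self_of_nhds
  have e2 : P.a p.2.2 = 0 := h.a.self_of_nhds
  have e3 : P.bP p.2.2 = 0 := h.bP.self_of_nhds
  have e4 : dz P.ph p.2.2 = 1 := by rw [dz_congr h.ph, dz_fst]
  have e5 : dt P.ph p.2.2 = 0 := by rw [dt_congr h.ph, dt_fst]
  have e6 : dt P.a p.2.2 = 0 := by rw [dt_congr h.a, dt_const]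
  have e7 : dz P.bP p.2.2 = 0 := by rw [dz_congr h.bP, dz_const]
  have hom := Geo.om_ne
  have hcs : cos (om * p.2.2.1) ^ 2 + sin (om * p.2.2.1) ^ 2 = 1 := cos_sq_add_sin_sq _
  have eb : P.b p = -P.hh p := by unfold Par.b; rw [e3]; ring
  have hz : P.geo.Wz p = P.zdot p.2.2.2 p.1 p.2.1 p.2.2.1 := by
    unfold Geo.Wz Geo.C Geo.S Par.geo
    dsimp only
    rw [e1, e5, Dx_b, Dy_b]
    unfold Par.zdot
    field_simp
    ring
  have ht : P.geo.Wt p = 1 := e4
  have hs : P.geo.Ws p = chi2 p.2.2.2 * (-P.fX p.1 p.2.1 * sin (om * p.2.2.1) +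
      gY p.2.1 * cos (om * p.2.2.1)) + dmu p.2.2.2 * P.be p.1 * cos (om * p.2.2.1) := by
    unfold Geo.Ws Geo.C Geo.S Par.geo
    dsimp only
    rw [e2, e6, Dz_b, e7]
    field_simp
    ring
  unfold Par.W Geo.W Geo.emb
  have eC : P.geo.C p = cos (om * p.2.2.1) := by unfold Geo.C Par.geo; dsimp only; rw [e1]
  have eS : P.geo.S p = sin (om * p.2.2.1) := by unfold Geo.S Par.geo; dsimp only; rw [e1]
  have ea : P.geo.a p.2.2 = 0 := e2
  have eb' : P.geo.b p = -P.hh p := eb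
  rw [hs, ht, hz, eC, eS, ea, eb']
  unfold Par.hh
  refine Prod.ext ?_ (Prod.ext ?_ rfl)
  · dsimp only
    linear_combination (chi2 p.2.2.2 * P.fX p.1 p.2.1) * hcs
  · dsimp only
    linear_combination (chi2 p.2.2.2 * gY p.2.1 + dmu p.2.2.2 * P.be p.1) * hcs

lemma cen_snd (P : Par) (i : Fin 3) : (P.cen i).2 = ((i : ℕ) + 1 : ℝ) / 8 := by
  fin_cases i
  · simp [Par.cen]
  · simp [Par.cen]
    norm_num
  · simp [Par.cen]
    norm_num

lemma cen_snd_mem (P : Par) (i : Fin 3) : 1 / 8 ≤ (P.cen i).2 ∧ (P.cen i).2 ≤ 3 / 8 := by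
  fin_cases i <;> simp [Par.cen] <;> norm_num

lemma quiet_of_base {P : Par} {q : R2} {j : ℤ} (h : q.2 ∈ Set.Icc (j + 1 / 2 : ℝ) (j + 1)) :
    Quiet P q := by
  intro i
  right
  obtain ⟨h1, h2⟩ := cen_snd_mem P i
  obtain ⟨n, hn⟩ := nr_exists (q.2 - (P.cen i).2)
  rw [hn]
  rcases le_or_gt n j with h3 | h3
  · have h4 : (n : ℝ) ≤ j := by exact_mod_cast h3
    rw [lt_abs]
    left
    linarith [h.1]
  · have h4 : (j : ℝ) + 1 ≤ n := by exact_mod_cast h3
    rw [lt_abs]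
    right
    linarith [h.2]

theorem W_base (P : Par) (j : ℤ) (p : V4) (h : p.2.2.2 ∈ Set.Icc (j + 1 / 2 : ℝ) (j + 1)) :
    P.W p = (chi2 p.2.2.2 * P.fX p.1 p.2.1, chi2 p.2.2.2 * gY p.2.1 + dmu p.2.2.2 * P.be p.1,
      P.zdot p.2.2.2 p.1 p.2.1 p.2.2.1, 1) :=
  W_quiet P p (quiet_of_base h)

/-! ### in a plug -/

lemma quiet_other {P : Par} {i j : Fin 3} (hij : j ≠ i) {n : ℤ} {q : R2}
    (h : |q.2 - (P.cen i).2 - n| < 1 / 16) : 1 / 25 < |nr (q.2 - (P.cen j).2)| := by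
  have h1 : 1 / 8 ≤ |(P.cen i).2 - (P.cen j).2| ∧ |(P.cen i).2 - (P.cen j).2| ≤ 1 / 4 := by
    fin_cases i <;> fin_cases j <;> first | (exfalso; exact hij rfl) | (simp [Par.cen]; norm_num [abs_of_pos, abs_of_neg])
  have h2 : |q.2 - (P.cen j).2 - n| < 1 / 2 := by
    calc |q.2 - (P.cen j).2 - n| = |(q.2 - (P.cen i).2 - n) + ((P.cen i).2 - (P.cen j).2)| := by
          ring_nf
      _ ≤ |q.2 - (P.cen i).2 - n| + |(P.cen i).2 - (P.cen j).2| := abs_add_le _ _
      _ < 1 / 2 := by linarith [h1.2]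
  rw [nr_eq h2]
  have h3 : |(P.cen i).2 - (P.cen j).2| ≤ |q.2 - (P.cen j).2 - n| + |q.2 - (P.cen i).2 - n| := by
    calc |(P.cen i).2 - (P.cen j).2| = |(q.2 - (P.cen j).2 - n) - (q.2 - (P.cen i).2 - n)| := by
          ring_nf
      _ ≤ _ := abs_sub _ _
  linarith [h1.1]

lemma sum_plug {P : Par} {i : Fin 3} {m n : ℤ} {q : R2} (h1 : |q.1 - (P.cen i).1 - m| < 1 / 2)
    (h2 : |q.2 - (P.cen i).2 - n| < 1 / 16) {g : R2 → ℝ} (hg : DiscSupp g) (w : Fin 3 → ℝ) :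
    (fun q => ∑ i, w i * pe g (P.cen i) q) =ᶠ[𝓝 q]
      fun q' => w i * g (q'.1 - (P.cen i).1 - m, q'.2 - (P.cen i).2 - n) := by
  have e1 : ∀ᶠ q' in 𝓝 q, ∀ j, j ≠ i → pe g (P.cen j) q' = 0 := by
    rw [eventually_all]
    intro j
    by_cases hj : j = i
    · simp [hj]
    · filter_upwards [pe_eventually_zero hg (Or.inr (quiet_other hj h2))] with q' hq' _
      exact hq'
  have e2 := pe_eventuallyEq g h1 (lt_trans h2 (by norm_num))
  filter_upwards [e1, e2] with q' h1' h2'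
  rw [Finset.sum_eq_single i]
  · rw [h2']
  · intro j _ hj
    rw [h1' j hj, mul_zero]
  · simp

lemma sum_plug' {P : Par} {i : Fin 3} {m n : ℤ} {q : R2} (h1 : |q.1 - (P.cen i).1 - m| < 1 / 2)
    (h2 : |q.2 - (P.cen i).2 - n| < 1 / 16) {g : R2 → ℝ} (hg : DiscSupp g) :
    (fun q => ∑ i, pe g (P.cen i) q) =ᶠ[𝓝 q]
      fun q' => g (q'.1 - (P.cen i).1 - m, q'.2 - (P.cen i).2 - n) := by
  have := sum_plug h1 h2 hg (fun _ => 1)
  simpa using this

lemma hasDerivAt_rho_1 (u1 u2 : ℝ) : HasDerivAt (fun u1 => rho (u1, u2)) (2 * u1 / rr ^ 2) u1 := by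
  unfold rho
  have h := ((((hasDerivAt_id u1).pow 2).add_const (u2 ^ 2)).div_const (rr ^ 2))
  refine h.congr_deriv ?_
  simp

lemma hasDerivAt_rho_2 (u1 u2 : ℝ) : HasDerivAt (fun u2 => rho (u1, u2)) (2 * u2 / rr ^ 2) u2 := by
  unfold rho
  have h := ((((hasDerivAt_id u2).pow 2).const_add (u1 ^ 2)).div_const (rr ^ 2))
  refine h.congr_deriv ?_
  simp

lemma hasDerivAt_comp_rho_1 {F : ℝ → ℝ} (hF : Differentiable ℝ F) (u1 u2 : ℝ) :
    HasDerivAt (fun u1 => F (rho (u1, u2))) (deriv F (rho (u1, u2)) * (2 * u1 / rr ^ 2)) u1 :=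
  (hF _).hasDerivAt.comp u1 (hasDerivAt_rho_1 u1 u2)

lemma hasDerivAt_comp_rho_2 {F : ℝ → ℝ} (hF : Differentiable ℝ F) (u1 u2 : ℝ) :
    HasDerivAt (fun u2 => F (rho (u1, u2))) (deriv F (rho (u1, u2)) * (2 * u2 / rr ^ 2)) u2 :=
  (hF _).hasDerivAt.comp u2 (hasDerivAt_rho_2 u1 u2)

/-- translation of local coordinates -/
lemma dz_translate {g : R2 → ℝ} (hg : Differentiable ℝ g) (c : R2) (m n : ℤ) (q : R2) :
    dz (fun q : R2 => g (q.1 - c.1 - m, q.2 - c.2 - n)) q = dz g (q.1 - c.1 - m, q.2 - c.2 - n) := by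
  obtain ⟨z, t⟩ := q
  have hd : Differentiable ℝ (fun q : R2 => g (q.1 - c.1 - m, q.2 - c.2 - n)) := by
    apply hg.comp
    fun_prop
  apply dz_eq (hd _)
  dsimp only
  have hc : HasDerivAt (fun z : ℝ => (z - c.1 - m, t - c.2 - n)) ((1 : ℝ), (0 : ℝ)) z :=
    (((hasDerivAt_id z).sub_const c.1).sub_const (m : ℝ)).prodMk (hasDerivAt_const z _)
  exact (hg _).hasFDerivAt.comp_hasDerivAt z hc

lemma dt_translate {g : R2 → ℝ} (hg : Differentiable ℝ g) (c : R2) (m n : ℤ) (q : R2) :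
    dt (fun q : R2 => g (q.1 - c.1 - m, q.2 - c.2 - n)) q = dt g (q.1 - c.1 - m, q.2 - c.2 - n) := by
  obtain ⟨z, t⟩ := q
  have hd : Differentiable ℝ (fun q : R2 => g (q.1 - c.1 - m, q.2 - c.2 - n)) := by
    apply hg.comp
    fun_prop
  apply dt_eq (hd _)
  dsimp only
  have hc : HasDerivAt (fun t : ℝ => (z - c.1 - m, t - c.2 - n)) ((0 : ℝ), (1 : ℝ)) t :=
    (hasDerivAt_const t _).prodMk (((hasDerivAt_id t).sub_const c.2).sub_const (n : ℝ))
  exact (hg _).hasFDerivAt.comp_hasDerivAt t hc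

lemma gph_diff : Differentiable ℝ gph := gph_contDiff.differentiable (by simp)
lemma ga_diff : Differentiable ℝ ga := ga_contDiff.differentiable (by simp)
lemma gb_diff : Differentiable ℝ gb := gb_contDiff.differentiable (by simp)

lemma GG_differentiable : Differentiable ℝ GG := GG_contDiff.differentiable (by simp)

lemma dz_gph (u : R2) : dz gph u = ff (rho u) - 1 + 2 * u.1 ^ 2 * deriv ff (rho u) / rr ^ 2 := by
  obtain ⟨u1, u2⟩ := u
  apply dz_eq (gph_diff _)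
  unfold gph
  dsimp only
  refine ((hasDerivAt_id u1).mul ((hasDerivAt_comp_rho_1 ff_differentiable u1 u2).sub_const 1)).congr_deriv ?_
  simp only [id]
  ring

lemma dt_gph (u : R2) : dt gph u = 2 * u.1 * u.2 * deriv ff (rho u) / rr ^ 2 := by
  obtain ⟨u1, u2⟩ := u
  apply dt_eq (gph_diff _)
  unfold gph
  dsimp only
  refine (((hasDerivAt_comp_rho_2 ff_differentiable u1 u2).sub_const 1).const_mul u1).congr_deriv ?_
  ring

lemma dt_ga (u : R2) : dt ga u = 2 * π * (u.2 / rr) * deriv ff (rho u) := by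
  obtain ⟨u1, u2⟩ := u
  apply dt_eq (ga_diff _)
  unfold ga
  dsimp only
  refine (((hasDerivAt_comp_rho_2 ff_differentiable u1 u2).sub_const 1).const_mul (π * rr)).congr_deriv ?_
  have : rr ≠ 0 := by unfold rr; norm_num
  field_simp

lemma dz_gb (u : R2) : dz gb u = 4 * π * ep * (u.1 / rr) * deriv GG (rho u) := by
  obtain ⟨u1, u2⟩ := u
  apply dz_eq (gb_diff _)
  unfold gb
  dsimp only
  refine ((hasDerivAt_comp_rho_1 GG_differentiable u1 u2).const_mul (2 * π * ep * rr)).congr_deriv ?_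
  have : rr ≠ 0 := by unfold rr; norm_num
  field_simp
  ring

lemma plug_slot {P : Par} {i : Fin 3} {n : ℤ} {t : ℝ} (h : |t - (P.cen i).2 - n| < 1 / 16) :
    t ∈ Set.Icc (n : ℝ) (n + 1 / 2) := by
  obtain ⟨h1, h2⟩ := cen_snd_mem P i
  rw [abs_lt] at h
  constructor <;> linarith [h.1, h.2]

lemma cos_om_add_int (x : ℝ) (m : ℤ) : cos (om * (x + m)) = cos (om * x) := by
  have : om * (x + m) = om * x + m * (2 * π) := by unfold om; ring
  rw [this, cos_add_int_mul_two_pi]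

lemma sin_om_add_int (x : ℝ) (m : ℤ) : sin (om * (x + m)) = sin (om * x) := by
  have : om * (x + m) = om * x + m * (2 * π) := by unfold om; ring
  rw [this, sin_add_int_mul_two_pi]

section plug

variable {P : Par} {i : Fin 3} {m n : ℤ} {p : V4}

lemma plug_ph (h : inPlug P i m n p) : P.ph =ᶠ[𝓝 p.2.2]
    fun q => q.1 + gph (q.1 - (P.cen i).1 - m, q.2 - (P.cen i).2 - n) := by
  filter_upwards [sum_plug' h.1 h.2 gph_supp] with q' hq'
  unfold Par.ph
  rw [hq']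

lemma plug_a (h : inPlug P i m n p) : P.a =ᶠ[𝓝 p.2.2]
    fun q => ga (q.1 - (P.cen i).1 - m, q.2 - (P.cen i).2 - n) := sum_plug' h.1 h.2 ga_supp

lemma plug_bP (h : inPlug P i m n p) : P.bP =ᶠ[𝓝 p.2.2]
    fun q => P.kap i * gb (q.1 - (P.cen i).1 - m, q.2 - (P.cen i).2 - n) :=
  sum_plug h.1 h.2 gb_supp P.kap

lemma dz_add' {f g : R2 → ℝ} (hf : Differentiable ℝ f) (hg : Differentiable ℝ g) (q : R2) :
    dz (fun q => f q + g q) q = dz f q + dz g q := by
  unfold dz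
  rw [fderiv_fun_add (hf q) (hg q)]
  rfl

lemma dt_add' {f g : R2 → ℝ} (hf : Differentiable ℝ f) (hg : Differentiable ℝ g) (q : R2) :
    dt (fun q => f q + g q) q = dt f q + dt g q := by
  unfold dt
  rw [fderiv_fun_add (hf q) (hg q)]
  rfl

lemma translate_diff {g : R2 → ℝ} (hg : Differentiable ℝ g) (c : R2) (m n : ℤ) :
    Differentiable ℝ (fun q : R2 => g (q.1 - c.1 - m, q.2 - c.2 - n)) := by
  apply hg.comp
  fun_prop

lemma plug_dz_ph (h : inPlug P i m n p) {u : R2}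
    (hu : u = (p.2.2.1 - (P.cen i).1 - m, p.2.2.2 - (P.cen i).2 - n)) :
    dz P.ph p.2.2 = ff (rho u) + 2 * u.1 ^ 2 * deriv ff (rho u) / rr ^ 2 := by
  rw [dz_congr (plug_ph h), dz_add' differentiable_fst (translate_diff gph_diff _ _ _), dz_fst,
    dz_translate gph_diff, ← hu, dz_gph]
  ring

lemma plug_dt_ph (h : inPlug P i m n p) {u : R2}
    (hu : u = (p.2.2.1 - (P.cen i).1 - m, p.2.2.2 - (P.cen i).2 - n)) :
    dt P.ph p.2.2 = 2 * u.1 * u.2 * deriv ff (rho u) / rr ^ 2 := by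
  rw [dt_congr (plug_ph h), dt_add' differentiable_fst (translate_diff gph_diff _ _ _), dt_fst,
    dt_translate gph_diff, ← hu, dt_gph]
  ring

lemma plug_dt_a (h : inPlug P i m n p) {u : R2}
    (hu : u = (p.2.2.1 - (P.cen i).1 - m, p.2.2.2 - (P.cen i).2 - n)) :
    dt P.a p.2.2 = 2 * π * (u.2 / rr) * deriv ff (rho u) := by
  rw [dt_congr (plug_a h), dt_translate ga_diff, ← hu, dt_ga]

lemma plug_dz_bP (h : inPlug P i m n p) {u : R2}
    (hu : u = (p.2.2.1 - (P.cen i).1 - m, p.2.2.2 - (P.cen i).2 - n)) :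
    dz P.bP p.2.2 = P.kap i * (4 * π * ep * (u.1 / rr) * deriv GG (rho u)) := by
  have h1 : dz (fun q : R2 => P.kap i * gb (q.1 - (P.cen i).1 - m, q.2 - (P.cen i).2 - n)) p.2.2 =
      P.kap i * dz (fun q : R2 => gb (q.1 - (P.cen i).1 - m, q.2 - (P.cen i).2 - n)) p.2.2 := by
    unfold dz
    rw [fderiv_const_mul (translate_diff gb_diff _ _ _ _)]
    rfl
  rw [dz_congr (plug_bP h), h1, dz_translate gb_diff, ← hu, dz_gb]

theorem W_plug (P : Par) (i : Fin 3) (m n : ℤ) (p : V4) (h : inPlug P i m n p) :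
    P.W p = plugW (P.cen i).1 (P.kap i)
      (p.2.2.1 - (P.cen i).1 - m, p.2.2.2 - (P.cen i).2 - n) := by
  obtain ⟨u, hu⟩ : ∃ u : R2, u = (p.2.2.1 - (P.cen i).1 - m, p.2.2.2 - (P.cen i).2 - n) := ⟨_, rfl⟩
  rw [← hu]
  have hslot := plug_slot h.2
  have hc2 : chi2 p.2.2.2 = 0 := chi2_slot hslot
  have hdm : dmu p.2.2.2 = 0 := dmu_slot hslot
  have e1 : P.ph p.2.2 = (P.cen i).1 + u.1 * ff (rho u) + m := by
    rw [(plug_ph h).self_of_nhds]
    dsimp only
    rw [← hu]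
    unfold gph
    have : p.2.2.1 = u.1 + (P.cen i).1 + m := by rw [hu]; ring
    rw [this]
    ring
  have e2 : P.a p.2.2 = π * rr * (ff (rho u) - 1) := by
    rw [(plug_a h).self_of_nhds]
    dsimp only
    rw [← hu]
    rfl
  have e3 : P.b p = P.kap i * (2 * π * ep * rr * GG (rho u)) := by
    unfold Par.b Par.hh
    rw [(plug_bP h).self_of_nhds]
    dsimp only
    rw [← hu, hc2, hdm]
    unfold gb
    ring
  have dx0 : Dx P.b p = 0 := by rw [Dx_b, hc2, hdm]; ring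
  have dy0 : Dy P.b p = 0 := by rw [Dy_b, hc2]; ring
  have dz0 : Dz P.b p = P.kap i * (4 * π * ep * (u.1 / rr) * deriv GG (rho u)) := by
    rw [Dz_b, hc2, hdm, plug_dz_bP h hu]
    ring
  have hz : P.geo.Wz p = -(2 * u.1 * u.2 * deriv ff (rho u) / rr ^ 2) := by
    unfold Geo.Wz Par.geo
    dsimp only
    rw [plug_dt_ph h hu, dx0, dy0]
    simp
  have ht : P.geo.Wt p = ff (rho u) + 2 * u.1 ^ 2 * deriv ff (rho u) / rr ^ 2 := plug_dz_ph h hu
  have hs : P.geo.Ws p = u.2 / rr * deriv ff (rho u) -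
      P.kap i * (2 * ep * (u.1 / rr) * deriv GG (rho u)) := by
    unfold Geo.Ws Par.geo
    dsimp only
    rw [plug_dt_a h hu, dx0, dy0, dz0]
    have : π ≠ 0 := pi_ne_zero
    unfold om
    field_simp
    ring
  have eC : P.geo.C p = cos (om * ((P.cen i).1 + u.1 * ff (rho u))) := by
    unfold Geo.C Par.geo
    dsimp only
    rw [e1, cos_om_add_int]
  have eS : P.geo.S p = sin (om * ((P.cen i).1 + u.1 * ff (rho u))) := by
    unfold Geo.S Par.geo
    dsimp only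
    rw [e1, sin_om_add_int]
  have ea : P.geo.a p.2.2 = π * rr * (ff (rho u) - 1) := e2
  have eb : P.geo.b p = P.kap i * (2 * π * ep * rr * GG (rho u)) := e3
  unfold Par.W Geo.W Geo.emb
  rw [hs, ht, hz, eC, eS, ea, eb]
  rfl

end plug

lemma quiet_or_plug (P : Par) (p : V4) :
    Quiet P p.2.2 ∨ ∃ i m n, inPlug P i m n p := by
  by_cases h : Quiet P p.2.2
  · exact Or.inl h
  · right
    unfold Quiet at h
    push Not at h
    obtain ⟨i, h1, h2⟩ := h
    obtain ⟨m, hm⟩ := nr_exists (p.2.2.1 - (P.cen i).1)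
    obtain ⟨n, hn⟩ := nr_exists (p.2.2.2 - (P.cen i).2)
    rw [hm] at h1
    rw [hn] at h2
    exact ⟨i, m, n, lt_of_le_of_lt h1 (by norm_num), lt_of_le_of_lt h2 (by norm_num)⟩

theorem W_free (P : Par) (j : ℤ) (p : V4) (h : p.2.2.2 ∈ Set.Icc (j : ℝ) (j + 1 / 2))
    (h' : ∀ (i : Fin 3) (m n : ℤ),
      2 * rr ^ 2 ≤ (p.2.2.1 - (P.cen i).1 - m) ^ 2 + (p.2.2.2 - (P.cen i).2 - n) ^ 2) :
    P.W p = (0, 0, 0, 1) := by
  rcases quiet_or_plug P p with hq | ⟨i, m, n, hp⟩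
  · rw [W_quiet P p hq]
    unfold Par.zdot
    rw [chi2_slot h, dmu_slot h]
    simp
  · rw [W_plug P i m n p hp]
    have h2 : 2 ≤ rho (p.2.2.1 - (P.cen i).1 - m, p.2.2.2 - (P.cen i).2 - n) := by
      unfold rho
      rw [le_div_iff₀ (by unfold rr; norm_num)]
      exact h' i m n
    unfold plugW
    dsimp only
    rw [deriv_ff_out _ h2, ff_out _ h2, GG_out _ (by linarith), deriv_GG_out _ (by linarith)]
    simp

theorem FF_plug (P : Par) (i : Fin 3) (m n : ℤ) (p : V4) (h : inPlug P i m n p) :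
    P.FF i p.2.2 = ff (rho (p.2.2.1 - (P.cen i).1 - m, p.2.2.2 - (P.cen i).2 - n)) := by
  unfold Par.FF
  rw [pe_eq gf h.1 (lt_trans h.2 (by norm_num))]
  unfold gf
  ring

theorem FF_out (P : Par) (i : Fin 3) (q : R2)
    (h' : ∀ (m n : ℤ), 2 * rr ^ 2 ≤ (q.1 - (P.cen i).1 - m) ^ 2 + (q.2 - (P.cen i).2 - n) ^ 2) :
    P.FF i q = 1 := by
  unfold Par.FF pe
  obtain ⟨m, hm⟩ := nr_exists (q.1 - (P.cen i).1)
  obtain ⟨n, hn⟩ := nr_exists (q.2 - (P.cen i).2)
  rw [hm, hn, gf_supp]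
  · ring
  · unfold rho
    rw [le_div_iff₀ (by unfold rr; norm_num)]
    exact h' m n

end Pool.Agent.Helper53.Engel
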