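import Pool.Agent.Helper53.Engel.Positive
import Pool.Agent.Helper79.Engel.Criterion
import Pool.Agent.Helper79.Engel.Variation
import Pool.Agent.Helper30.Engel.CorePos
import Pool.Agent.Helper30.Engel.OrbitOfCurve
import Pool.Agent.Helper37.Engel.Generic
import Pool.Agent.Helper48.EngelJ
import Pool.Agent.Helper79.Engel.Trapped
import Pool.Agent.Helper28.Engel.ClosedOrbit
import Pool.Agent.Helper81.EngelK

/-!
# Assembly: the Engel structure with exactly one closed leaf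
-/

set_option autoImplicit false

open Topology Real Filter
open scoped ContDiff

noncomputable section

namespace Pool.Agent.Helper53.Engel

/-! ### assembly -/

/-- uniqueness of orbits of `W` -/
lemma orbit_unique (P : Par) {γ c : ℝ → V4} (hγ : ∀ s, HasDerivAt γ (P.W (γ s)) s)
    (hc : ∀ s, HasDerivAt c (P.W (c s)) s) {s0 : ℝ} (h : γ s0 = c s0) : γ = c := by
  obtain ⟨K, hK⟩ := W_lipschitz P
  exact ODE_solution_unique_univ (v := fun _ => P.W) (s := fun _ => Set.univ) (K := K)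
    (fun _ => hK.lipschitzOnWith) (fun t => ⟨hγ t, Set.mem_univ _⟩)
    (fun t => ⟨hc t, Set.mem_univ _⟩) h

lemma kept_closedLeaf (P : Par) (hP : P.Good) :
    IsClosedLeaf P.LW {p | ∃ s, ∃ n ∈ Lat, p = P.kept s + n} := by
  obtain ⟨h1, h2, -⟩ := kept_orbit P hP
  have hd : deriv P.kept = fun s => P.W (P.kept s) := funext fun s => (h1 s).deriv
  have hk : Continuous P.kept := continuous_iff_continuousAt.2 fun s => (h1 s).continuousAt
  refine ⟨P.kept, 1, ⟨one_pos, fun s => (h1 s).differentiableAt, ?_, ?_, ?_, ?_⟩, rfl⟩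
  · rw [hd]
    exact P.W_smooth.continuous.comp hk
  · intro s
    rw [hd]
    exact W_ne_zero P hP.hk0 hP.hk1 _
  · intro s
    rw [hd]
    exact Submodule.mem_span_singleton_self _
  · exact ⟨(0, 0, 0, 1), ⟨0, 0, 0, 1, by simp⟩, h2⟩

lemma closedLeaf_unique (P : Par) (hP : P.Good) (L : Set V4) (hL : IsClosedLeaf P.LW L) :
    L = {p | ∃ s, ∃ n ∈ Lat, p = P.kept s + n} := by
  obtain ⟨γ, T, hγ, rfl⟩ := hL
  obtain ⟨c, T', n, hT', hn, hc, hper, hrange⟩ := exists_orbit_of_closedCurve P.W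
    P.W_smooth.continuous (W_ne_zero P hP.hk0 hP.hk1) (W_periodic P) γ T hγ
  have hFF := FF_pos P hP c hc T' hT' n hn hper
  obtain ⟨x, y, z, N, a, b, c', hN, hx, hy, hz, cx, cy, cz, px, py, pz, hne, s0, hs0⟩ :=
    closed_orbit P hP c hc T' hT' n hn hper hFF
  have hbase := base_periodic P hP.hz0 hP.hz1 x y z N hN a b c' hx hy hz cx cy cz px py pz
  have n0 : ∀ l : ℤ, z (1 / 2) ≠ P.z1 + l := hne 0
  have n1 : ∀ l : ℤ, z (1 / 2) ≠ P.z1 + 1 / 2 + l := hne 1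
  have n2 : ∀ l : ℤ, z (1 / 2) ≠ P.z0 + 1 / 2 + l := hne 2
  obtain ⟨m, n', l, e1, e2, e3⟩ : ∃ m n l : ℤ, x (1 / 2) = m ∧ y (1 / 2) = n ∧ z (1 / 2) = P.z0 + l := by
    rcases hbase with ⟨m, n', l, e1, e2, e3 | e3 | e3 | e3⟩ | ⟨m, n', l, e1, e2, e3 | e3⟩
    · exact ⟨m, n', l, e1, e2, e3⟩
    · exact absurd e3 (n2 l)
    · exact absurd e3 (n0 l)
    · exact absurd e3 (n1 l)
    · exact absurd e3 (n0 l)
    · exact absurd e3 (n1 l)
  obtain ⟨k1, k2, k3⟩ := kept_orbit P hP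
  -- `c` is a translate of `kept`
  have hlat : (((m : ℝ), (n' : ℝ), (l : ℝ), (0 : ℝ)) : V4) ∈ Lat := ⟨m, n', l, 0, by simp⟩
  obtain ⟨ν, hν⟩ : ∃ ν : V4, ν = ((m : ℝ), (n' : ℝ), (l : ℝ), (0 : ℝ)) := ⟨_, rfl⟩
  rw [← hν] at hlat
  have hk' : ∀ s, HasDerivAt (fun s => P.kept (s + (1 / 2 - s0)) + ν)
      (P.W (P.kept (s + (1 / 2 - s0)) + ν)) s := by
    intro s
    rw [W_periodic P _ ν hlat]
    exact ((k1 (s + (1 / 2 - s0))).comp_add_const s (1 / 2 - s0)).add_const ν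
  have hstart : c s0 = P.kept (s0 + (1 / 2 - s0)) + ν := by
    have : s0 + (1 / 2 - s0) = 1 / 2 := by ring
    rw [this, k3, hs0, e1, e2, e3, hν]
    simp
  have hcc : c = fun s => P.kept (s + (1 / 2 - s0)) + ν := orbit_unique P hc hk' hstart
  ext p
  constructor
  · rintro ⟨s, n1, hn1, rfl⟩
    have : γ s ∈ Set.range c := by rw [hrange]; exact ⟨s, rfl⟩
    obtain ⟨s', hs'⟩ := this
    refine ⟨s' + (1 / 2 - s0), ν + n1, add_mem_Lat hlat hn1, ?_⟩
    rw [← hs', hcc]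
    dsimp only
    rw [add_assoc]
  · rintro ⟨s, n1, hn1, rfl⟩
    have : c (s - (1 / 2 - s0)) ∈ Set.range γ := by rw [← hrange]; exact ⟨_, rfl⟩
    obtain ⟨s', hs'⟩ := this
    refine ⟨s', -ν + n1, add_mem_Lat (neg_mem_Lat hlat) hn1, ?_⟩
    rw [hs', hcc]
    have : s - (1 / 2 - s0) + (1 / 2 - s0) = s := by ring
    dsimp only
    rw [this]
    abel

theorem main : ∃ D W : V4 → Submodule ℝ V4, IsEngel D ∧ IsCharacteristic D W ∧
    ∃ L, IsClosedLeaf W L ∧ (∀ L', IsClosedLeaf W L' → L' = L) ∧ IsNondegenerate W L := by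
  obtain ⟨κs, hκs, hcore⟩ := core_pos
  obtain ⟨z0, k0, hz0, hk0, hk0', gen0⟩ := exists_generic (1 / 8) (1 / 100) κs (by norm_num) hκs
  obtain ⟨z1, k1, hz1, hk1, hk1', gen1⟩ := exists_generic (1 / 4) (1 / 100) κs (by norm_num) hκs
  obtain ⟨P, rfl, rfl, rfl, rfl⟩ : ∃ P : Par, P.z0 = z0 ∧ P.z1 = z1 ∧ P.k0 = k0 ∧ P.k1 = k1 :=
    ⟨⟨z0, z1, k0, k1⟩, rfl, rfl, rfl, rfl⟩
  have hP : P.Good := ⟨hz0, hz1, hk0, hk1, gen0, gen1⟩
  obtain ⟨lam, k, hQ⟩ := engel_pos P κs hcore hk0 hk0'.le hk1 hk1'.le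
  have hE := engel_criterion P.geo.alpha P.W (P.X lam k) P.smooth.alpha P.W_smooth
    (P.X_smooth lam k) P.alpha_periodic (W_periodic P) (P.X_periodic lam k)
    (W_ne_zero P hk0 hk1) (fun p => P.geo.alpha_W p) (P.alpha_X lam k)
    (fun p v hv => Geo.dal_W P.smooth p v hv) (fun p => (hQ p).ne')
  exact ⟨_, _, hE.1, hE.2, _, kept_closedLeaf P hP, closedLeaf_unique P hP,
    kept_nondegenerate P hP⟩

end Pool.Agent.Helper53.Engel
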