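import Pool.Agent.Helper53.Engel.Profile

/-!
# Periodic extensions of plug functions
-/

set_option autoImplicit false

open Topology Real Filter
open scoped ContDiff

noncomputable section

namespace Pool.Agent.Helper53.Engel

lemma round_eq_of_abs {u : ℝ} {m : ℤ} (h : |u - m| < 1 / 2) : round u = m := by
  rw [round_eq, Int.floor_eq_iff]
  rw [abs_lt] at h
  constructor <;> linarith [h.1, h.2]

lemma nr_eq {u : ℝ} {m : ℤ} (h : |u - m| < 1 / 2) : nr u = u - m := by
  unfold nr
  rw [round_eq_of_abs h]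

lemma nr_add_int (u : ℝ) (m : ℤ) : nr (u + m) = nr u := by
  unfold nr
  rw [round_add_intCast]
  push_cast
  ring

lemma abs_nr_le (u : ℝ) : |nr u| ≤ 1 / 2 := abs_sub_round u

lemma abs_nr_le_abs (u : ℝ) (m : ℤ) : |nr u| ≤ |u - m| := round_le u m

lemma nr_exists (u : ℝ) : ∃ m : ℤ, nr u = u - m := ⟨round u, rfl⟩

/-- `|nr|` is 1-Lipschitz -/
lemma abs_nr_sub_le (u v : ℝ) : |nr u| ≤ |nr v| + |u - v| := by
  obtain ⟨m, hm⟩ := nr_exists v
  calc |nr u| ≤ |u - m| := abs_nr_le_abs u m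
    _ = |(v - m) + (u - v)| := by ring_nf
    _ ≤ |v - m| + |u - v| := abs_add_le _ _
    _ = |nr v| + |u - v| := by rw [hm]

lemma continuous_abs_nr : Continuous fun u => |nr u| := by
  have h : LipschitzWith 1 fun u => |nr u| := by
    apply LipschitzWith.of_dist_le_mul
    intro u v
    simp only [NNReal.coe_one, one_mul, Real.dist_eq]
    rw [abs_le]
    constructor
    · have := abs_nr_sub_le v u
      rw [abs_sub_comm v u] at this
      linarith
    · linarith [abs_nr_sub_le u v]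
  exact h.continuous

/-- `g` is supported in the disc `rho ≤ 2` -/
def DiscSupp (g : R2 → ℝ) : Prop := ∀ u, 2 ≤ rho u → g u = 0

lemma rho_ge_of_left {u : R2} (h : 1 / 25 ≤ |u.1|) : 2 ≤ rho u := by
  unfold rho rr
  have h1 : (1 / 25 : ℝ) ^ 2 ≤ u.1 ^ 2 := by
    rw [← sq_abs u.1]
    gcongr
  rw [le_div_iff₀ (by norm_num)]
  nlinarith [sq_nonneg u.2]

lemma rho_ge_of_right {u : R2} (h : 1 / 25 ≤ |u.2|) : 2 ≤ rho u := by
  unfold rho rr
  have h1 : (1 / 25 : ℝ) ^ 2 ≤ u.2 ^ 2 := by
    rw [← sq_abs u.2]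
    gcongr
  rw [le_div_iff₀ (by norm_num)]
  nlinarith [sq_nonneg u.1]

lemma pe_eq (g : R2 → ℝ) {c q : R2} {m n : ℤ} (h1 : |q.1 - c.1 - m| < 1 / 2)
    (h2 : |q.2 - c.2 - n| < 1 / 2) : pe g c q = g (q.1 - c.1 - m, q.2 - c.2 - n) := by
  unfold pe
  rw [nr_eq h1, nr_eq h2]

lemma pe_eventuallyEq (g : R2 → ℝ) {c q : R2} {m n : ℤ} (h1 : |q.1 - c.1 - m| < 1 / 2)
    (h2 : |q.2 - c.2 - n| < 1 / 2) :
    pe g c =ᶠ[𝓝 q] fun q' => g (q'.1 - c.1 - m, q'.2 - c.2 - n) := by
  have e1 : ∀ᶠ q' : R2 in 𝓝 q, |q'.1 - c.1 - m| < 1 / 2 := by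
    have : Continuous fun q' : R2 => |q'.1 - c.1 - m| := by fun_prop
    exact this.continuousAt.eventually_lt_const h1
  have e2 : ∀ᶠ q' : R2 in 𝓝 q, |q'.2 - c.2 - n| < 1 / 2 := by
    have : Continuous fun q' : R2 => |q'.2 - c.2 - n| := by fun_prop
    exact this.continuousAt.eventually_lt_const h2
  filter_upwards [e1, e2] with q' h1' h2'
  exact pe_eq g h1' h2'

lemma pe_zero {g : R2 → ℝ} (hg : DiscSupp g) {c q : R2}
    (h : 1 / 25 ≤ |nr (q.1 - c.1)| ∨ 1 / 25 ≤ |nr (q.2 - c.2)|) : pe g c q = 0 := by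
  unfold pe
  rcases h with h | h
  · exact hg _ (rho_ge_of_left h)
  · exact hg _ (rho_ge_of_right h)

lemma pe_eventually_zero {g : R2 → ℝ} (hg : DiscSupp g) {c q : R2}
    (h : 1 / 25 < |nr (q.1 - c.1)| ∨ 1 / 25 < |nr (q.2 - c.2)|) : pe g c =ᶠ[𝓝 q] fun _ => 0 := by
  rcases h with h | h
  · have hc : Continuous fun q' : R2 => |nr (q'.1 - c.1)| := by
      exact continuous_abs_nr.comp (by fun_prop)
    filter_upwards [hc.continuousAt.eventually_const_lt h] with q' hq'
    exact pe_zero hg (Or.inl hq'.le)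
  · have hc : Continuous fun q' : R2 => |nr (q'.2 - c.2)| := by
      exact continuous_abs_nr.comp (by fun_prop)
    filter_upwards [hc.continuousAt.eventually_const_lt h] with q' hq'
    exact pe_zero hg (Or.inr hq'.le)

lemma pe_contDiff {g : R2 → ℝ} (hg : DiscSupp g) (hs : ContDiff ℝ ∞ g) (c : R2) :
    ContDiff ℝ ∞ (pe g c) := by
  rw [contDiff_iff_contDiffAt]
  intro q
  by_cases h : 1 / 25 < |nr (q.1 - c.1)| ∨ 1 / 25 < |nr (q.2 - c.2)|
  · exact contDiffAt_const.congr_of_eventuallyEq (pe_eventually_zero hg h)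
  · push Not at h
    obtain ⟨m, hm⟩ := nr_exists (q.1 - c.1)
    obtain ⟨n, hn⟩ := nr_exists (q.2 - c.2)
    rw [hm, hn] at h
    have h1 : |q.1 - c.1 - m| < 1 / 2 := by linarith [h.1]
    have h2 : |q.2 - c.2 - n| < 1 / 2 := by linarith [h.2]
    refine ContDiffAt.congr_of_eventuallyEq ?_ (pe_eventuallyEq g h1 h2)
    apply ContDiff.contDiffAt
    apply hs.comp
    fun_prop

lemma pe_add_int (g : R2 → ℝ) (c q : R2) (m n : ℤ) :
    pe g c (q + ((m : ℝ), (n : ℝ))) = pe g c q := by
  unfold pe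
  have h1 : (q + ((m : ℝ), (n : ℝ))).1 - c.1 = (q.1 - c.1) + m := by
    simp only [Prod.fst_add]
    ring
  have h2 : (q + ((m : ℝ), (n : ℝ))).2 - c.2 = (q.2 - c.2) + n := by
    simp only [Prod.snd_add]
    ring
  rw [h1, h2, nr_add_int, nr_add_int]

/-! ### the plug functions -/

lemma rho_contDiff : ContDiff ℝ ∞ rho := by
  unfold rho
  fun_prop

lemma gph_supp : DiscSupp gph := fun u h => by simp [gph, ff_out _ h]
lemma gf_supp : DiscSupp gf := fun u h => by simp [gf, ff_out _ h]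
lemma ga_supp : DiscSupp ga := fun u h => by simp [ga, ff_out _ h]
lemma gb_supp : DiscSupp gb := fun u h => by simp [gb, GG_out _ (by linarith : 1 / 2 ≤ rho u)]
lemma gt_supp : DiscSupp gt := fun u h => by simp [gt, chi_out (by linarith : 11 / 10 ≤ rho u)]
lemma gl1_supp : DiscSupp gl1 := fun u h => by simp [gl1, bet_out (by linarith : 6 / 5 ≤ rho u)]
lemma gl2_supp : DiscSupp gl2 := fun u h => by simp [gl2, bet_out (by linarith : 6 / 5 ≤ rho u)]
lemma gl3_supp : DiscSupp gl3 := fun u h => by simp [gl3, bet_out (by linarith : 6 / 5 ≤ rho u)]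

lemma gf_contDiff : ContDiff ℝ ∞ gf := by
  unfold gf
  exact (ff_contDiff.comp rho_contDiff).sub contDiff_const

lemma gph_contDiff : ContDiff ℝ ∞ gph := by
  unfold gph
  exact contDiff_fst.mul ((ff_contDiff.comp rho_contDiff).sub contDiff_const)

lemma ga_contDiff : ContDiff ℝ ∞ ga := by
  unfold ga
  exact contDiff_const.mul ((ff_contDiff.comp rho_contDiff).sub contDiff_const)

lemma gb_contDiff : ContDiff ℝ ∞ gb := by
  unfold gb
  exact contDiff_const.mul (GG_contDiff.comp rho_contDiff)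

lemma gt_contDiff : ContDiff ℝ ∞ gt := by
  unfold gt
  exact contDiff_snd.mul (chi_contDiff.comp rho_contDiff)

lemma gl1_contDiff : ContDiff ℝ ∞ gl1 := by
  unfold gl1
  refine ContDiff.mul (by fun_prop) (contDiff_const.sub (bet_contDiff.comp rho_contDiff))

lemma gl2_contDiff : ContDiff ℝ ∞ gl2 := by
  unfold gl2
  exact contDiff_const.mul (contDiff_const.sub (bet_contDiff.comp rho_contDiff))

lemma gl3_contDiff : ContDiff ℝ ∞ gl3 := by
  unfold gl3
  exact contDiff_const.mul (contDiff_const.sub (bet_contDiff.comp rho_contDiff))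

namespace Par

variable (P : Par)

lemma ph_contDiff : ContDiff ℝ ∞ P.ph := by
  unfold Par.ph
  exact contDiff_fst.add (ContDiff.sum fun i _ => pe_contDiff gph_supp gph_contDiff _)

lemma a_contDiff : ContDiff ℝ ∞ P.a := by
  unfold Par.a
  exact ContDiff.sum fun i _ => pe_contDiff ga_supp ga_contDiff _

lemma bP_contDiff : ContDiff ℝ ∞ P.bP := by
  unfold Par.bP
  exact ContDiff.sum fun i _ => contDiff_const.mul (pe_contDiff gb_supp gb_contDiff _)

lemma ts_contDiff : ContDiff ℝ ∞ P.ts := by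
  unfold Par.ts
  exact contDiff_snd.sub (ContDiff.sum fun i _ => pe_contDiff gt_supp gt_contDiff _)

lemma l1_contDiff : ContDiff ℝ ∞ P.l1 := by
  unfold Par.l1
  exact ContDiff.sum fun i _ => pe_contDiff gl1_supp gl1_contDiff _

lemma l2_contDiff : ContDiff ℝ ∞ P.l2 := by
  unfold Par.l2
  exact contDiff_const.add (ContDiff.sum fun i _ => pe_contDiff gl2_supp gl2_contDiff _)

lemma l3_contDiff : ContDiff ℝ ∞ P.l3 := by
  unfold Par.l3
  exact ContDiff.sum fun i _ => pe_contDiff gl3_supp gl3_contDiff _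

lemma FF_contDiff (i : Fin 3) : ContDiff ℝ ∞ (P.FF i) := by
  unfold Par.FF
  exact contDiff_const.add (pe_contDiff gf_supp gf_contDiff _)

lemma ph_add_int (q : R2) (m n : ℤ) : P.ph (q + ((m : ℝ), (n : ℝ))) = P.ph q + m := by
  unfold Par.ph
  simp only [pe_add_int, Prod.fst_add]
  ring

lemma a_add_int (q : R2) (m n : ℤ) : P.a (q + ((m : ℝ), (n : ℝ))) = P.a q := by
  unfold Par.a
  simp only [pe_add_int]

lemma bP_add_int (q : R2) (m n : ℤ) : P.bP (q + ((m : ℝ), (n : ℝ))) = P.bP q := by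
  unfold Par.bP
  simp only [pe_add_int]

lemma ts_add_int (q : R2) (m n : ℤ) : P.ts (q + ((m : ℝ), (n : ℝ))) = P.ts q + n := by
  unfold Par.ts
  simp only [pe_add_int, Prod.snd_add]
  ring

lemma l1_add_int (q : R2) (m n : ℤ) : P.l1 (q + ((m : ℝ), (n : ℝ))) = P.l1 q := by
  unfold Par.l1
  simp only [pe_add_int]

lemma l2_add_int (q : R2) (m n : ℤ) : P.l2 (q + ((m : ℝ), (n : ℝ))) = P.l2 q := by
  unfold Par.l2
  simp only [pe_add_int]

lemma l3_add_int (q : R2) (m n : ℤ) : P.l3 (q + ((m : ℝ), (n : ℝ))) = P.l3 q := by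
  unfold Par.l3
  simp only [pe_add_int]

lemma FF_add_int (i : Fin 3) (q : R2) (m n : ℤ) :
    P.FF i (q + ((m : ℝ), (n : ℝ))) = P.FF i q := by
  unfold Par.FF
  simp only [pe_add_int]

end Par

/-! ### base profiles -/

lemma tb_add_int (t : ℝ) (n : ℤ) : tb (t + n) = tb t := by
  unfold tb
  have : t + n - 3 / 4 = (t - 3 / 4) + n := by ring
  rw [this, nr_add_int]

lemma tb_eq {t : ℝ} {n : ℤ} (h : |t - 3 / 4 - n| < 1 / 2) : tb t = t - n := by
  unfold tb
  rw [nr_eq h]
  ring

/-- functions of `tb t` that are constant outside `[1/2, 1]` are smooth -/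
lemma tb_contDiff {g : ℝ → ℝ} (hg : ContDiff ℝ ∞ g) {k : ℝ} (h1 : ∀ t, t ≤ 1 / 2 → g t = k)
    (h2 : ∀ t, 1 ≤ t → g t = k) : ContDiff ℝ ∞ fun t => g (tb t) := by
  rw [contDiff_iff_contDiffAt]
  intro t
  by_cases h : 1 / 4 < |nr (t - 3 / 4)|
  · have hc : Continuous fun t : ℝ => |nr (t - 3 / 4)| := continuous_abs_nr.comp (by fun_prop)
    have : (fun t => g (tb t)) =ᶠ[𝓝 t] fun _ => k := by
      filter_upwards [hc.continuousAt.eventually_const_lt h] with t' ht'
      unfold tb
      rcases lt_or_ge 0 (nr (t' - 3 / 4)) with h0 | h0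
      · rw [abs_of_pos h0] at ht'
        exact h2 _ (by linarith)
      · rw [abs_of_nonpos h0] at ht'
        exact h1 _ (by linarith)
    exact contDiffAt_const.congr_of_eventuallyEq this
  · push Not at h
    obtain ⟨n, hn⟩ := nr_exists (t - 3 / 4)
    rw [hn] at h
    have h3 : |t - 3 / 4 - n| < 1 / 2 := by linarith
    have : (fun t => g (tb t)) =ᶠ[𝓝 t] fun t' => g (t' - n) := by
      have hc : Continuous fun t' : ℝ => |t' - 3 / 4 - n| := by fun_prop
      filter_upwards [hc.continuousAt.eventually_lt_const h3] with t' ht'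
      rw [tb_eq ht']
    refine ContDiffAt.congr_of_eventuallyEq ?_ this
    apply ContDiff.contDiffAt
    apply hg.comp
    fun_prop

lemma chi2_contDiff : ContDiff ℝ ∞ chi2 :=
  tb_contDiff (k := 0) (stp_deriv_contDiff _ _)
    (fun t ht => stp_deriv_left (by norm_num) (by linarith))
    (fun t ht => stp_deriv_right (by norm_num) (by linarith))

lemma dmu_contDiff : ContDiff ℝ ∞ dmu := by
  refine tb_contDiff (g := fun t => -deriv (stp (1 / 2) (5 / 8)) t + deriv (stp (7 / 8) 1) t)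
    (k := 0) ?_ ?_ ?_
  · exact (stp_deriv_contDiff _ _).neg.add (stp_deriv_contDiff _ _)
  · intro t ht
    rw [stp_deriv_left (by norm_num) ht, stp_deriv_left (by norm_num) (by linarith)]
    ring
  · intro t ht
    rw [stp_deriv_right (by norm_num) (by linarith), stp_deriv_right (by norm_num) ht]
    ring

lemma mu_contDiff : ContDiff ℝ ∞ mu := by
  refine tb_contDiff (g := fun t => 1 - stp (1 / 2) (5 / 8) t + stp (7 / 8) 1 t) (k := 1) ?_ ?_ ?_
  · exact (contDiff_const.sub (stp_contDiff _ _)).add (stp_contDiff _ _)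
  · intro t ht
    rw [stp_zero (by norm_num) ht, stp_zero (by norm_num) (by linarith)]
    ring
  · intro t ht
    rw [stp_one (by norm_num) (by linarith), stp_one (by norm_num) ht]
    ring

lemma chi2_add_int (t : ℝ) (n : ℤ) : chi2 (t + n) = chi2 t := by
  unfold chi2
  rw [tb_add_int]

lemma dmu_add_int (t : ℝ) (n : ℤ) : dmu (t + n) = dmu t := by
  unfold dmu
  rw [tb_add_int]

lemma mu_add_int (t : ℝ) (n : ℤ) : mu (t + n) = mu t := by
  unfold mu
  rw [tb_add_int]

lemma abs_mem_slot {t : ℝ} {n : ℤ} (h : t ∈ Set.Icc (n : ℝ) (n + 5 / 4)) (h' : (n : ℝ) + 1 / 4 < t)  :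
    |t - 3 / 4 - n| < 1 / 2 ∨ t = n + 5 / 4 := by
  rcases h.2.lt_or_eq with h1 | h1
  · left
    rw [abs_lt]
    constructor <;> linarith
  · right
    exact h1

/-- the base profiles vanish outside the base slots -/
lemma tb_slot {t : ℝ} {n : ℤ} (h : t ∈ Set.Icc (n : ℝ) (n + 1 / 2)) : tb t ≤ 1 / 2 ∨ 1 ≤ tb t := by
  rcases lt_or_ge (t - n) (1 / 4) with h1 | h1
  · right
    have : |t - 3 / 4 - ((n - 1 : ℤ) : ℝ)| < 1 / 2 := by
      push_cast
      rw [abs_lt]
      constructor <;> linarith [h.1]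
    rw [tb_eq this]
    push_cast
    linarith [h.1]
  · rcases h1.lt_or_eq with h2 | h2
    · left
      have : |t - 3 / 4 - (n : ℝ)| < 1 / 2 := by
        rw [abs_lt]
        constructor <;> linarith [h.2]
      rw [tb_eq this]
      linarith [h.2]
    · unfold tb nr
      have h3 : t - 3 / 4 = (n : ℝ) - 1 / 2 := by linarith
      rw [h3]
      have h4 : round ((n : ℝ) - 1 / 2) = n := by
        rw [round_eq, Int.floor_eq_iff]
        constructor <;> linarith
      rw [h4]
      left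
      linarith

lemma chi2_slot {t : ℝ} {n : ℤ} (h : t ∈ Set.Icc (n : ℝ) (n + 1 / 2)) : chi2 t = 0 := by
  unfold chi2
  rcases tb_slot h with h1 | h1
  · exact stp_deriv_left (by norm_num) (by linarith)
  · exact stp_deriv_right (by norm_num) (by linarith)

lemma dmu_slot {t : ℝ} {n : ℤ} (h : t ∈ Set.Icc (n : ℝ) (n + 1 / 2)) : dmu t = 0 := by
  unfold dmu
  rcases tb_slot h with h1 | h1
  · rw [stp_deriv_left (by norm_num) h1, stp_deriv_left (by norm_num) (by linarith)]
    ring
  · rw [stp_deriv_right (by norm_num) (by linarith), stp_deriv_right (by norm_num) h1]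
    ring

lemma mu_slot {t : ℝ} {n : ℤ} (h : t ∈ Set.Icc (n : ℝ) (n + 1 / 2)) : mu t = 1 := by
  unfold mu
  rcases tb_slot h with h1 | h1
  · rw [stp_zero (by norm_num) h1, stp_zero (by norm_num) (by linarith)]
    ring
  · rw [stp_one (by norm_num) (by linarith), stp_one (by norm_num) h1]
    ring

lemma hasDerivAt_mu (t : ℝ) : HasDerivAt mu (dmu t) t := by
  by_cases h : 1 / 4 < |nr (t - 3 / 4)|
  · have hc : Continuous fun t : ℝ => |nr (t - 3 / 4)| := continuous_abs_nr.comp (by fun_prop)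
    have h1 : mu =ᶠ[𝓝 t] fun _ => 1 := by
      filter_upwards [hc.continuousAt.eventually_const_lt h] with t' ht'
      unfold mu tb
      rcases lt_or_ge 0 (nr (t' - 3 / 4)) with h0 | h0
      · rw [abs_of_pos h0] at ht'
        rw [stp_one (by norm_num) (by linarith), stp_one (by norm_num) (by linarith)]
        ring
      · rw [abs_of_nonpos h0] at ht'
        rw [stp_zero (by norm_num) (by linarith), stp_zero (by norm_num) (by linarith)]
        ring
    have h2 : dmu t = 0 := by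
      unfold dmu tb
      rcases lt_or_ge 0 (nr (t - 3 / 4)) with h0 | h0
      · rw [abs_of_pos h0] at h
        rw [stp_deriv_right (by norm_num) (by linarith), stp_deriv_right (by norm_num) (by linarith)]
        ring
      · rw [abs_of_nonpos h0] at h
        rw [stp_deriv_left (by norm_num) (by linarith), stp_deriv_left (by norm_num) (by linarith)]
        ring
    rw [h2]
    exact (hasDerivAt_const t (1 : ℝ)).congr_of_eventuallyEq h1
  · push Not at h
    obtain ⟨n, hn⟩ := nr_exists (t - 3 / 4)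
    rw [hn] at h
    have h3 : |t - 3 / 4 - n| < 1 / 2 := by linarith
    have h4 : mu =ᶠ[𝓝 t] fun t' => 1 - stp (1 / 2) (5 / 8) (t' - n) + stp (7 / 8) 1 (t' - n) := by
      have hc : Continuous fun t' : ℝ => |t' - 3 / 4 - n| := by fun_prop
      filter_upwards [hc.continuousAt.eventually_lt_const h3] with t' ht'
      unfold mu
      rw [tb_eq ht']
    refine HasDerivAt.congr_of_eventuallyEq ?_ h4
    unfold dmu
    rw [tb_eq h3]
    have h5 : HasDerivAt (fun t' : ℝ => t' - n) 1 t := by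
      simpa using (hasDerivAt_id t).sub_const (n : ℝ)
    have h6 := (stp_hasDerivAt (1 / 2) (5 / 8) (t - n)).comp t h5
    have h7 := (stp_hasDerivAt (7 / 8) 1 (t - n)).comp t h5
    have h8 := (h6.const_sub 1).add h7
    exact h8.congr_deriv (by ring)

end Pool.Agent.Helper53.Engel
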