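import Pool.Agent.Helper53.Engel.Core

/-!
# Positivity of `dα(X, [W, X])`
-/

set_option autoImplicit false

open Topology Real Filter
open scoped ContDiff

noncomputable section

namespace Pool.Agent.Helper53.Engel

/-! ### `t*` -/

lemma gt_diff : Differentiable ℝ gt := gt_contDiff.differentiable (by simp)

lemma chi_differentiable : Differentiable ℝ chi := chi_contDiff.differentiable (by simp)

lemma dz_gt (u : R2) : dz gt u = u.2 * (deriv chi (rho u) * (2 * u.1 / rr ^ 2)) := by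
  obtain ⟨u1, u2⟩ := u
  apply dz_eq (gt_diff _)
  unfold gt
  dsimp only
  exact (hasDerivAt_comp_rho_1 chi_differentiable u1 u2).const_mul u2

lemma dt_gt (u : R2) : dt gt u = chi (rho u) + u.2 * (deriv chi (rho u) * (2 * u.2 / rr ^ 2)) := by
  obtain ⟨u1, u2⟩ := u
  apply dt_eq (gt_diff _)
  unfold gt
  dsimp only
  refine ((hasDerivAt_id u2).mul (hasDerivAt_comp_rho_2 chi_differentiable u1 u2)).congr_deriv ?_
  simp only [id]
  ring

section

variable {P : Par} {i : Fin 3} {m n : ℤ} {p : V4}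

lemma plug_ts_eventually (h : inPlug P i m n p) : P.ts =ᶠ[𝓝 p.2.2]
    fun q => q.2 - gt (q.1 - (P.cen i).1 - m, q.2 - (P.cen i).2 - n) := by
  filter_upwards [sum_plug' h.1 h.2 gt_supp] with q' hq'
  unfold Par.ts
  rw [hq']

lemma dz_snd (q : R2) : dz (fun q => q.2) q = 0 := by
  obtain ⟨z, t⟩ := q
  exact dz_eq differentiableAt_snd (hasDerivAt_const z t)

lemma dt_snd (q : R2) : dt (fun q => q.2) q = 1 := by
  obtain ⟨z, t⟩ := q
  exact dt_eq differentiableAt_snd (hasDerivAt_id t)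

lemma dz_sub' {f g : R2 → ℝ} (hf : Differentiable ℝ f) (hg : Differentiable ℝ g) (q : R2) :
    dz (fun q => f q - g q) q = dz f q - dz g q := by
  unfold dz
  rw [fderiv_fun_sub (hf q) (hg q)]
  rfl

lemma dt_sub' {f g : R2 → ℝ} (hf : Differentiable ℝ f) (hg : Differentiable ℝ g) (q : R2) :
    dt (fun q => f q - g q) q = dt f q - dt g q := by
  unfold dt
  rw [fderiv_fun_sub (hf q) (hg q)]
  rfl

lemma plug_dz_ts (h : inPlug P i m n p) : dz P.ts p.2.2 = -dz gt (loc (P.cen i) m n p.2.2) := by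
  rw [dz_congr (plug_ts_eventually h), dz_sub' differentiable_snd (translate_diff gt_diff _ _ _),
    dz_snd, dz_translate gt_diff]
  unfold loc
  ring

lemma plug_dt_ts (h : inPlug P i m n p) : dt P.ts p.2.2 = 1 - dt gt (loc (P.cen i) m n p.2.2) := by
  rw [dt_congr (plug_ts_eventually h), dt_sub' differentiable_snd (translate_diff gt_diff _ _ _),
    dt_snd, dt_translate gt_diff]
  unfold loc
  ring

/-- derivative of `t*` along `W` in a plug -/
lemma plug_wts (h : inPlug P i m n p) {u : R2} (hu : u = loc (P.cen i) m n p.2.2) :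
    P.wts p = P.geo.Wt p * (1 - chi (rho u)) -
      2 * u.2 ^ 2 / rr ^ 2 * deriv chi (rho u) * ff (rho u) := by
  unfold Par.wts
  rw [plug_dz_ts h, plug_dt_ts h, plug_Wz h, plug_Wt h, ← hu, dz_gt, dt_gt]
  ring

end

lemma quiet_wts {P : Par} {p : V4} (h : Quiet P p.2.2) :
    P.wts p = 1 ∧ P.geo.Wt p = 1 ∧ P.V1 p = -1 := by
  have e1 : P.ts =ᶠ[𝓝 p.2.2] fun q => q.2 := by
    filter_upwards [sum_quiet' h gt_supp] with q' hq'
    unfold Par.ts
    rw [hq', sub_zero]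
  have e2 : P.geo.Wt p = 1 := by
    have h1 := W_quiet P p h
    have h2 : (P.W p).2.2.2 = P.geo.Wt p := rfl
    rw [← h2, h1]
  have e3 : P.l2 p.2.2 = -1 := by
    unfold Par.l2
    have h1 : ∑ i, pe gl2 (P.cen i) p.2.2 = 0 := (sum_quiet' h gl2_supp).self_of_nhds
    rw [h1, add_zero]
  have e4 : P.l3 p.2.2 = 0 := (sum_quiet' h gl3_supp).self_of_nhds
  refine ⟨?_, e2, ?_⟩
  · unfold Par.wts
    rw [dz_congr e1, dt_congr e1, dz_snd, dt_snd, e2]
    ring
  · unfold Par.V1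
    rw [e3, e4, e2]
    ring

/-! ### non-vanishing of `V` -/

/-- `(V1² + V2²) / ep²` near the boundary of the unit disc, as a function of scaled coordinates -/
def FJ (ξ τ β : ℝ) : ℝ :=
  ((2 * β - 1) * (3 * ξ ^ 2 + τ ^ 2 - 1) + 6 * β * (ξ * τ)) ^ 2 +
    (β * ((τ + 3 * ξ) * (3 * ξ ^ 2 + τ ^ 2 - 1) / 2 + 3 * τ)) ^ 2

lemma FJ_pos {ξ τ β : ℝ} (h : 1 < ξ ^ 2 + τ ^ 2) (h0 : 0 ≤ β) (h1 : β ≤ 1) : 0 < FJ ξ τ β := by
  unfold FJ
  obtain ⟨P, hP⟩ : ∃ P, P = 3 * ξ ^ 2 + τ ^ 2 - 1 := ⟨_, rfl⟩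
  rw [← hP]
  have hP0 : 0 < P := by rw [hP]; nlinarith [sq_nonneg ξ]
  by_contra hc
  have hs1 := sq_nonneg ((2 * β - 1) * P + 6 * β * (ξ * τ))
  have hs2 := sq_nonneg (β * ((τ + 3 * ξ) * P / 2 + 3 * τ))
  have e1 : (2 * β - 1) * P + 6 * β * (ξ * τ) = 0 := by
    apply pow_eq_zero_iff (two_ne_zero) |>.1
    linarith
  have e2 : β * ((τ + 3 * ξ) * P / 2 + 3 * τ) = 0 := by
    apply pow_eq_zero_iff (two_ne_zero) |>.1
    linarith
  rcases mul_eq_zero.1 e2 with h2 | h2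
  · rw [h2] at e1
    nlinarith
  · have h3 : 3 * ξ * P = -(τ * (6 + P)) := by linarith
    have h4 : τ ^ 2 * ((6 + P) ^ 2 + 3 * P ^ 2) = 3 * (P + 1) * P ^ 2 := by
      have h5 : (3 * ξ * P) ^ 2 = (τ * (6 + P)) ^ 2 := by rw [h3]; ring
      have h6 : 3 * ξ ^ 2 = P + 1 - τ ^ 2 := by linarith
      have h7 : (3 * ξ * P) ^ 2 = 3 * (3 * ξ ^ 2) * P ^ 2 := by ring
      rw [h7, h6] at h5
      linarith
    have h8 : P ^ 2 < 2 * τ ^ 2 * (6 + P) := by
      have h9 : 0 < (6 + P) ^ 2 + 3 * P ^ 2 := by positivity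
      have h10 : P ^ 2 * ((6 + P) ^ 2 + 3 * P ^ 2) < 2 * τ ^ 2 * (6 + P) * ((6 + P) ^ 2 + 3 * P ^ 2) := by
        have h11 : 2 * τ ^ 2 * (6 + P) * ((6 + P) ^ 2 + 3 * P ^ 2) =
            2 * (6 + P) * (3 * (P + 1) * P ^ 2) := by
          rw [← h4]
          ring
        rw [h11]
        have h12 : 0 < P ^ 2 := by positivity
        have h13 : 2 * (6 + P) * (3 * (P + 1) * P ^ 2) - P ^ 2 * ((6 + P) ^ 2 + 3 * P ^ 2) =
            P ^ 2 * (30 * P + 2 * P ^ 2) := by ring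
        have h14 : 0 < P ^ 2 * (30 * P + 2 * P ^ 2) := by positivity
        linarith
      exact lt_of_mul_lt_mul_right h10 h9.le
    have h15 : P * (P + 6 * (ξ * τ)) = P ^ 2 - 2 * τ ^ 2 * (6 + P) := by
      have : P * (6 * (ξ * τ)) = 2 * τ * (3 * ξ * P) := by ring
      rw [mul_add, this, h3]
      ring
    have h16 : P + 6 * (ξ * τ) < 0 := by
      by_contra h17
      push Not at h17
      have := mul_nonneg hP0.le h17
      linarith
    rcases h0.eq_or_lt with h18 | h18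
    · rw [← h18] at e1
      nlinarith
    · have h19 : (2 * β - 1) * P + 6 * β * (ξ * τ) = β * (P + 6 * (ξ * τ)) + (β - 1) * P := by ring
      rw [h19] at e1
      have h20 : β * (P + 6 * (ξ * τ)) < 0 := mul_neg_of_pos_of_neg h18 h16
      have h21 : (β - 1) * P ≤ 0 := mul_nonpos_of_nonpos_of_nonneg (by linarith) hP0.le
      linarith

lemma isCompact_disc (a b : ℝ) : IsCompact {v : ℝ × ℝ | a ≤ v.1 ^ 2 + v.2 ^ 2 ∧ v.1 ^ 2 + v.2 ^ 2 ≤ b} := by
  have hc : Continuous fun v : ℝ × ℝ => v.1 ^ 2 + v.2 ^ 2 := by fun_prop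
  have h1 : IsClosed {v : ℝ × ℝ | a ≤ v.1 ^ 2 + v.2 ^ 2 ∧ v.1 ^ 2 + v.2 ^ 2 ≤ b} :=
    (isClosed_le continuous_const hc).inter (isClosed_le hc continuous_const)
  have h2 : {v : ℝ × ℝ | a ≤ v.1 ^ 2 + v.2 ^ 2 ∧ v.1 ^ 2 + v.2 ^ 2 ≤ b} ⊆
      Set.Icc (-(|b| + 1), -(|b| + 1)) (|b| + 1, |b| + 1) := by
    rintro ⟨x, y⟩ ⟨-, h⟩
    dsimp only at h
    have hb := le_abs_self b
    have hb0 := abs_nonneg b
    have hx : |x| ≤ |b| + 1 := abs_le_of_sq_le_sq (by nlinarith [sq_nonneg y]) (by positivity)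
    have hy : |y| ≤ |b| + 1 := abs_le_of_sq_le_sq (by nlinarith [sq_nonneg x]) (by positivity)
    rw [abs_le] at hx hy
    exact ⟨⟨hx.1, hy.1⟩, ⟨hx.2, hy.2⟩⟩
  exact isCompact_Icc.of_isClosed_subset h1 h2

lemma FJ_bound : ∃ v0 > 0, ∀ ξ τ β : ℝ, 21 / 20 ≤ ξ ^ 2 + τ ^ 2 → ξ ^ 2 + τ ^ 2 ≤ 6 / 5 → 0 ≤ β →
    β ≤ 1 → v0 ≤ FJ ξ τ β := by
  have hK : IsCompact ({v : ℝ × ℝ | 21 / 20 ≤ v.1 ^ 2 + v.2 ^ 2 ∧ v.1 ^ 2 + v.2 ^ 2 ≤ 6 / 5} ×ˢ
      Set.Icc (0 : ℝ) 1) := (isCompact_disc _ _).prod isCompact_Icc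
  have hc : Continuous fun w : (ℝ × ℝ) × ℝ => FJ w.1.1 w.1.2 w.2 := by
    unfold FJ
    fun_prop
  have hne : ({v : ℝ × ℝ | 21 / 20 ≤ v.1 ^ 2 + v.2 ^ 2 ∧ v.1 ^ 2 + v.2 ^ 2 ≤ 6 / 5} ×ˢ
      Set.Icc (0 : ℝ) 1).Nonempty := by
    refine ⟨((0, 107 / 100), 0), ⟨?_, ?_⟩, ?_⟩
    · norm_num
    · norm_num
    · simp
  obtain ⟨w, hw, hmin⟩ := hK.exists_isMinOn hne hc.continuousOn
  refine ⟨FJ w.1.1 w.1.2 w.2, FJ_pos (by linarith [hw.1.1]) hw.2.1 hw.2.2, ?_⟩
  intro ξ τ β h1 h2 h3 h4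
  have hmem : ((ξ, τ), β) ∈ ({v : ℝ × ℝ | 21 / 20 ≤ v.1 ^ 2 + v.2 ^ 2 ∧ v.1 ^ 2 + v.2 ^ 2 ≤ 6 / 5} ×ˢ
      Set.Icc (0 : ℝ) 1) := ⟨⟨h1, h2⟩, ⟨h3, h4⟩⟩
  exact hmin hmem

section

variable {P : Par} {i : Fin 3} {m n : ℤ} {p : V4}

lemma JJ_annulus (h : inPlug P i m n p) {u : R2} (hu : u = loc (P.cen i) m n p.2.2)
    (h1 : 1 / 2 ≤ rho u) (h2 : rho u ≤ 6 / 5) :
    P.JJ p = om * ep ^ 2 * FJ (u.1 / rr) (u.2 / rr) (1 - bet (rho u)) := by
  have hr := rr_ne
  unfold Par.JJ Par.V1 Par.V2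
  rw [plug_l1 h, plug_l2 h, plug_l3 h, plug_Wz h, plug_Wt h, plug_Ws h, ← hu, deriv_GG_out _ h1,
    deriv_ff_core _ h2, ff_core _ h2]
  unfold gl1 gl2 gl3 FJ
  have hrho : rho u = (u.1 / rr) ^ 2 + (u.2 / rr) ^ 2 := by unfold rho; ring
  generalize bet (rho u) = B
  rw [hrho]
  field_simp
  ring

lemma JJ_outer (h : inPlug P i m n p) {u : R2} (hu : u = loc (P.cen i) m n p.2.2)
    (h1 : 6 / 5 ≤ rho u) : P.JJ p = om * P.geo.Wt p ^ 2 := by
  unfold Par.JJ Par.V1 Par.V2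
  rw [plug_l1 h, plug_l2 h, plug_l3 h, ← hu]
  unfold gl1 gl2 gl3
  rw [bet_out h1]
  ring

lemma Wt_lower (h : inPlug P i m n p) {u : R2} (hu : u = loc (P.cen i) m n p.2.2)
    (h1 : 21 / 20 ≤ rho u) : ep / 20 ≤ P.geo.Wt p := by
  rw [plug_Wt h, ← hu]
  have h2 : ff (21 / 20) ≤ ff (rho u) := ff_mono h1
  rw [ff_core _ (by norm_num)] at h2
  have h3 : 0 ≤ 2 * u.1 ^ 2 * deriv ff (rho u) / rr ^ 2 := by
    have := deriv_ff_nonneg (rho u)
    positivity
  unfold ep at h2 ⊢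
  linarith

end

/-! ### bounds -/

lemma Geo.cr_continuous {g : Geo} (h : g.Smooth) {W U V : V4 → V4} (hW : ContDiff ℝ ∞ W)
    (hU : ContDiff ℝ ∞ U) (hV : ContDiff ℝ ∞ V) : Continuous (g.cr W U V) := by
  have h1 : Continuous (fderiv ℝ g.alpha) := h.alpha.continuous_fderiv (by simp)
  have h2 : Continuous (VectorField.lieBracket ℝ W V) := by
    unfold VectorField.lieBracket
    exact ((hV.continuous_fderiv (by simp)).clm_apply hW.continuous).sub
      ((hW.continuous_fderiv (by simp)).clm_apply hV.continuous)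
  unfold Geo.cr Geo.dal
  exact ((h1.clm_apply hU.continuous).clm_apply h2).sub ((h1.clm_apply h2).clm_apply hU.continuous)

lemma Par.cr_periodic (P : Par) {W U V : V4 → V4} (hW : ∀ p, ∀ n ∈ Lat, W (p + n) = W p)
    (hU : ∀ p, ∀ n ∈ Lat, U (p + n) = U p) (hV : ∀ p, ∀ n ∈ Lat, V (p + n) = V p) :
    ∀ p, ∀ n ∈ Lat, P.geo.cr W U V (p + n) = P.geo.cr W U V p := by
  intro p n hn
  unfold Geo.cr Geo.dal VectorField.lieBracket
  rw [fderiv_periodic P.alpha_periodic p n hn, fderiv_periodic hW p n hn,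
    fderiv_periodic hV p n hn, hW p n hn, hU p n hn, hV p n hn]

lemma A_bound (P : Par) : ∃ M : ℝ, 0 < M ∧ ∀ p, |P.A11 p| ≤ M ∧ |P.A12 p| ≤ M ∧ |P.A22 p| ≤ M := by
  have hs := P.smooth
  have c11 : Continuous P.A11 := Geo.cr_continuous hs P.W_smooth P.L1_smooth P.L1_smooth
  have c12 : Continuous P.A12 :=
    (Geo.cr_continuous hs P.W_smooth P.L1_smooth P.L2_smooth).add
      (Geo.cr_continuous hs P.W_smooth P.L2_smooth P.L1_smooth)
  have c22 : Continuous P.A22 := Geo.cr_continuous hs P.W_smooth P.L2_smooth P.L2_smooth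
  have p11 : ∀ p, ∀ n ∈ Lat, P.A11 (p + n) = P.A11 p :=
    P.cr_periodic (W_periodic P) P.L1_periodic P.L1_periodic
  have p12 : ∀ p, ∀ n ∈ Lat, P.A12 (p + n) = P.A12 p := by
    intro p n hn
    unfold Par.A12
    rw [P.cr_periodic (W_periodic P) P.L1_periodic P.L2_periodic p n hn,
      P.cr_periodic (W_periodic P) P.L2_periodic P.L1_periodic p n hn]
  have p22 : ∀ p, ∀ n ∈ Lat, P.A22 (p + n) = P.A22 p :=
    P.cr_periodic (W_periodic P) P.L2_periodic P.L2_periodic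
  obtain ⟨M1, h1, h1'⟩ := periodic_bounded c11 p11
  obtain ⟨M2, h2, h2'⟩ := periodic_bounded c12 p12
  obtain ⟨M3, h3, h3'⟩ := periodic_bounded c22 p22
  refine ⟨M1 + M2 + M3, by positivity, fun p => ⟨?_, ?_, ?_⟩⟩
  · have := h1' p
    rw [Real.norm_eq_abs] at this
    linarith
  · have := h2' p
    rw [Real.norm_eq_abs] at this
    linarith
  · have := h3' p
    rw [Real.norm_eq_abs] at this
    linarith

lemma Bq_continuous : Continuous fun v : ℝ × ℝ => Bq v.1 v.2 := by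
  have h1 : Continuous (deriv GG) := deriv_GG_contDiff.continuous
  have h2 : Continuous (deriv (deriv GG)) :=
    ((contDiff_infty_iff_deriv.1 deriv_GG_contDiff).2).continuous
  have h3 : Continuous GG := GG_contDiff.continuous
  unfold Bq uh
  fun_prop

lemma Wq_continuous : Continuous fun v : ℝ × ℝ => Wq v.1 v.2 := by
  unfold Wq uh
  fun_prop

lemma core_bound (P : Par) (κs : ℝ)
    (hκs : ∀ κ, 0 < κ → κ ≤ κs → ∀ ξ τ : ℝ, ξ ^ 2 + τ ^ 2 ≤ 11 / 10 → 0 < Wq ξ τ + κ * Bq ξ τ)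
    (h0 : 0 < P.k0) (h0' : P.k0 ≤ κs) (h1 : 0 < P.k1) (h1' : P.k1 ≤ κs) :
    ∃ A0 > 0, ∀ i m n p, inCore P i m n p → A0 ≤ P.A11 p := by
  have hone : ∀ κ, 0 < κ → κ ≤ κs → ∃ A0 > 0, ∀ ξ τ : ℝ, ξ ^ 2 + τ ^ 2 ≤ 11 / 10 →
      A0 ≤ Wq ξ τ + κ * Bq ξ τ := by
    intro κ hκ hκ'
    have hc : Continuous fun v : ℝ × ℝ => Wq v.1 v.2 + κ * Bq v.1 v.2 :=
      Wq_continuous.add (continuous_const.mul Bq_continuous)
    have hne : {v : ℝ × ℝ | 0 ≤ v.1 ^ 2 + v.2 ^ 2 ∧ v.1 ^ 2 + v.2 ^ 2 ≤ 11 / 10}.Nonempty := by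
      refine ⟨(0, 0), ?_, ?_⟩ <;> norm_num
    obtain ⟨w, hw, hmin⟩ := (isCompact_disc 0 (11 / 10)).exists_isMinOn hne hc.continuousOn
    refine ⟨Wq w.1 w.2 + κ * Bq w.1 w.2, hκs κ hκ hκ' w.1 w.2 hw.2, ?_⟩
    intro ξ τ h
    have hmem : (ξ, τ) ∈ {v : ℝ × ℝ | 0 ≤ v.1 ^ 2 + v.2 ^ 2 ∧ v.1 ^ 2 + v.2 ^ 2 ≤ 11 / 10} :=
      ⟨by positivity, h⟩
    exact isMinOn_iff.1 hmin (ξ, τ) hmem
  obtain ⟨B0, hB0, hB0'⟩ := hone P.k0 h0 h0'
  obtain ⟨B1, hB1, hB1'⟩ := hone P.k1 h1 h1'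
  have hpre : 0 < om * ep ^ 2 / rr := by
    unfold om ep rr
    positivity
  refine ⟨om * ep ^ 2 / rr * min B0 B1, by positivity, ?_⟩
  intro i m n p h
  obtain ⟨u, hu⟩ : ∃ u, u = loc (P.cen i) m n p.2.2 := ⟨_, rfl⟩
  rw [A11_core h hu]
  have hrho : (u.1 / rr) ^ 2 + (u.2 / rr) ^ 2 ≤ 11 / 10 := by
    have h2 := h.2.le
    rw [← hu] at h2
    have h3 : rho u = (u.1 / rr) ^ 2 + (u.2 / rr) ^ 2 := by unfold rho; ring
    linarith
  apply mul_le_mul_of_nonneg_left _ hpre.le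
  fin_cases i
  · exact (min_le_right _ _).trans (hB1' _ _ hrho)
  · exact (min_le_right _ _).trans (hB1' _ _ hrho)
  · exact (min_le_left _ _).trans (hB0' _ _ hrho)

/-- the elementary inequality behind the construction -/
lemma quad_pos {A0 M J lam c s : ℝ} (hlam : 0 < lam) (hA : 0 < A0)
    (hd : lam * M ^ 2 < 4 * A0 * (J - lam * M)) (hcs : c ^ 2 + s ^ 2 = 1) {a b d e : ℝ}
    (ha : A0 ≤ a) (hb : |b| ≤ M) (hdd : |d| ≤ M) (he : J * s ^ 2 ≤ e) :
    0 < c ^ 2 * a + lam * (s * c) * b + lam ^ 2 * s ^ 2 * d + lam * e := by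
  have h1 : c ^ 2 * A0 ≤ c ^ 2 * a := mul_le_mul_of_nonneg_left ha (sq_nonneg c)
  have h2 : -(|s| * |c| * M) ≤ s * c * b := by
    have : |s * c * b| ≤ |s| * |c| * M := by
      rw [abs_mul, abs_mul]
      gcongr
    linarith [neg_abs_le (s * c * b)]
  have h3 : -(s ^ 2 * M) ≤ s ^ 2 * d := by
    have h4 := (abs_le.1 hdd).1
    nlinarith [sq_nonneg s]
  have h4 : c ^ 2 * A0 - lam * (|s| * |c| * M) + lam * (J - lam * M) * s ^ 2 ≤
      c ^ 2 * a + lam * (s * c) * b + lam ^ 2 * s ^ 2 * d + lam * e := by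
    have h5 := mul_le_mul_of_nonneg_left h2 hlam.le
    have h6 := mul_le_mul_of_nonneg_left h3 (sq_nonneg lam)
    have h7 := mul_le_mul_of_nonneg_left he hlam.le
    nlinarith
  refine lt_of_lt_of_le ?_ h4
  have hs : |s| ^ 2 = s ^ 2 := sq_abs s
  have hc : |c| ^ 2 = c ^ 2 := sq_abs c
  have h5 : 0 < 4 * A0 * (c ^ 2 * A0 - lam * (|s| * |c| * M) + lam * (J - lam * M) * s ^ 2) := by
    have h6 : 4 * A0 * (c ^ 2 * A0 - lam * (|s| * |c| * M) + lam * (J - lam * M) * s ^ 2) =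
        (2 * A0 * |c| - lam * M * |s|) ^ 2 +
          lam * (4 * A0 * (J - lam * M) - lam * M ^ 2) * s ^ 2 := by
      have : (2 * A0 * |c| - lam * M * |s|) ^ 2 = 4 * A0 ^ 2 * |c| ^ 2 -
        4 * A0 * lam * M * (|s| * |c|) + lam ^ 2 * M ^ 2 * |s| ^ 2 := by ring
      rw [this, hs, hc]
      ring
    rw [h6]
    have h7 : 0 < lam * (4 * A0 * (J - lam * M) - lam * M ^ 2) := mul_pos hlam (by linarith)
    rcases eq_or_ne s 0 with h8 | h8
    · rw [h8] at hcs ⊢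
      have hc1 : |c| ^ 2 = 1 := by rw [hc]; linarith
      have : (2 * A0 * |c| - lam * M * |(0 : ℝ)|) ^ 2 = 4 * A0 ^ 2 := by
        rw [abs_zero, mul_zero, sub_zero, mul_pow, hc1]
        ring
      rw [this]
      positivity
    · positivity
  by_contra hneg
  push Not at hneg
  have := mul_nonpos_of_nonneg_of_nonpos (by positivity : 0 ≤ 4 * A0) hneg
  linarith

theorem Q_pos (P : Par) (κs : ℝ)
    (hκs : ∀ κ, 0 < κ → κ ≤ κs → ∀ ξ τ : ℝ, ξ ^ 2 + τ ^ 2 ≤ 11 / 10 → 0 < Wq ξ τ + κ * Bq ξ τ)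
    (h0 : 0 < P.k0) (h0' : P.k0 ≤ κs) (h1 : 0 < P.k1) (h1' : P.k1 ≤ κs) :
    ∃ (lam : ℝ) (k : ℤ), ∀ p, 0 < P.Q lam k p := by
  obtain ⟨A0, hA0, hA⟩ := core_bound P κs hκs h0 h0' h1 h1'
  obtain ⟨M, hM, hAb⟩ := A_bound P
  obtain ⟨v0, hv0, hv⟩ := FJ_bound
  have hom : 0 < om := by unfold om; positivity
  have hep : 0 < ep := by unfold ep; norm_num
  have hrr := rr_ne
  obtain ⟨J0, hJ0⟩ : ∃ J0, J0 = om * ep ^ 2 * v0 := ⟨_, rfl⟩
  have hJ0p : 0 < J0 := by rw [hJ0]; positivity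
  obtain ⟨J, hJ⟩ : ∃ J, J = ep / 20 * J0 := ⟨_, rfl⟩
  have hJp : 0 < J := by rw [hJ]; positivity
  -- choice of `lam`
  obtain ⟨lam, hlam⟩ : ∃ lam, lam = 2 * A0 * J / (4 * A0 * M + M ^ 2) := ⟨_, rfl⟩
  have hlp : 0 < lam := by rw [hlam]; positivity
  have hld : lam * M ^ 2 < 4 * A0 * (J - lam * M) := by
    have h2 : lam * (4 * A0 * M + M ^ 2) = 2 * A0 * J := by
      rw [hlam]
      field_simp
    have h3 : 0 < A0 * J := by positivity
    nlinarith
  -- lower bound in the outer region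
  obtain ⟨m0, hm0⟩ : ∃ m0, m0 = min om (min J (om * (ep / 20) ^ 3)) := ⟨_, rfl⟩
  have hm0p : 0 < m0 := by rw [hm0]; positivity
  have hout : ∀ p, (∀ i m n, ¬ inCore P i m n p) → m0 ≤ P.wts p * P.JJ p := by
    intro p hp
    rcases quiet_or_plug P p with hq | ⟨i, m, n, hpl⟩
    · obtain ⟨e1, e2, e3⟩ := quiet_wts hq
      rw [e1, one_mul]
      unfold Par.JJ
      rw [e3]
      have h2 : m0 ≤ om := by rw [hm0]; exact min_le_left _ _
      have h3 : 0 ≤ om * P.V2 p ^ 2 := by positivity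
      nlinarith
    · obtain ⟨u, hu⟩ : ∃ u, u = loc (P.cen i) m n p.2.2 := ⟨_, rfl⟩
      have hr : 11 / 10 ≤ rho u := by
        by_contra hc
        push Not at hc
        exact hp i m n ⟨hpl, by rw [← hu]; exact hc⟩
      have hw : P.wts p = P.geo.Wt p := by
        rw [plug_wts hpl hu, chi_out hr, deriv_chi_out hr]
        ring
      have hl : ep / 20 ≤ P.geo.Wt p := Wt_lower hpl hu (by linarith)
      rw [hw]
      rcases le_or_gt (rho u) (6 / 5) with h2 | h2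
      · rw [JJ_annulus hpl hu (by linarith) h2]
        have h3 : v0 ≤ FJ (u.1 / rr) (u.2 / rr) (1 - bet (rho u)) := by
          have h3 : rho u = (u.1 / rr) ^ 2 + (u.2 / rr) ^ 2 := by unfold rho; ring
          apply hv
          · linarith
          · linarith
          · linarith [bet_le_one (rho u)]
          · linarith [bet_nonneg (rho u)]
        have h4 : m0 ≤ J := by rw [hm0]; exact (min_le_right _ _).trans (min_le_left _ _)
        refine h4.trans ?_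
        rw [hJ, hJ0]
        have h5 : 0 ≤ P.geo.Wt p := le_trans (by positivity) hl
        gcongr
      · rw [JJ_outer hpl hu h2.le]
        have h4 : m0 ≤ om * (ep / 20) ^ 3 := by
          rw [hm0]; exact (min_le_right _ _).trans (min_le_right _ _)
        refine h4.trans ?_
        have h5 : (ep / 20) ^ 3 ≤ P.geo.Wt p ^ 3 := by gcongr
        have h6 : P.geo.Wt p * (om * P.geo.Wt p ^ 2) = om * P.geo.Wt p ^ 3 := by ring
        rw [h6]
        gcongr
  -- choice of `k`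
  obtain ⟨K, hK⟩ := exists_nat_gt ((M + lam * M + lam ^ 2 * M) / (lam * om * m0))
  refine ⟨lam, 8 * (K : ℤ), fun p => ?_⟩
  rw [P.Q_eq]
  obtain ⟨b11, b12, b22⟩ := hAb p
  obtain ⟨Θ, hΘ⟩ : ∃ Θ, Θ = om * ((8 * (K : ℤ) : ℤ) : ℝ) * P.ts p.2.2 := ⟨_, rfl⟩
  rw [← hΘ]
  have hcs : cos Θ ^ 2 + sin Θ ^ 2 = 1 := cos_sq_add_sin_sq Θ
  by_cases hcore : ∃ i m n, inCore P i m n p
  · obtain ⟨i, m, n, hc⟩ := hcore
    obtain ⟨u, hu⟩ : ∃ u, u = loc (P.cen i) m n p.2.2 := ⟨_, rfl⟩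
    have hpl := hc.1
    have hrl : rho u < 11 / 10 := by rw [hu]; exact hc.2
    have hts : P.ts p.2.2 = (P.cen i).2 + n + u.2 * (1 - chi (rho u)) := by
      rw [plug_ts hpl, ← hu]
      unfold gt
      have : p.2.2.2 = u.2 + (P.cen i).2 + n := by rw [hu]; unfold loc; ring
      rw [this]
      ring
    have hΘ2 : Θ = om * (8 * K) * (u.2 * (1 - chi (rho u))) + ((K * ((i : ℕ) + 1 + 8 * n) : ℤ) : ℝ) * (2 * π) := by
      rw [hΘ, hts, cen_snd]
      unfold om
      push_cast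
      ring
    have hsin : sin Θ = sin (om * (8 * K) * (u.2 * (1 - chi (rho u)))) := by
      rw [hΘ2, sin_add_int_mul_two_pi]
    have hK0 : (0 : ℝ) ≤ 8 * K := by positivity
    -- lower bound for the last term
    have hlast : J * sin Θ ^ 2 ≤ om * ((8 * (K : ℤ) : ℤ) : ℝ) * P.wts p * P.JJ p := by
      rcases le_or_gt (rho u) (21 / 20) with h2 | h2
      · have e1 : sin Θ = 0 := by
          rw [hsin, chi_core h2]
          simp
        have e2 : P.wts p = 0 := by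
          rw [plug_wts hpl hu, chi_core h2, deriv_chi_core h2]
          ring
        rw [e1, e2]
        simp
      · have hw : ep / 20 * (1 - chi (rho u)) ≤ P.wts p := by
          rw [plug_wts hpl hu]
          have h3 : ep / 20 ≤ P.geo.Wt p := Wt_lower hpl hu h2.le
          have h4 : 0 ≤ 1 - chi (rho u) := by linarith [chi_le_one (rho u)]
          have h5 : deriv chi (rho u) ≤ 0 := deriv_chi_nonpos _
          have h6 : 0 < ff (rho u) := ff_pos _ (by linarith)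
          have h7 : 0 ≤ 2 * u.2 ^ 2 / rr ^ 2 := by positivity
          have h8 : 2 * u.2 ^ 2 / rr ^ 2 * deriv chi (rho u) * ff (rho u) ≤ 0 :=
            mul_nonpos_of_nonpos_of_nonneg (mul_nonpos_of_nonneg_of_nonpos h7 h5) h6.le
          nlinarith [mul_le_mul_of_nonneg_right h3 h4]
        have hJJ : J0 ≤ P.JJ p := by
          rw [JJ_annulus hpl hu (by linarith) (by linarith), hJ0]
          have h3 : rho u = (u.1 / rr) ^ 2 + (u.2 / rr) ^ 2 := by unfold rho; ring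
          have h4 : v0 ≤ FJ (u.1 / rr) (u.2 / rr) (1 - bet (rho u)) := by
            apply hv
            · linarith
            · linarith
            · linarith [bet_le_one (rho u)]
            · linarith [bet_nonneg (rho u)]
          gcongr
        have hu2 : |u.2| ≤ 1 := by
          have h3 : u.2 ^ 2 ≤ rho u * rr ^ 2 := by
            unfold rho
            rw [div_mul_cancel₀ _ (pow_ne_zero 2 hrr)]
            nlinarith [sq_nonneg u.1]
          have h4 : rho u * rr ^ 2 ≤ 1 := by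
            unfold rr
            nlinarith
          exact abs_le_of_sq_le_sq (by linarith) zero_le_one
        have h4 : 0 ≤ 1 - chi (rho u) := by linarith [chi_le_one (rho u)]
        have hsb : |sin Θ| ≤ om * (8 * K) * (1 - chi (rho u)) := by
          rw [hsin]
          refine abs_sin_le_abs.trans ?_
          rw [abs_mul (om * (8 * (K : ℝ))), abs_mul u.2, abs_of_nonneg (by positivity : 0 ≤ om * (8 * K : ℝ)),
            abs_of_nonneg h4]
          have : |u.2| * (1 - chi (rho u)) ≤ 1 * (1 - chi (rho u)) := by gcongr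
          calc om * (8 * K) * (|u.2| * (1 - chi (rho u))) ≤ om * (8 * K) * (1 * (1 - chi (rho u))) := by
                gcongr
            _ = _ := by ring
        have hs2 : sin Θ ^ 2 ≤ |sin Θ| := by
          rw [← sq_abs]
          have := abs_sin_le_one Θ
          have h0 := abs_nonneg (sin Θ)
          nlinarith
        push_cast
        calc J * sin Θ ^ 2 ≤ J * (om * (8 * K) * (1 - chi (rho u))) := by
              gcongr
              exact hs2.trans hsb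
          _ = om * (8 * K) * (ep / 20 * (1 - chi (rho u))) * J0 := by rw [hJ]; ring
          _ ≤ om * (8 * K) * P.wts p * P.JJ p := by
              have hwn : 0 ≤ P.wts p := le_trans (by positivity) hw
              gcongr
    have hq := quad_pos hlp hA0 hld hcs (hA i m n p hc) b12 b22 hlast
    calc 0 < _ := hq
      _ = _ := by ring
  · push Not at hcore
    have h2 := hout p hcore
    have h3 : M + lam * M + lam ^ 2 * M < lam * (om * ((8 * (K : ℤ) : ℤ) : ℝ) * P.wts p) * P.JJ p := by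
      rw [div_lt_iff₀ (by positivity)] at hK
      push_cast
      have h4 : K * (lam * om * m0) ≤ K * (lam * om * (P.wts p * P.JJ p)) := by gcongr
      have h5 : 0 ≤ K * (lam * om * (P.wts p * P.JJ p)) := le_trans (by positivity) h4
      have h6 : lam * (om * (8 * K) * P.wts p) * P.JJ p = 8 * (K * (lam * om * (P.wts p * P.JJ p))) := by
        ring
      rw [h6]
      linarith
    have hc1 : cos Θ ^ 2 ≤ 1 := by nlinarith [sq_nonneg (sin Θ)]
    have hs1 : sin Θ ^ 2 ≤ 1 := by nlinarith [sq_nonneg (cos Θ)]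
    have h4 : -M ≤ cos Θ ^ 2 * P.A11 p := by
      have := (abs_le.1 b11).1
      nlinarith [sq_nonneg (cos Θ)]
    have h5 : -(lam * M) ≤ lam * (sin Θ * cos Θ) * P.A12 p := by
      have h6 : |sin Θ * cos Θ * P.A12 p| ≤ 1 * M := by
        rw [abs_mul]
        have h7 : |sin Θ * cos Θ| ≤ 1 := by
          rw [abs_mul]
          have := abs_sin_le_one Θ
          have := abs_cos_le_one Θ
          have := abs_nonneg (sin Θ)
          have := abs_nonneg (cos Θ)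
          nlinarith
        gcongr
      have h8 := neg_abs_le (sin Θ * cos Θ * P.A12 p)
      have h9 : -M ≤ sin Θ * cos Θ * P.A12 p := by linarith
      have := mul_le_mul_of_nonneg_left h9 hlp.le
      linarith
    have h6 : -(lam ^ 2 * M) ≤ lam ^ 2 * sin Θ ^ 2 * P.A22 p := by
      have h7 : -M ≤ sin Θ ^ 2 * P.A22 p := by
        have := (abs_le.1 b22).1
        nlinarith [sq_nonneg (sin Θ)]
      have := mul_le_mul_of_nonneg_left h7 (sq_nonneg lam)
      linarith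
    linarith

theorem engel_pos (P : Par) (κs : ℝ)
    (hκs : ∀ κ, 0 < κ → κ ≤ κs → ∀ ξ τ : ℝ, ξ ^ 2 + τ ^ 2 ≤ 11 / 10 → 0 < Wq ξ τ + κ * Bq ξ τ)
    (h0 : 0 < P.k0) (h0' : P.k0 ≤ κs) (h1 : 0 < P.k1) (h1' : P.k1 ≤ κs) :
    ∃ (lam : ℝ) (k : ℤ), ∀ p,
      0 < fderiv ℝ P.geo.alpha p (P.X lam k p) (VectorField.lieBracket ℝ P.W (P.X lam k) p) -
        fderiv ℝ P.geo.alpha p (VectorField.lieBracket ℝ P.W (P.X lam k) p) (P.X lam k p) :=
  Q_pos P κs hκs h0 h0' h1 h1'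

/-! ### `W` does not vanish -/

theorem W_ne_zero (P : Par) (h0 : 0 < P.k0) (h1 : 0 < P.k1) (p : V4) : P.W p ≠ 0 := by
  intro hW
  have e1 : P.geo.Wt p = 0 := by
    have : (P.W p).2.2.2 = P.geo.Wt p := rfl
    rw [← this, hW]
    rfl
  have e2 : P.geo.Wz p = 0 := by
    have : (P.W p).2.2.1 = P.geo.Wz p := rfl
    rw [← this, hW]
    rfl
  have e3 : P.geo.Ws p = 0 := by
    have h2 : P.geo.sg p (P.W p) = P.geo.Ws p := Geo.sg_emb _ _ _ _ _
    rw [← h2, hW]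
    unfold Geo.sg
    simp
  rcases quiet_or_plug P p with hq | ⟨i, m, n, hpl⟩
  · have := (quiet_wts hq).2.1
    rw [e1] at this
    exact zero_ne_one this
  · obtain ⟨u, hu⟩ : ∃ u, u = loc (P.cen i) m n p.2.2 := ⟨_, rfl⟩
    have hr := rr_ne
    have hep : 0 < ep := by unfold ep; norm_num
    have hκ : 0 < P.kap i := by
      fin_cases i
      · exact h1
      · exact h1
      · exact h0
    have f1 := plug_Wt hpl
    have f2 := plug_Wz hpl
    have f3 := plug_Ws hpl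
    rw [← hu, e1] at f1
    rw [← hu, e2] at f2
    rw [← hu, e3] at f3
    have hrho : rho u = (u.1 / rr) ^ 2 + (u.2 / rr) ^ 2 := by unfold rho; ring
    rcases le_or_gt (rho u) 1 with h2 | h2
    · rw [ff_core _ (by linarith), deriv_ff_core _ (by linarith)] at f1
      rw [deriv_ff_core _ (by linarith)] at f2 f3
      have g1 : rho u - 1 + 2 * (u.1 / rr) ^ 2 = 0 := by
        have : ep * (rho u - 1 + 2 * (u.1 / rr) ^ 2) = 0 := by
          rw [f1]
          ring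
        rcases mul_eq_zero.1 this with h3 | h3
        · exact absurd h3 hep.ne'
        · exact h3
      have g2 : (u.1 / rr) * (u.2 / rr) = 0 := by
        have : ep * ((u.1 / rr) * (u.2 / rr)) = 0 := by
          have h3 : 2 * (ep * ((u.1 / rr) * (u.2 / rr))) = 2 * u.1 * u.2 * ep / rr ^ 2 := by ring
          have h4 : 2 * u.1 * u.2 * ep / rr ^ 2 = 0 := by linarith
          rw [h4] at h3
          linarith
        rcases mul_eq_zero.1 this with h3 | h3
        · exact absurd h3 hep.ne'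
        · exact h3
      rcases mul_eq_zero.1 g2 with h3 | h3
      · rw [h3] at g1 f3 hrho
        have h4 : (u.2 / rr) ^ 2 = 1 := by linarith
        have h5 : u.2 / rr * ep = 0 := by linarith
        rcases mul_eq_zero.1 h5 with h6 | h6
        · rw [h6] at h4
          norm_num at h4
        · exact hep.ne' h6
      · rw [h3] at f3 hrho
        have h4 : (u.1 / rr) ^ 2 = 1 / 3 := by linarith
        have h5 : rho u = 1 / 3 := by rw [hrho, h4]; ring
        rw [h5] at f3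
        have h6 := deriv_GG_neg
        have h7 : P.kap i * (2 * ep * (u.1 / rr) * deriv GG (1 / 3)) = 0 := by linarith
        have h8 : u.1 / rr ≠ 0 := by
          intro h9
          rw [h9] at h4
          norm_num at h4
        have h9 : P.kap i * (2 * ep * (u.1 / rr) * deriv GG (1 / 3)) ≠ 0 :=
          mul_ne_zero hκ.ne' (mul_ne_zero (mul_ne_zero (by positivity) h8) h6.ne)
        exact h9 h7
    · have h3 := ff_pos _ h2
      have h4 := deriv_ff_nonneg (rho u)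
      have h5 : 0 ≤ 2 * u.1 ^ 2 * deriv ff (rho u) / rr ^ 2 := by positivity
      linarith

end Pool.Agent.Helper53.Engel
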