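import Pool.Agent.Helper53.Engel.Defs

/-!
# Facts on the profile functions
-/

set_option autoImplicit false

open Topology Real Filter
open scoped ContDiff

noncomputable section

namespace Pool.Agent.Helper53.Engel

/-! ### smooth steps -/

lemma stp_contDiff (a b : ℝ) : ContDiff ℝ ∞ (stp a b) := by
  unfold stp
  have h : ContDiff ℝ ∞ Real.smoothTransition := Real.smoothTransition.contDiff
  exact h.comp ((contDiff_id.sub contDiff_const).div_const _)

lemma stp_zero {a b x : ℝ} (h : a < b) (hx : x ≤ a) : stp a b x = 0 := by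
  unfold stp
  exact Real.smoothTransition.zero_of_nonpos
    (div_nonpos_of_nonpos_of_nonneg (by linarith) (by linarith))

lemma stp_one {a b x : ℝ} (h : a < b) (hx : b ≤ x) : stp a b x = 1 := by
  unfold stp
  exact Real.smoothTransition.one_of_one_le (by rw [le_div_iff₀ (by linarith)]; linarith)

lemma stp_nonneg (a b x : ℝ) : 0 ≤ stp a b x := Real.smoothTransition.nonneg _

lemma stp_le_one (a b x : ℝ) : stp a b x ≤ 1 := Real.smoothTransition.le_one _

lemma stp_lt_one {a b x : ℝ} (h : a < b) (hx : x < b) : stp a b x < 1 :=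
  Real.smoothTransition.lt_one_of_lt_one (by rw [div_lt_one (by linarith)]; linarith)

lemma stp_pos {a b x : ℝ} (h : a < b) (hx : a < x) : 0 < stp a b x :=
  Real.smoothTransition.pos_of_pos (div_pos (by linarith) (by linarith))

lemma stp_mono {a b : ℝ} (h : a < b) : Monotone (stp a b) := by
  intro x y hxy
  unfold stp
  apply Real.smoothTransition.monotone
  have h2 : 0 < b - a := by linarith
  gcongr

lemma stp_differentiable (a b : ℝ) : Differentiable ℝ (stp a b) :=
  (stp_contDiff a b).differentiable (by simp)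

lemma stp_deriv_contDiff (a b : ℝ) : ContDiff ℝ ∞ (deriv (stp a b)) :=
  (contDiff_infty_iff_deriv.1 (stp_contDiff a b)).2

lemma stp_deriv_nonneg {a b : ℝ} (h : a < b) (x : ℝ) : 0 ≤ deriv (stp a b) x :=
  (stp_mono h).deriv_nonneg

lemma stp_hasDerivAt (a b x : ℝ) : HasDerivAt (stp a b) (deriv (stp a b) x) x :=
  (stp_differentiable a b x).hasDerivAt

lemma stp_deriv_zero_left {a b x : ℝ} (h : a < b) (hx : x < a) : deriv (stp a b) x = 0 := by
  have : stp a b =ᶠ[𝓝 x] fun _ => 0 := by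
    filter_upwards [Iio_mem_nhds hx] with y hy
    exact stp_zero h hy.le
  rw [this.deriv_eq]
  simp

lemma stp_deriv_zero_right {a b x : ℝ} (h : a < b) (hx : b < x) : deriv (stp a b) x = 0 := by
  have : stp a b =ᶠ[𝓝 x] fun _ => 1 := by
    filter_upwards [Ioi_mem_nhds hx] with y hy
    exact stp_one h hy.le
  rw [this.deriv_eq]
  simp

lemma stp_deriv_left {a b x : ℝ} (h : a < b) (hx : x ≤ a) : deriv (stp a b) x = 0 := by
  rcases hx.lt_or_eq with hx | rfl
  · exact stp_deriv_zero_left h hx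
  · have hc : Continuous (deriv (stp x b)) := (stp_deriv_contDiff x b).continuous
    have h1 : Tendsto (deriv (stp x b)) (𝓝[<] x) (𝓝 (deriv (stp x b) x)) :=
      hc.continuousAt.tendsto.mono_left nhdsWithin_le_nhds
    have h2 : Tendsto (deriv (stp x b)) (𝓝[<] x) (𝓝 0) := by
      refine tendsto_const_nhds.congr' ?_
      filter_upwards [self_mem_nhdsWithin] with y hy
      exact (stp_deriv_zero_left h hy).symm
    exact tendsto_nhds_unique h1 h2

lemma stp_deriv_right {a b x : ℝ} (h : a < b) (hx : b ≤ x) : deriv (stp a b) x = 0 := by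
  rcases hx.lt_or_eq with hx | rfl
  · exact stp_deriv_zero_right h hx
  · have hc : Continuous (deriv (stp a b)) := (stp_deriv_contDiff a b).continuous
    have h1 : Tendsto (deriv (stp a b)) (𝓝[>] b) (𝓝 (deriv (stp a b) b)) :=
      hc.continuousAt.tendsto.mono_left nhdsWithin_le_nhds
    have h2 : Tendsto (deriv (stp a b)) (𝓝[>] b) (𝓝 0) := by
      refine tendsto_const_nhds.congr' ?_
      filter_upwards [self_mem_nhdsWithin] with y hy
      exact (stp_deriv_zero_right h hy).symm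
    exact tendsto_nhds_unique h1 h2

/-! ### the profile `ff` -/

theorem ff_contDiff : ContDiff ℝ ∞ ff := by
  unfold ff
  have h := stp_contDiff (6 / 5) 2
  exact ((contDiff_const.sub h).mul (contDiff_const.mul (contDiff_id.sub contDiff_const))).add h

theorem ff_differentiable : Differentiable ℝ ff := ff_contDiff.differentiable (by simp)

theorem ff_core (s : ℝ) (h : s ≤ 6 / 5) : ff s = ep * (s - 1) := by
  unfold ff
  rw [stp_zero (by norm_num) h]
  ring

theorem ff_out (s : ℝ) (h : 2 ≤ s) : ff s = 1 := by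
  unfold ff
  rw [stp_one (by norm_num) h]
  ring

theorem hasDerivAt_ff (s : ℝ) : HasDerivAt ff
    ((1 - stp (6 / 5) 2 s) * ep + deriv (stp (6 / 5) 2) s * (1 - ep * (s - 1))) s := by
  have h := stp_hasDerivAt (6 / 5) 2 s
  have h2 : HasDerivAt ff (-deriv (stp (6 / 5) 2) s * (ep * (s - 1)) +
      (1 - stp (6 / 5) 2 s) * (ep * 1) + deriv (stp (6 / 5) 2) s) s :=
    ((h.const_sub 1).mul (((hasDerivAt_id s).sub_const 1).const_mul ep)).add h
  exact h2.congr_deriv (by ring)

theorem deriv_ff (s : ℝ) : deriv ff s =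
    (1 - stp (6 / 5) 2 s) * ep + deriv (stp (6 / 5) 2) s * (1 - ep * (s - 1)) :=
  (hasDerivAt_ff s).deriv

theorem deriv_ff_core (s : ℝ) (h : s ≤ 6 / 5) : deriv ff s = ep := by
  rw [deriv_ff, stp_zero (by norm_num) h, stp_deriv_left (by norm_num) h]
  ring

theorem deriv_ff_out (s : ℝ) (h : 2 ≤ s) : deriv ff s = 0 := by
  rw [deriv_ff, stp_one (by norm_num) h, stp_deriv_right (by norm_num) h]
  ring

theorem deriv_ff_nonneg (s : ℝ) : 0 ≤ deriv ff s := by
  rcases le_or_gt 2 s with h | h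
  · rw [deriv_ff_out s h]
  · rw [deriv_ff]
    have h1 := stp_le_one (6 / 5) 2 s
    have h2 := stp_deriv_nonneg (a := 6 / 5) (b := 2) (by norm_num) s
    have h3 : (0 : ℝ) ≤ 1 - ep * (s - 1) := by unfold ep; linarith
    have h4 : (0 : ℝ) ≤ ep := by unfold ep; norm_num
    have h5 : 0 ≤ 1 - stp (6 / 5) 2 s := by linarith
    positivity

theorem deriv_ff_contDiff : ContDiff ℝ ∞ (deriv ff) := (contDiff_infty_iff_deriv.1 ff_contDiff).2

theorem ff_pos (s : ℝ) (h : 1 < s) : 0 < ff s := by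
  unfold ff
  have h1 := stp_le_one (6 / 5) 2 s
  have h2 := stp_nonneg (6 / 5) 2 s
  have h3 : (0 : ℝ) < ep * (s - 1) := mul_pos (by unfold ep; norm_num) (by linarith)
  rcases lt_or_ge (stp (6 / 5) 2 s) 1 with h4 | h4
  · have : 0 < (1 - stp (6 / 5) 2 s) * (ep * (s - 1)) := mul_pos (by linarith) h3
    linarith
  · have h5 : stp (6 / 5) 2 s = 1 := le_antisymm h1 h4
    rw [h5]
    norm_num

theorem ff_mono : Monotone ff :=
  monotone_of_deriv_nonneg ff_differentiable deriv_ff_nonneg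

theorem ff_neg (s : ℝ) (h : s < 1) : ff s < 0 := by
  rw [ff_core s (by linarith)]
  have : (0 : ℝ) < ep := by unfold ep; norm_num
  nlinarith

theorem ff_one : ff 1 = 0 := by
  rw [ff_core 1 (by norm_num)]
  ring

theorem ff_le_one (s : ℝ) : ff s ≤ 1 := by
  rcases le_or_gt 2 s with h | h
  · rw [ff_out s h]
  · calc ff s ≤ ff 2 := ff_mono h.le
      _ = 1 := ff_out 2 le_rfl

/-! ### the bump `GG` -/

theorem GG_contDiff : ContDiff ℝ ∞ GG := by
  unfold GG
  exact contDiff_const.sub (stp_contDiff _ _)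

theorem deriv_GG_contDiff : ContDiff ℝ ∞ (deriv GG) := (contDiff_infty_iff_deriv.1 GG_contDiff).2

theorem deriv_GG (s : ℝ) : deriv GG s = -deriv (stp (1 / 6) (1 / 2)) s :=
  ((stp_hasDerivAt (1 / 6) (1 / 2) s).const_sub 1).deriv

theorem GG_out (s : ℝ) (h : 1 / 2 ≤ s) : GG s = 0 := by
  unfold GG
  rw [stp_one (by norm_num) h]
  ring

theorem deriv_GG_out (s : ℝ) (h : 1 / 2 ≤ s) : deriv GG s = 0 := by
  rw [deriv_GG, stp_deriv_right (by norm_num) h]
  ring

theorem GG_nonneg (s : ℝ) : 0 ≤ GG s := by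
  unfold GG
  linarith [stp_le_one (1 / 6) (1 / 2) s]

theorem GG_le_one (s : ℝ) : GG s ≤ 1 := by
  unfold GG
  linarith [stp_nonneg (1 / 6) (1 / 2) s]

theorem deriv_GG_nonpos (s : ℝ) : deriv GG s ≤ 0 := by
  rw [deriv_GG]
  linarith [stp_deriv_nonneg (a := 1 / 6) (b := 1 / 2) (by norm_num) s]

lemma hasDerivAt_expNegInvGlue {x : ℝ} (hx : 0 < x) :
    HasDerivAt expNegInvGlue (expNegInvGlue x / x ^ 2) x := by
  have h1 : HasDerivAt (fun x : ℝ => exp (-x⁻¹)) (exp (-x⁻¹) * (-(-(x ^ 2)⁻¹))) x := by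
    have := ((hasDerivAt_inv hx.ne').neg).exp
    exact this
  have h2 : expNegInvGlue =ᶠ[𝓝 x] fun x : ℝ => exp (-x⁻¹) := by
    filter_upwards [Ioi_mem_nhds hx] with y hy
    have hy' : ¬ y ≤ 0 := not_le.2 hy
    simp [expNegInvGlue, hy']
  have h3 := h1.congr_of_eventuallyEq h2
  have h4 : expNegInvGlue x = exp (-x⁻¹) := by simp [expNegInvGlue, not_le.2 hx]
  refine h3.congr_deriv ?_
  rw [h4]
  field_simp

lemma deriv_smoothTransition_half : 0 < deriv Real.smoothTransition (1 / 2) := by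
  have h1 : HasDerivAt expNegInvGlue (expNegInvGlue (1 / 2) / (1 / 2) ^ 2) (1 / 2) :=
    hasDerivAt_expNegInvGlue (by norm_num)
  have h2 : HasDerivAt (fun x : ℝ => expNegInvGlue (1 - x))
      (expNegInvGlue (1 / 2) / (1 / 2) ^ 2 * (-1)) (1 / 2) := by
    have h3 : HasDerivAt expNegInvGlue (expNegInvGlue (1 / 2) / (1 / 2) ^ 2) (1 - 1 / 2) := by
      have : (1 : ℝ) - 1 / 2 = 1 / 2 := by norm_num
      rw [this]
      exact h1
    have h4 : HasDerivAt (fun x : ℝ => 1 - x) (-1) (1 / 2) := by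
      simpa using (hasDerivAt_id (1 / 2 : ℝ)).const_sub 1
    exact h3.comp (1 / 2) h4
  have hp : 0 < expNegInvGlue (1 / 2) := expNegInvGlue.pos_of_pos (by norm_num)
  have h5 : HasDerivAt Real.smoothTransition _ (1 / 2) :=
    h1.div (h1.add h2) (by
      have := Real.smoothTransition.pos_denom (1 / 2)
      exact this.ne')
  rw [h5.deriv]
  have h6 : (1 : ℝ) - 1 / 2 = 1 / 2 := by norm_num
  simp only [h6]
  apply div_pos
  · ring_nf
    positivity
  · positivity

theorem deriv_GG_neg : deriv GG (1 / 3) < 0 := by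
  rw [deriv_GG]
  have h1 : HasDerivAt (fun x : ℝ => (x - 1 / 6) / (1 / 2 - 1 / 6)) (1 / (1 / 2 - 1 / 6)) (1 / 3) :=
    ((hasDerivAt_id (1 / 3 : ℝ)).sub_const _).div_const _
  have h2 : DifferentiableAt ℝ Real.smoothTransition ((1 / 3 - 1 / 6) / (1 / 2 - 1 / 6)) := by
    have : ContDiff ℝ ∞ Real.smoothTransition := Real.smoothTransition.contDiff
    exact (this.differentiable (by simp)) _
  have h3 : HasDerivAt (stp (1 / 6) (1 / 2)) _ (1 / 3) := h2.hasDerivAt.comp (1 / 3) h1
  rw [h3.deriv]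
  have h4 : ((1 / 3 : ℝ) - 1 / 6) / (1 / 2 - 1 / 6) = 1 / 2 := by norm_num
  rw [h4]
  have := deriv_smoothTransition_half
  have h5 : (0 : ℝ) < 1 / (1 / 2 - 1 / 6) := by norm_num
  nlinarith [mul_pos this h5]

/-! ### the cut-offs `chi`, `bet` -/

lemma chi_contDiff : ContDiff ℝ ∞ chi := by
  unfold chi
  exact contDiff_const.sub (stp_contDiff _ _)

lemma chi_core {s : ℝ} (h : s ≤ 21 / 20) : chi s = 1 := by
  unfold chi
  rw [stp_zero (by norm_num) h]
  ring

lemma chi_out {s : ℝ} (h : 11 / 10 ≤ s) : chi s = 0 := by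
  unfold chi
  rw [stp_one (by norm_num) h]
  ring

lemma chi_nonneg (s : ℝ) : 0 ≤ chi s := by
  unfold chi
  linarith [stp_le_one (21 / 20) (11 / 10) s]

lemma chi_le_one (s : ℝ) : chi s ≤ 1 := by
  unfold chi
  linarith [stp_nonneg (21 / 20) (11 / 10) s]

lemma deriv_chi (s : ℝ) : deriv chi s = -deriv (stp (21 / 20) (11 / 10)) s :=
  ((stp_hasDerivAt (21 / 20) (11 / 10) s).const_sub 1).deriv

lemma deriv_chi_nonpos (s : ℝ) : deriv chi s ≤ 0 := by
  rw [deriv_chi]
  linarith [stp_deriv_nonneg (a := 21 / 20) (b := 11 / 10) (by norm_num) s]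

lemma deriv_chi_core {s : ℝ} (h : s ≤ 21 / 20) : deriv chi s = 0 := by
  rw [deriv_chi, stp_deriv_left (by norm_num) h]
  ring

lemma deriv_chi_out {s : ℝ} (h : 11 / 10 ≤ s) : deriv chi s = 0 := by
  rw [deriv_chi, stp_deriv_right (by norm_num) h]
  ring

lemma bet_contDiff : ContDiff ℝ ∞ bet := stp_contDiff _ _

lemma bet_core {s : ℝ} (h : s ≤ 11 / 10) : bet s = 0 := stp_zero (by norm_num) h

lemma bet_out {s : ℝ} (h : 6 / 5 ≤ s) : bet s = 1 := stp_one (by norm_num) h

lemma bet_nonneg (s : ℝ) : 0 ≤ bet s := stp_nonneg _ _ _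

lemma bet_le_one (s : ℝ) : bet s ≤ 1 := stp_le_one _ _ _

end Pool.Agent.Helper53.Engel
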