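import Mathlib

/-!
# Engel structures on the 4-torus: definitions used in the statement

`ℝ⁴` is `ℝ × ℝ × ℝ × ℝ`; objects on `T⁴ = ℝ⁴ / ℤ⁴` are given by their `ℤ⁴`-periodic lifts to `ℝ⁴`.
-/

set_option autoImplicit false

open Topology
open scoped ContDiff

namespace Pool.Agent.Helper53.Engel

/-- `ℝ⁴`. -/
abbrev V4 := ℝ × ℝ × ℝ × ℝ

/-- The lattice `ℤ⁴` in `ℝ⁴`. -/
def Lat : Set V4 := {p | ∃ a b c d : ℤ, p = ((a : ℝ), (b : ℝ), (c : ℝ), (d : ℝ))}

/-- A smooth distribution of rank `k` on `T⁴ = ℝ⁴ / ℤ⁴`, given by its lift to `ℝ⁴`: a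
`ℤ⁴`-periodic family of `k`-dimensional subspaces, locally spanned by `k` smooth vector fields. -/
structure IsDistribution (k : ℕ) (D : V4 → Submodule ℝ V4) : Prop where
  periodic : ∀ p, ∀ n ∈ Lat, D (p + n) = D p
  rank : ∀ p, Module.finrank ℝ (D p) = k
  smooth : ∀ p, ∃ v : Fin k → V4 → V4, (∀ i, ContDiff ℝ ∞ (v i)) ∧
    ∀ᶠ q in 𝓝 p, D q = Submodule.span ℝ (Set.range fun i => v i q)

/-- `v` is a smooth section of `D`, over `ℝ⁴`. -/
def Sect (D : V4 → Submodule ℝ V4) (v : V4 → V4) : Prop :=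
  ContDiff ℝ ∞ v ∧ ∀ p, v p ∈ D p

/-- `[D, D]`: at `p`, the span of `D p` and of the values at `p` of the Lie brackets of smooth
sections of `D`. -/
def derived (D : V4 → Submodule ℝ V4) (p : V4) : Submodule ℝ V4 :=
  D p ⊔ Submodule.span ℝ
    {u | ∃ v w : V4 → V4, Sect D v ∧ Sect D w ∧ u = VectorField.lieBracket ℝ v w p}

/-- `D` is an Engel structure on `T⁴`: a smooth rank 2 distribution such that `E = [D, D]` is a
distribution of rank 3 and `[E, E]` is the whole tangent bundle. -/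
structure IsEngel (D : V4 → Submodule ℝ V4) : Prop where
  rank_two : IsDistribution 2 D
  rank_three : IsDistribution 3 (derived D)
  rank_four : ∀ p, derived (derived D) p = ⊤

/-- `W` is the characteristic line field of the Engel structure `D`: a smooth line field contained
in `E = [D, D]` with `[W, E] ⊆ E`. -/
structure IsCharacteristic (D W : V4 → Submodule ℝ V4) : Prop where
  line : IsDistribution 1 W
  le : ∀ p, W p ≤ derived D p
  bracket : ∀ v w : V4 → V4, Sect W v → Sect (derived D) w →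
    ∀ p, VectorField.lieBracket ℝ v w p ∈ derived D p

/-- `γ` is a regular `C¹` curve tangent to the line field `W` which closes up in `T⁴` after
time `T`. -/
structure IsClosedCurve (W : V4 → Submodule ℝ V4) (γ : ℝ → V4) (T : ℝ) : Prop where
  pos : 0 < T
  diff : Differentiable ℝ γ
  cont : Continuous (deriv γ)
  regular : ∀ s, deriv γ s ≠ 0
  tangent : ∀ s, deriv γ s ∈ W (γ s)
  closes : ∃ n ∈ Lat, ∀ s, γ (s + T) = γ s + n

/-- `L` is the preimage in `ℝ⁴` of a closed leaf (in `T⁴`) of the foliation tangent to `W`. -/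
def IsClosedLeaf (W : V4 → Submodule ℝ V4) (L : Set V4) : Prop :=
  ∃ (γ : ℝ → V4) (T : ℝ), IsClosedCurve W γ T ∧ L = {p | ∃ s, ∃ n ∈ Lat, p = γ s + n}

/-- `h` is a first-return map, in `T⁴`, on the transversal `p + H` near `p`, of the flow of the
vector field `w`, whose orbit `c` through `p` is closed in `T⁴` with first return time `T`: for `v`
in `H` near `0`, the orbit of `p + v` hits `p + H` (translated by the lattice vector `c T - p`) at
`c T + h v`, at a time `τ v` depending continuously on `v` at `0` and equal to `T` for `v = 0`. -/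
def IsReturnMap (w : V4 → V4) (p : V4) (H : Submodule ℝ V4) (h : H → H) : Prop :=
  ∃ (c : ℝ → V4) (T : ℝ) (τ : H → ℝ),
    0 < T ∧ c 0 = p ∧ (∀ s, HasDerivAt c (w (c s)) s) ∧ c T - p ∈ Lat ∧
    (∀ s, 0 < s → s < T → c s - p ∉ Lat) ∧ τ 0 = T ∧ ContinuousAt τ 0 ∧
    ∀ᶠ v : H in 𝓝 0, ∃ γ : ℝ → V4, γ 0 = p + (v : V4) ∧
      (∀ s, HasDerivAt γ (w (γ s)) s) ∧ γ (τ v) = c T + (h v : V4)

/-- The closed leaf `L` of the foliation tangent to `W` is non-degenerate: the derivative at the
point `p` of the leaf of the first-return map (holonomy) on a transversal 3-disc in `p + H` has no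
eigenvalue `1`. Here `w` is a nowhere vanishing periodic vector field spanning `W`. -/
def IsNondegenerate (W : V4 → Submodule ℝ V4) (L : Set V4) : Prop :=
  ∃ p ∈ L, ∃ (w : V4 → V4) (H : Submodule ℝ V4) (h : H → H) (A : H →L[ℝ] H),
    Sect W w ∧ (∀ q, w q ≠ 0) ∧ (∀ q, ∀ n ∈ Lat, w (q + n) = w q) ∧ IsCompl H (W p) ∧
    IsReturnMap w p H h ∧ HasFDerivAt h A 0 ∧ ∀ v, A v = v → v = 0

end Pool.Agent.Helper53.Engel
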